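import Pool.Agent.Lib.MP_adc574_ag_GP.Def

/-!
# Ordinary reduction of varieties of symplectic type: the definitions used in the statement

* `twist m a`: the degree of `s ^ a * x` for `x` of degree `m`, `s` of degree `2`; `Cover.power`: the relation
  `y = s ^ a * x`.
* `Cover.boundary`: the Čech differential of families of functions; `Cover.FrobeniusInjective p m`: Frobenius is
  injective on `H^m(X, O)`.
* `Symplectic X N`: Serre duality in dimension `2 N`, and there are `σ` in `F^2 H^2`, `τ` in `H^2` such that the maps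
  `σ^(N-p) : H^q(Ω^p) → H^q(Ω^(2N-p))`, `p ≤ N`, and `τ^(N-q) : H^q(Ω^p) → H^(2N-q)(Ω^p)`, `q ≤ N`, are injective.
-/

set_option autoImplicit false

namespace OrdRed

universe u v

/-- The degree of `s ^ a * x` for `x` of degree `m`, `s` of degree `2`. -/
def twist (m : ℕ) : ℕ → ℕ
  | 0 => m
  | a + 1 => 2 + twist m a

namespace Cover

variable {A : Type u} [CommRing A] {n : ℕ} (X : Cover.{u, v} A n)

/-- `y = s ^ a * x`. -/
def power (s : X.DR 2) (m : ℕ) (x : X.DR m) : (a : ℕ) → X.DR (twist m a) → Prop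
  | 0, y => y = x
  | a + 1, y => ∃ z, power s m x a z ∧ X.prod 2 (twist m a) s z y

/-- The Čech differential of a family of functions. -/
noncomputable def boundary (f : ∀ J : Finset (Fin n), X.R J) (J : Finset (Fin n)) : X.R J :=
  ∑ j ∈ J, sign j J • X.res (Finset.erase_subset j J) (f (J.erase j))

/-- Frobenius, the map `f ↦ f ^ p`, is injective on `H^m(X, O)`: a Čech cocycle `f` of functions on the `U_J`,
`|J| = m + 1`, is a coboundary if `f ^ p` is a coboundary. -/
def FrobeniusInjective (p m : ℕ) : Prop :=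
  ∀ f : ∀ J : Finset (Fin n), X.R J, (∀ J, J.card ≠ m + 1 → f J = 0) → (∀ J, X.boundary f J = 0) →
    (∃ g : ∀ J : Finset (Fin n), X.R J, (∀ J, J.card ≠ m → g J = 0) ∧ ∀ J, X.boundary g J = f J ^ p) →
      ∃ g : ∀ J : Finset (Fin n), X.R J, (∀ J, J.card ≠ m → g J = 0) ∧ ∀ J, X.boundary g J = f J

end Cover

/-- `X` is of symplectic type of dimension `2 N`, with the classes `σ` and `τ`. -/
structure SymplecticWith {k : Type u} [Field k] {n : ℕ} (X : Cover.{u, v} k n) (N : ℕ) (σ τ : X.DR 2) : Prop where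
  /-- `H^(4 N) = H^(2 N)(Ω^(2 N))` has the dimension one. -/
  dim_top : Module.finrank k (X.DR (4 * N)) = 1
  hodge_top : X.hodge (4 * N) (2 * N) = ⊤
  hodge_bot : X.hodge (4 * N) (2 * N + 1) = ⊥
  vanish : ∀ m, 4 * N < m → Subsingleton (X.DR m)
  /-- Serre duality: the pairing of `F^p / F^(p+1)` and `F^(2N-p) / F^(2N-p+1)` has no kernel on the left. -/
  dual : ∀ m m', m + m' = 4 * N → ∀ p, ∀ x ∈ X.hodge m p, x ∉ X.hodge m (p + 1) →
    ∃ y ∈ X.hodge m' (2 * N - p), ∃ z, X.prod m m' x y z ∧ z ≠ 0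
  two : σ ∈ X.hodge 2 2
  /-- `σ^(N-p)` is injective on `F^p / F^(p+1)`. -/
  sigma : ∀ m p, p ≤ N → ∀ x ∈ X.hodge m p, ∀ y ∈ X.hodge (twist m (N - p)) (2 * N - p + 1),
    X.power σ m x (N - p) y → x ∈ X.hodge m (p + 1)
  /-- `τ^(N-q)` is injective on `F^p H^(p+q) / F^(p+1) H^(p+q)`. -/
  tau : ∀ p q, q ≤ N → ∀ x ∈ X.hodge (p + q) p, ∀ y ∈ X.hodge (twist (p + q) (N - q)) (p + 1),
    X.power τ (p + q) x (N - q) y → x ∈ X.hodge (p + q) (p + 1)

/-- `X` is of symplectic type of dimension `2 N`. -/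
def Symplectic {k : Type u} [Field k] {n : ℕ} (X : Cover.{u, v} k n) (N : ℕ) : Prop :=
  ∃ σ τ : X.DR 2, SymplecticWith X N σ τ

end OrdRed
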