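import Pool.Agent.Lib.MP_adc574_ag_HK.Def

/-!
# Ordinary reduction of varieties of symplectic type: moving second cohomology
-/

set_option autoImplicit false

namespace OrdRed

universe u v

/-- `H^2(X, O)` is one-dimensional, and `0` is the only subspace `V` of `F^1 H^2_dR(X)` which is stable under the
Gauss-Manin connection and orthogonal to the line bundles: `x y^(2N-1) = 0` for `x` in `V` and every class `y` of a
Čech cocycle of sums of logarithmic differentials. -/
def Moving {k : Type u} [Field k] {n : ℕ} (X : Cover.{u, v} k n) (N : ℕ) : Prop :=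
  Module.finrank k (X.DR 2) = Module.finrank k ↥(X.hodge 2 1) + 1 ∧
    ∀ V : Submodule k (X.DR 2), V ≤ X.hodge 2 1 →
      (∀ (D : Derivation ℤ k k), ∀ x ∈ V, ∀ y, X.nabla 2 D x y → y ∈ V) →
      (∀ x ∈ V, ∀ y ∈ X.dlog 2 1, ∀ z, X.power y 2 x (2 * N - 1) z → z = 0) → V = ⊥

end OrdRed
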