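import Pool.Agent.Lib.MP_adc574_ag_HK.Def
import Pool.Agent.Lib.MP_adc574_ag_GP.BrC
import Pool.Agent.Lib.MP_adc574_ag_GP.Ad

/-!
# Symplectic type: Frobenius on the functions
-/

set_option autoImplicit false
set_option linter.unusedSectionVars false

namespace MPadcHK

open MvPolynomial OrdRed MPadcGP

universe u v

section

variable {A : Type u} {R : Type v} [CommRing A] [CommRing R] [Algebra A R]

private theorem F1_zero {e : Fm A R} (he : e ∈ Fd A R 0) : ∃ r : R, fz A r = e := by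
  refine fd_ind (P := fun e => ∃ r : R, fz A r = e) ⟨0, map_zero _⟩ (fun r t => ⟨r, ?_⟩) ?_ he
  · rw [wd_zero, mul_one]
  · rintro _ _ ⟨a, rfl⟩ ⟨b, rfl⟩
    exact ⟨a + b, map_add _ _ _⟩

private theorem F1_inj {r s : R} (h : fz A r = fz A s) : r = s :=
  (ExteriorAlgebra.algebraMap_inj (R := R) (Ω[R⁄A]) r s).1 h

variable (A) in
private theorem F1_cast (p : ℕ) [CharP A p] : ((p : ℕ) : R) = 0 := by
  rw [← map_natCast (algebraMap A R), CharP.cast_eq_zero, map_zero]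

variable (A) in
private theorem F1_add_pow (p : ℕ) [hp : Fact p.Prime] [CharP A p] (r s : R) :
    (r + s) ^ p = r ^ p + s ^ p := by
  rw [add_pow_prime_eq hp.out, F1_cast A p, zero_mul, zero_mul, zero_mul, add_zero]

variable (A) in
private theorem F1_dd_pow (p : ℕ) [CharP A p] (r : R) : dd A (fz A (r ^ p)) = 0 := by
  rw [dd_fz]
  unfold df
  rw [Derivation.leibniz_pow, ← Nat.cast_smul_eq_nsmul R, F1_cast A p, zero_smul, map_zero]

end

section

variable {κ : Type u} [Field κ] {n : ℕ} (X : CovD.{u, v} κ n)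

/-- The cochain of a family of functions. -/
private noncomputable def F1_Fz (f : ∀ J : Finset (Fin n), X.R J) : X.Ch := fun J => fz κ (f J)

/-- The boundary of a family of functions. -/
private noncomputable def F1_bd (f : ∀ J : Finset (Fin n), X.R J) (J : Finset (Fin n)) : X.R J :=
  ∑ j ∈ J, sg j J • X.ρ (Finset.erase_subset j J) (f (J.erase j))

variable {X}

private theorem F1_bd_eq (f : ∀ J : Finset (Fin n), X.R J) (J : Finset (Fin n)) :
    (cov X).boundary f J = F1_bd X f J := rfl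

private theorem F1_ic (f : ∀ J : Finset (Fin n), X.R J) : X.ic (F1_Fz X f) = F1_Fz X f := by
  funext J
  exact inv_fz (f J)

private theorem F1_del (f : ∀ J : Finset (Fin n), X.R J) (J : Finset (Fin n)) :
    X.del (F1_Fz X f) J = fz κ (F1_bd X f J) := by
  rw [F1_bd, CovD.del_apply, map_sum]
  refine Finset.sum_congr rfl fun j _ => ?_
  rw [map_zsmul, CovD.ev_of (Finset.erase_subset j J)]
  congr 1
  exact CovD.rs_fz _ _

private theorem F1_bd_zero {m : ℕ} {f : ∀ J : Finset (Fin n), X.R J} (hf : ∀ J, J.card ≠ m → f J = 0)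
    {J : Finset (Fin n)} (hJ : J.card ≠ m + 1) : F1_bd X f J = 0 := by
  unfold F1_bd
  refine Finset.sum_eq_zero fun j hj => ?_
  have h2 : (J.erase j).card ≠ m := by
    rw [Finset.card_erase_of_mem hj]
    have := Finset.card_pos.2 ⟨j, hj⟩
    omega
  rw [hf _ h2, map_zero, smul_zero]

private theorem F1_bd_sub (f g : ∀ J : Finset (Fin n), X.R J) (J : Finset (Fin n)) :
    F1_bd X (fun J => f J - g J) J = F1_bd X f J - F1_bd X g J := by
  unfold F1_bd
  rw [← Finset.sum_sub_distrib]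
  refine Finset.sum_congr rfl fun j _ => ?_
  rw [map_sub, smul_sub]

private theorem F1_mem {m : ℕ} {f : ∀ J : Finset (Fin n), X.R J} (hf : ∀ J, J.card ≠ m + 1 → f J = 0) :
    F1_Fz X f ∈ X.Tt m := by
  have h0 : ∀ J : Finset (Fin n), J.card ≠ m + 1 → F1_Fz X f J = 0 := fun J hJ => by
    show fz κ (f J) = 0
    rw [hf J hJ, map_zero]
  refine ⟨h0 ∅ (by rw [Finset.card_empty]; omega), fun J => ⟨fun q hq => ?_, fun h => h0 J (by omega)⟩⟩
  by_cases hJ : J.card = m + 1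
  · obtain rfl : q = 0 := by omega
    exact fz_mem (f J)
  · rw [h0 J hJ]
    exact Submodule.zero_mem _

/-- A family of functions with the function part of the cochain. -/
private theorem F1_part {m : ℕ} {c : X.Ch} (hc : c ∈ X.Tt m) : ∃ f : ∀ J : Finset (Fin n), X.R J,
    (∀ J, J.card ≠ m + 1 → f J = 0) ∧ ∀ J, J.card = m + 1 → c J = fz κ (f J) := by
  classical
  have h1 : ∀ J : Finset (Fin n), ∃ r : X.R J, (J.card ≠ m + 1 → r = 0) ∧ (J.card = m + 1 → c J = fz κ r) := by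
    intro J
    by_cases hJ : J.card = m + 1
    · obtain ⟨r, hr⟩ := F1_zero ((hc.2 J).1 0 (by omega))
      exact ⟨r, fun h => absurd hJ h, fun _ => hr.symm⟩
    · exact ⟨0, fun _ => rfl, fun h => absurd h hJ⟩
  choose f hf1 hf2 using h1
  exact ⟨f, hf1, hf2⟩

/-- The function part of a total differential. -/
private theorem F1_Dt {m : ℕ} {c : X.Ch} (hc : c ∈ X.Tt m) {f : ∀ J : Finset (Fin n), X.R J}
    (hf2 : ∀ J, J.card = m + 1 → c J = fz κ (f J)) {J : Finset (Fin n)} (hJ : J.card = m + 2) :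
    X.Dt c J = fz κ (F1_bd X f J) := by
  rw [CovD.Dt_apply, Pi.add_apply, CovD.dc_apply, (hc.2 J).2 (by omega), map_zero, zero_add, ← F1_del,
    CovD.del_apply, CovD.del_apply]
  refine Finset.sum_congr rfl fun j hj => ?_
  have h2 : (J.erase j).card = m + 1 := by
    rw [Finset.card_erase_of_mem hj, hJ]
    rfl
  rw [CovD.ev_of (Finset.erase_subset j J), CovD.ev_of (Finset.erase_subset j J), CovD.ic_apply, hf2 _ h2,
    inv_fz]
  rfl

private theorem F1_pow {p : ℕ} [hp : Fact p.Prime] [CharP κ p] (f : ∀ J : Finset (Fin n), X.R J)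
    (J : Finset (Fin n)) : F1_bd X (fun J => f J ^ p) J = F1_bd X f J ^ p := by
  let F : X.R J →+ X.R J := { toFun := fun r => r ^ p
                              map_zero' := zero_pow hp.out.ne_zero
                              map_add' := F1_add_pow κ p }
  have hF : ∀ r, F r = r ^ p := fun _ => rfl
  have h2 : F1_bd X f J ^ p = F (∑ j ∈ J, sg j J • X.ρ (Finset.erase_subset j J) (f (J.erase j))) := rfl
  rw [h2, map_sum, F1_bd]
  refine Finset.sum_congr rfl fun j _ => ?_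
  rw [map_zsmul, hF, map_pow]

private theorem F1_sub_pow {p : ℕ} [hp : Fact p.Prime] [CharP κ p] {J : Finset (Fin n)} (r s : X.R J) :
    (r - s) ^ p = r ^ p - s ^ p := by
  let F : X.R J →+ X.R J := { toFun := fun r => r ^ p
                              map_zero' := zero_pow hp.out.ne_zero
                              map_add' := F1_add_pow κ p }
  exact map_sub F r s

/-- The class of the `p`-th powers. -/
private theorem F1_cocycle {p : ℕ} [hp : Fact p.Prime] [CharP κ p] {m : ℕ} {f : ∀ J : Finset (Fin n), X.R J}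
    (hf : ∀ J, J.card ≠ m + 1 → f J = 0) (hb : ∀ J, F1_bd X f J = 0) :
    F1_Fz X (fun J => f J ^ p) ∈ X.Zc m ∧ F1_Fz X (fun J => f J ^ p) ∈ X.Ni 0 m := by
  have hf' : ∀ J, J.card ≠ m + 1 → f J ^ p = 0 := fun J hJ => by rw [hf J hJ, zero_pow hp.out.ne_zero]
  have h1 : F1_Fz X (fun J => f J ^ p) ∈ X.Tt m := F1_mem hf'
  have hdd : ∀ J, dd κ (F1_Fz X (fun J => f J ^ p) J) = 0 := fun J => F1_dd_pow κ p (f J)
  refine ⟨⟨h1, ?_⟩, h1, fun J => ⟨fun hJ => ?_, fun _ => hdd J⟩⟩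
  · show X.Dt _ = 0
    rw [CovD.Dt_apply, F1_ic]
    funext J
    rw [Pi.add_apply, CovD.dc_apply, hdd, F1_del, F1_pow, hb, zero_pow hp.out.ne_zero, map_zero, add_zero]
    rfl
  · show fz κ (f J ^ p) = 0
    rw [hf' J (by omega), map_zero]

end

/-- LEAF F1: if Frobenius is injective on `H^2(X, O)` then `P_0` is a complement of `F^1` in `H^2`. -/
theorem con_sup_fil {κ : Type u} [Field κ] [Finite κ] {p : ℕ} [Fact p.Prime] [CharP κ p] {n : ℕ}
    (X : CovD.{u, v} κ n) (hfin : FiniteDimensional κ (X.HdR 2)) (hF : (cov X).FrobeniusInjective p 2) :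
    X.Con 2 0 ⊔ X.Fil 2 1 = ⊤ := by
  classical
  have hp : p.Prime := Fact.out
  -- the function part of a cocycle
  have hpart : ∀ c : ↥(X.Zc 2), ∃ f : ∀ J : Finset (Fin n), X.R J, (∀ J, J.card ≠ 2 + 1 → f J = 0) ∧
      (∀ J, J.card = 2 + 1 → (c : X.Ch) J = fz κ (f J)) ∧ ∀ J, F1_bd X f J = 0 := by
    intro c
    obtain ⟨f, h1, h2⟩ := F1_part c.2.1
    refine ⟨f, h1, h2, fun J => ?_⟩
    by_cases hJ : J.card = 2 + 2
    · have h3 := F1_Dt c.2.1 h2 hJ
      have h4 : X.Dt (c : X.Ch) = 0 := c.2.2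
      rw [h4, Pi.zero_apply, ← map_zero (fz κ)] at h3
      exact (F1_inj h3).symm
    · exact F1_bd_zero h1 hJ
  choose f hf1 hf2 hf3 using hpart
  let Ψ : ↥(X.Zc 2) → ↥(X.Zc 2) := fun c => ⟨F1_Fz X (fun J => f c J ^ p), (F1_cocycle (hf1 c) (hf3 c)).1⟩
  have hΨ : ∀ c, X.cl 2 (Ψ c) ∈ X.Con 2 0 := fun c =>
    ⟨Ψ c, (F1_cocycle (hf1 c) (hf3 c)).2, rfl⟩
  -- injectivity
  have hinj : ∀ c c' : ↥(X.Zc 2), X.cl 2 (Ψ c) - X.cl 2 (Ψ c') ∈ X.Fil 2 1 → X.cl 2 c - X.cl 2 c' ∈ X.Fil 2 1 := by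
    intro c c' h
    obtain ⟨z, hz, hz'⟩ := h
    have hz1 : (z : X.Ch) ∈ X.Fi 1 2 := hz
    have h1 : X.cl 2 (Ψ c - Ψ c' - z) = 0 := by
      rw [map_sub, map_sub, hz', sub_self]
    have h2 : Ψ c - Ψ c' - z ∈ (X.Bc 2).submoduleOf (X.Zc 2) := (Submodule.Quotient.mk_eq_zero _).1 h1
    obtain ⟨b, hb, hb'⟩ := h2
    obtain ⟨g, hg1, hg2⟩ := F1_part (m := 1) hb
    have hg3 : ∀ J, F1_bd X g J = (f c J - f c' J) ^ p := by
      intro J
      by_cases hJ : J.card = 1 + 2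
      · have h3 := F1_Dt (m := 1) hb hg2 hJ
        have h4 : ((Ψ c - Ψ c' - z : ↥(X.Zc 2)) : X.Ch) J = fz κ ((f c J - f c' J) ^ p) := by
          have h5 : ((Ψ c - Ψ c' - z : ↥(X.Zc 2)) : X.Ch) J =
              fz κ (f c J ^ p) - fz κ (f c' J ^ p) - (z : X.Ch) J := rfl
          rw [h5, hz1.2 J (by omega), sub_zero, F1_sub_pow, map_sub]
        rw [hb'] at h3
        exact (F1_inj (h4.symm.trans h3)).symm
      · rw [F1_bd_zero (m := 2) (fun J hJ => hg1 J hJ) hJ, hf1 c J hJ, hf1 c' J hJ, sub_zero,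
          zero_pow hp.ne_zero]
    obtain ⟨e, he1, he2⟩ := hF (fun J => f c J - f c' J)
      (fun J hJ => by
        have h3 : f c J - f c' J = 0 := by rw [hf1 c J hJ, hf1 c' J hJ, sub_zero]
        exact h3)
      (fun J => by
        have h3 := F1_bd_sub (f c) (f c') J
        rw [hf3 c J, hf3 c' J, sub_zero] at h3
        exact h3)
      ⟨g, fun J hJ => hg1 J hJ, hg3⟩
    have he3 : F1_Fz X e ∈ X.Tt 1 := F1_mem (m := 1) he1
    have hD : X.Dt (F1_Fz X e) ∈ X.Tt 2 := by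
      rw [CovD.Dt_apply]
      exact Submodule.add_mem _ (CovD.dc_mem he3) (CovD.del_mem (CovD.ic_mem he3))
    have hD0 : X.Dt (X.Dt (F1_Fz X e)) = 0 := CovD.Dt_Dt _
    let y : ↥(X.Zc 2) := ⟨X.Dt (F1_Fz X e), hD, hD0⟩
    have hy : X.cl 2 y = 0 := by
      refine (Submodule.Quotient.mk_eq_zero _).2 ?_
      exact ⟨F1_Fz X e, he3, rfl⟩
    refine ⟨c - c' - y, ?_, by rw [map_sub, map_sub, hy, sub_zero]⟩
    show ((c - c' - y : ↥(X.Zc 2)) : X.Ch) ∈ X.Fi 1 2
    refine ⟨(c - c' - y).2.1, fun J hJ => ?_⟩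
    by_cases hJ3 : J.card = 2 + 1
    · have h5 : ((c - c' - y : ↥(X.Zc 2)) : X.Ch) J = (c : X.Ch) J - (c' : X.Ch) J - X.Dt (F1_Fz X e) J := rfl
      have h6 : X.Dt (F1_Fz X e) J = fz κ (F1_bd X e J) :=
        F1_Dt (m := 1) he3 (fun J _ => rfl) hJ3
      have h7 : F1_bd X e J = f c J - f c' J := he2 J
      rw [h5, h6, h7, hf2 c J hJ3, hf2 c' J hJ3, map_sub, sub_self]
    · exact ((c - c' - y).2.1.2 J).2 (by omega)
  -- finiteness
  have hfinite : Finite (X.HdR 2) := Module.finite_of_finite κ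
  let W := X.HdR 2 ⧸ X.Fil 2 1
  have hW : Finite W := Quotient.finite _
  have hsurj : ∀ w : W, ∃ c : ↥(X.Zc 2), (X.Fil 2 1).mkQ (X.cl 2 c) = w := by
    intro w
    obtain ⟨x, rfl⟩ := (X.Fil 2 1).mkQ_surjective w
    obtain ⟨c, rfl⟩ := ((X.Bc 2).submoduleOf (X.Zc 2)).mkQ_surjective x
    exact ⟨c, rfl⟩
  choose s hs using hsurj
  let Φ : W → W := fun w => (X.Fil 2 1).mkQ (X.cl 2 (Ψ (s w)))
  have hΦ : Function.Injective Φ := by
    intro w w' h
    have h1 : X.cl 2 (Ψ (s w)) - X.cl 2 (Ψ (s w')) ∈ X.Fil 2 1 := (Submodule.Quotient.eq _).1 h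
    have h2 := hinj _ _ h1
    rw [← hs w, ← hs w']
    exact (Submodule.Quotient.eq _).2 h2
  have hΦs : Function.Surjective Φ := Finite.injective_iff_surjective.1 hΦ
  rw [eq_top_iff]
  intro x _
  obtain ⟨w, hw⟩ := hΦs ((X.Fil 2 1).mkQ x)
  have h1 : x - X.cl 2 (Ψ (s w)) ∈ X.Fil 2 1 := (Submodule.Quotient.eq _).1 hw.symm
  have h2 : x = X.cl 2 (Ψ (s w)) + (x - X.cl 2 (Ψ (s w))) := by abel
  rw [h2]
  exact Submodule.add_mem_sup (hΨ _) h1

end MPadcHK
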