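import Pool.Agent.Lib.MP_adc574_ag_GP.R3Ext

/-!
# Symplectic type: extension of the base field
-/

set_option autoImplicit false
set_option linter.unusedSectionVars false

namespace MPadcHK

open MvPolynomial MPadcGP

universe u

/-- LEAF F2. -/
theorem con_sup_fil_ext {κ κ' : Type u} [Field κ] [Field κ'] {n : ℕ} {I : Ideal (MvPolynomial (Fin n) κ)}
    (hI : IsHomog I) (ψ : κ →+* κ') (h : (prC I).Con 2 0 ⊔ (prC I).Fil 2 1 = ⊤) :
    (prC (bI ψ I)).Con 2 0 ⊔ (prC (bI ψ I)).Fil 2 1 = ⊤ := by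
  obtain ⟨r, z, lev, h0, h1⟩ := r3e_ad hI ψ
  have h0' := r3e_isAd h0
  have h1' := r3e_isAd h1
  set F := prH ψ I with hF
  -- the images of the basis
  have hz : ∀ b, (prC (bI ψ I)).cl 2 ⟨F.push (z 2 b), h1'.mem_Zc 2 b⟩ ∈
      (prC (bI ψ I)).Con 2 0 ⊔ (prC (bI ψ I)).Fil 2 1 := by
    intro b
    have h2 : (prC I).cl 2 ⟨z 2 b, h0'.mem_Zc 2 b⟩ ∈
        (prC I).Con 2 0 ⊔ (prC I).Fil 2 1 := by
      rw [h]
      exact Submodule.mem_top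
    obtain ⟨y, hy, y', hy', hyy⟩ := Submodule.mem_sup.1 h2
    obtain ⟨c, hc, hcy⟩ := CovD.mem_Con.1 hy
    obtain ⟨c', hc', hcy'⟩ := CovD.mem_Fil.1 hy'
    have h3 : z 2 b - ((c : (prC I).Ch) + c') ∈ (prC I).Bc 2 := by
      have h4 : (prC I).cl 2 ⟨z 2 b, h0'.mem_Zc 2 b⟩ = (prC I).cl 2 (c + c') := by
        rw [map_add, hcy, hcy', hyy]
      exact CovD.cl_eq.1 h4
    have h5 := r3e_push_Bc F h3
    rw [map_sub, map_add] at h5
    have h6 : (prC (bI ψ I)).cl 2 ⟨F.push (z 2 b), h1'.mem_Zc 2 b⟩ =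
        (prC (bI ψ I)).cl 2 ⟨F.push c, r3e_push_Zc F c.2⟩ +
          (prC (bI ψ I)).cl 2 ⟨F.push c', r3e_push_Zc F c'.2⟩ := by
      rw [← map_add, CovD.cl_eq]
      exact h5
    rw [h6]
    exact Submodule.add_mem_sup (CovD.mem_Con.2 ⟨_, F.push_mem_Ni hc, rfl⟩)
      (CovD.mem_Fil.2 ⟨_, F.push_mem_Fi hc', rfl⟩)
  rw [eq_top_iff]
  intro x _
  obtain ⟨g, rfl⟩ := h1'.crd_surjective 2 x
  rw [IsAd.crd, Fintype.linearCombination_apply]
  exact Submodule.sum_mem _ fun b _ => Submodule.smul_mem _ _ (hz b)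

end MPadcHK
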