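import Pool.Agent.Lib.MP_adc574_ag_HK.Def
import Pool.Agent.Lib.MP_adc574_ag_GP.BrC
import Pool.Agent.Lib.MP_adc574_ag_GP.CarFin
import Pool.Agent.Lib.MP_adc574_ag_GP.FinL

/-!
# Symplectic type: ordinary reduction and Frobenius
-/

set_option autoImplicit false
set_option linter.unusedSectionVars false

namespace MPadcHK

open MvPolynomial OrdRed MPadcGP

universe u

private theorem F4_fz_inj {A R : Type u} [CommRing A] [CommRing R] [Algebra A R] {r s : R}
    (h : fz A r = fz A s) : r = s :=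
  (ExteriorAlgebra.algebraMap_leftInverse (R := R) (Ω[R⁄A])).injective h

private theorem F4_fd_zero {A R : Type u} [CommRing A] [CommRing R] [Algebra A R] {e : Fm A R}
    (he : e ∈ Fd A R 0) : ∃ r : R, e = fz A r := by
  refine fd_ind (P := fun e => ∃ r : R, e = fz A r) ?_ ?_ ?_ he
  · exact ⟨0, (map_zero _).symm⟩
  · intro r t
    exact ⟨r, by rw [wd_zero, mul_one]⟩
  · rintro a b ⟨r, rfl⟩ ⟨s, rfl⟩
    exact ⟨r + s, (map_add _ _ _).symm⟩

section alg

variable {κ : Type u} [Field κ] {p : ℕ} [hp : Fact p.Prime] [CharP κ p] {R : Type u} [CommRing R] [Algebra κ R]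

private theorem F4_red (h : CarP p (fun _ : Unit => (1 : κ)) R) {r : R} (hr : r ^ p = 0) : r = 0 := by
  have h1 := h.inj (fun _ => fz κ r) (fun _ => fz κ (r ^ p)) (fun _ => Rep.fz r)
    ⟨0, by rw [hr, map_zero, map_zero]; exact (Finset.sum_eq_zero fun _ _ => smul_zero _).symm⟩ ()
  exact F4_fz_inj (h1.trans (map_zero _).symm)

private theorem F4_closed (h : CarP p (fun _ : Unit => (1 : κ)) R) {r : R} (hr : dd κ (fz κ r) = 0) :
    ∃ s : R, r = s ^ p := by
  obtain ⟨x, z, hx, hz, hxz, hex⟩ := h.surj 0 (fz κ r) (fz_mem r) hr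
  rw [Finset.univ_unique, Finset.sum_singleton, one_smul] at hex
  have h1 : fz κ r = z default := sub_eq_zero.1 (mem_exq_zero.1 hex)
  obtain ⟨s, hs⟩ := F4_fd_zero (hx default)
  have h2 := hxz default
  rw [hs] at h2
  have h3 := mem_exq_zero.1 (mem_exq_of_exact (Submodule.sub_mem _ (hz default) (fz_mem (s ^ p)))
    (h2.exact_sub (Rep.fz s)))
  exact ⟨s, F4_fz_inj (h1.trans (sub_eq_zero.1 h3))⟩

end alg

section cov

variable {κ : Type u} [Field κ] {n : ℕ} (X : CovD.{u, u} κ n)

/-- The Čech differential of a family of functions. -/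
private noncomputable def F4bd (f : ∀ J : Finset (Fin n), X.R J) (J : Finset (Fin n)) : X.R J :=
  ∑ j ∈ J, sg j J • X.ρ (Finset.erase_subset j J) (f (J.erase j))

variable {X}

private theorem F4_boundary (f : ∀ J : Finset (Fin n), X.R J) (J : Finset (Fin n)) :
    (cov X).boundary f J = F4bd X f J := rfl

private theorem F4_fz_bd (f : ∀ J : Finset (Fin n), X.R J) (J : Finset (Fin n)) :
    fz κ (F4bd X f J) = X.del (fun K => fz κ (f K)) J := by
  rw [CovD.del_apply, F4bd, map_sum]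
  refine Finset.sum_congr rfl fun j _ => ?_
  rw [map_zsmul, CovD.ev_of (Finset.erase_subset j J), CovD.rs_fz]

private theorem F4_bd_bd (e : ∀ J : Finset (Fin n), X.R J) (J : Finset (Fin n)) :
    F4bd X (F4bd X e) J = 0 := by
  have h1 : (fun K => fz κ (F4bd X e K)) = X.del (fun K => fz κ (e K)) := funext fun K => F4_fz_bd e K
  have h2 : fz κ (F4bd X (F4bd X e) J) = 0 := by
    rw [F4_fz_bd, h1, CovD.del_del]
    rfl
  exact F4_fz_inj (h2.trans (map_zero _).symm)

private theorem F4_bd_sub (f g : ∀ J : Finset (Fin n), X.R J) (J : Finset (Fin n)) :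
    F4bd X (fun K => f K - g K) J = F4bd X f J - F4bd X g J := by
  unfold F4bd
  rw [← Finset.sum_sub_distrib]
  refine Finset.sum_congr rfl fun j _ => ?_
  rw [map_sub, smul_sub]

variable {p : ℕ} [hp : Fact p.Prime] [CharP κ p]

private theorem F4_neg_pow {R : Type u} [CommRing R] [Algebra κ R] (r : R) : (-r) ^ p = -(r ^ p) := by
  have h1 : (-r + r) ^ p = (-r) ^ p + r ^ p := add_pow_p p κ R (-r) r
  rw [neg_add_cancel, zero_pow hp.out.ne_zero] at h1
  exact eq_neg_of_add_eq_zero_left h1.symm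

private theorem F4_sub_pow {R : Type u} [CommRing R] [Algebra κ R] (r s : R) :
    (r - s) ^ p = r ^ p - s ^ p := by
  rw [sub_eq_add_neg, add_pow_p p κ R, F4_neg_pow (κ := κ), ← sub_eq_add_neg]

private theorem F4_bd_pow (r : ∀ J : Finset (Fin n), X.R J) (J : Finset (Fin n)) :
    F4bd X r J ^ p = F4bd X (fun K => r K ^ p) J := by
  have h1 : ∀ (s : Finset (Fin n)) (g : Fin n → X.R J), (∑ j ∈ s, g j) ^ p = ∑ j ∈ s, g j ^ p := by
    intro s g
    induction s using Finset.induction_on with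
    | empty => rw [Finset.sum_empty, Finset.sum_empty, zero_pow hp.out.ne_zero]
    | insert a s ha ih => rw [Finset.sum_insert ha, Finset.sum_insert ha, add_pow_p p κ, ih]
  unfold F4bd
  rw [h1]
  refine Finset.sum_congr rfl fun j _ => ?_
  rw [map_pow]
  unfold sg
  rcases neg_one_pow_eq_or ℤ (J.filter (· < j)).card with h2 | h2
  · rw [h2, one_smul, one_smul]
  · rw [h2, neg_smul, neg_smul, one_smul, one_smul, F4_neg_pow (κ := κ)]

private theorem F4_key (hc : ∀ J : Finset (Fin n), J.Nonempty → CarP p (fun _ : Unit => (1 : κ)) (X.R J))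
    (h : X.IsBlochKatoOrdinary) (f g : ∀ J : Finset (Fin n), X.R J)
    (hf : ∀ J : Finset (Fin n), J.card ≠ 2 + 1 → f J = 0) (hg : ∀ J : Finset (Fin n), J.card ≠ 2 → g J = 0)
    (hgf : ∀ J : Finset (Fin n), F4bd X g J = f J ^ p) :
    ∃ r : ∀ J : Finset (Fin n), X.R J, (∀ J : Finset (Fin n), J.card ≠ 2 → r J = 0) ∧
      ∀ J : Finset (Fin n), F4bd X r J = f J := by
  -- the forms `d g`
  have h1 : X.exCoc 0 1 (fun J => dd κ (fz κ (g J))) := by
    refine ⟨?_, fun J => ⟨Submodule.mem_map.2 ⟨fz κ (g J), fz_mem _, rfl⟩, fun hJ => ?_⟩⟩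
    · change dd κ (fz κ (g ∅)) = 0
      rw [hg ∅ (by rw [Finset.card_empty]; omega), map_zero, map_zero]
    · change dd κ (fz κ (g J)) = 0
      rw [hg J hJ, map_zero, map_zero]
  have h2 : X.del (fun J => dd κ (fz κ (g J))) = 0 := by
    have h3 : X.del (X.dc (fun J => fz κ (g J))) = 0 := by
      rw [CovD.del_dc]
      funext J
      rw [CovD.dc_apply, ← F4_fz_bd, hgf, dd_fz_pow p κ]
      rfl
    exact h3
  obtain ⟨b, hb, -, hbd⟩ := h 0 1 _ h1 h2
  have h4 : ∀ J : Finset (Fin n), ∃ e : X.R J, b J = dd κ (fz κ e) ∧ (J.card ≠ 1 → e = 0) := by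
    intro J
    by_cases hJ : J.card = 1
    · obtain ⟨w, hw, hwb⟩ := Submodule.mem_map.1 (hb J).1
      obtain ⟨e, he⟩ := F4_fd_zero (e := w) hw
      refine ⟨e, ?_, fun h5 => absurd hJ h5⟩
      rw [← he]
      exact hwb.symm
    · exact ⟨0, by rw [(hb J).2 hJ, map_zero, map_zero], fun _ => rfl⟩
  choose e he he0 using h4
  have h5 : ∀ J : Finset (Fin n), J.card ≠ 2 → F4bd X e J = 0 := by
    intro J hJ
    refine Finset.sum_eq_zero fun j hj => ?_
    rw [he0 (J.erase j) (by have := Finset.card_erase_add_one hj; omega), map_zero, smul_zero]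
  have h6 : ∀ J : Finset (Fin n), ∃ r : X.R J, g J - F4bd X e J = r ^ p ∧ (J.card ≠ 2 → r = 0) := by
    intro J
    by_cases hJ : J.card = 2
    · have h7 : dd κ (fz κ (g J - F4bd X e J)) = 0 := by
        have h8 : X.del b J = dd κ (fz κ (g J)) := by rw [hbd]
        have h9 : b = X.dc (fun K => fz κ (e K)) := funext fun K => he K
        rw [h9, CovD.del_dc, CovD.dc_apply, ← F4_fz_bd] at h8
        rw [map_sub, map_sub, h8, sub_self]
      obtain ⟨s, hs⟩ := F4_closed (hc J (Finset.card_pos.1 (by omega))) h7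
      exact ⟨s, hs, fun h10 => absurd hJ h10⟩
    · exact ⟨0, by rw [hg J hJ, h5 J hJ, sub_zero, zero_pow hp.out.ne_zero], fun _ => rfl⟩
  choose r hr hr0 using h6
  refine ⟨r, hr0, fun J => ?_⟩
  rcases J.eq_empty_or_nonempty with rfl | hJ
  · rw [hf ∅ (by rw [Finset.card_empty]; omega)]
    exact Finset.sum_empty
  · have h10 : F4bd X r J ^ p = f J ^ p := by
      have h11 : (fun K => r K ^ p) = fun K => g K - F4bd X e K := funext fun K => (hr K).symm
      rw [F4_bd_pow, h11, F4_bd_sub, F4_bd_bd, sub_zero, hgf]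
    refine sub_eq_zero.1 (F4_red (hc J hJ) ?_)
    rw [F4_sub_pow (κ := κ), h10, sub_self]

private theorem F4_main (hc : ∀ J : Finset (Fin n), J.Nonempty → CarP p (fun _ : Unit => (1 : κ)) (X.R J))
    (h : X.IsBlochKatoOrdinary) : (cov X).FrobeniusInjective p 2 := by
  rintro f hf - ⟨g, hg, hgf⟩
  exact F4_key hc h f g hf hg hgf

end cov

/-- LEAF F4: Frobenius is injective on `H^2(X, O)` if `X` is ordinary in the sense of Bloch and Kato. -/
theorem frobenius_of_bk {κ : Type u} [Field κ] [Finite κ] {p : ℕ} [Fact p.Prime] [CharP κ p] {n : ℕ}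
    {I : Ideal (MvPolynomial (Fin n) κ)} (hI : IsHomog I) (hs : IsSmoothProj I)
    (h : (prC I).IsBlochKatoOrdinary) : (cov (prC I)).FrobeniusInjective p 2 := by
  refine F4_main (fun J hJ => ?_) h
  have : Algebra.Smooth κ ((prC I).R J) := IsSmoothProj.smooth hI hs hJ
  exact carP_of_smooth pbas_finite

end MPadcHK
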