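import Mathlib

/-!
# Symplectic type: dimensions of images in graded pieces
-/

set_option autoImplicit false

namespace MPadcHK

universe u v

/-- The dimension of the image of `P ⊓ F` in `F / F'`. -/
noncomputable def gd {E : Type u} [Field E] {V : Type v} [AddCommGroup V] [Module E V] (P F F' : Submodule E V) : ℕ :=
  Module.finrank E ↥(P ⊓ F) - Module.finrank E ↥(P ⊓ F')

end MPadcHK
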