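import Pool.Agent.Lib.MP_adc574_ag_HK.K0

/-!
# Symplectic type: maps which are injective on the graded pieces
-/

set_option autoImplicit false
set_option linter.unusedSectionVars false

namespace MPadcHK

universe u v w

/-- LEAF K1. -/
theorem gd_le {E : Type u} [Field E] {V : Type v} {V' : Type w} [AddCommGroup V] [Module E V] [AddCommGroup V']
    [Module E V'] [FiniteDimensional E V] [FiniteDimensional E V'] (f : V →ₗ[E] V') {P F F' : Submodule E V}
    {Q G G' : Submodule E V'} (hF : F' ≤ F) (hG : G' ≤ G) (hP : ∀ x ∈ P, f x ∈ Q) (hf : ∀ x ∈ F, f x ∈ G)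
    (hinj : ∀ x ∈ F, f x ∈ G' → x ∈ F') : gd P F F' ≤ gd Q G G' := by
  unfold gd
  have hr : ∀ x ∈ P ⊓ F, f x ∈ Q ⊓ G := fun x hx => ⟨hP x hx.1, hf x hx.2⟩
  have hM : Q ⊓ G' ≤ Q ⊓ G := inf_le_inf_left Q hG
  let K : Submodule E ↥(Q ⊓ G) := (Q ⊓ G').submoduleOf (Q ⊓ G)
  let φ : ↥(P ⊓ F) →ₗ[E] (↥(Q ⊓ G) ⧸ K) := K.mkQ ∘ₗ f.restrict hr
  have h1 : Module.finrank E (LinearMap.range φ) + Module.finrank E (LinearMap.ker φ) =
      Module.finrank E ↥(P ⊓ F) := LinearMap.finrank_range_add_finrank_ker φ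
  have h2 : Module.finrank E (↥(Q ⊓ G) ⧸ K) + Module.finrank E K =
      Module.finrank E ↥(Q ⊓ G) := Submodule.finrank_quotient_add_finrank K
  have h3 : Module.finrank E K = Module.finrank E ↥(Q ⊓ G') :=
    (Submodule.submoduleOfEquivOfLe hM).finrank_eq
  have h4 : Module.finrank E (LinearMap.range φ) ≤ Module.finrank E (↥(Q ⊓ G) ⧸ K) :=
    Submodule.finrank_le _
  have h5 : Module.finrank E (LinearMap.ker φ) ≤ Module.finrank E ↥(P ⊓ F') := by
    rw [← Submodule.finrank_map_subtype_eq (P ⊓ F) (LinearMap.ker φ)]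
    apply Submodule.finrank_mono
    rintro x ⟨y, hy, rfl⟩
    refine ⟨y.2.1, hinj _ y.2.2 ?_⟩
    have h6 : K.mkQ (f.restrict hr y) = 0 := hy
    rw [Submodule.mkQ_apply, Submodule.Quotient.mk_eq_zero] at h6
    exact h6.2
  omega

end MPadcHK
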