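import Pool.Agent.Lib.MP_adc574_ag_HK.K0

/-!
# Symplectic type: pairings of the graded pieces
-/

set_option autoImplicit false
set_option linter.unusedSectionVars false

namespace MPadcHK

universe u v w x

/-- LEAF K2. -/
theorem gd_add_le {E : Type u} [Field E] {V : Type v} {V' : Type w} {T : Type x} [AddCommGroup V] [Module E V]
    [AddCommGroup V'] [Module E V'] [AddCommGroup T] [Module E T] [FiniteDimensional E V] [FiniteDimensional E V']
    (B : V →ₗ[E] V' →ₗ[E] T) (hT : Module.finrank E T = 1) {P F F' : Submodule E V} {Q G G' : Submodule E V'}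
    (hF : F' ≤ F) (hG : G' ≤ G) (h1 : ∀ x ∈ F, ∀ y ∈ G', B x y = 0) (h2 : ∀ x ∈ F', ∀ y ∈ G, B x y = 0)
    (h3 : ∀ x ∈ P, ∀ y ∈ Q, B x y = 0) (h4 : ∀ x ∈ F, (∀ y ∈ G, B x y = 0) → x ∈ F') :
    gd P F F' + gd Q G G' ≤ gd ⊤ G G' := by
  have hTf : FiniteDimensional E T := FiniteDimensional.of_finrank_pos (by rw [hT]; exact one_pos)
  let f : T ≃ₗ[E] E := LinearEquiv.ofFinrankEq T E (by rw [hT, Module.finrank_self])
  let ψ : ↥(P ⊓ F) →ₗ[E] Module.Dual E ↥G :=
    { toFun := fun x => f.toLinearMap ∘ₗ (B x) ∘ₗ G.subtype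
      map_add' := fun x y => by
        ext z
        show f (B ((x : V) + (y : V)) z) = f (B x z) + f (B y z)
        rw [map_add, LinearMap.add_apply, map_add]
      map_smul' := fun a x => by
        ext z
        show f (B (a • (x : V)) z) = a • f (B x z)
        rw [map_smul, LinearMap.smul_apply, map_smul] }
  have hψ : ∀ (x : ↥(P ⊓ F)) (z : ↥G), ψ x z = f (B x z) := fun x z => rfl
  have hSG : G' ⊔ (Q ⊓ G) ≤ G := sup_le hG inf_le_right
  have hker : LinearMap.ker ψ = (P ⊓ F').comap (P ⊓ F).subtype := by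
    ext x
    rw [LinearMap.mem_ker, Submodule.mem_comap]
    constructor
    · intro hx
      refine ⟨x.2.1, h4 x x.2.2 fun y hy => ?_⟩
      have h5 := hψ x ⟨y, hy⟩
      rw [hx, LinearMap.zero_apply] at h5
      exact f.map_eq_zero_iff.1 h5.symm
    · intro hx
      ext z
      rw [hψ, h2 x hx.2 z z.2, map_zero, LinearMap.zero_apply]
  have hkf : Module.finrank E ↥(LinearMap.ker ψ) = Module.finrank E ↥(P ⊓ F') := by
    rw [hker]
    exact (Submodule.comapSubtypeEquivOfLe (inf_le_inf_left P hF)).finrank_eq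
  have hrange : LinearMap.range ψ ≤ ((G' ⊔ (Q ⊓ G)).comap G.subtype).dualAnnihilator := by
    rintro _ ⟨x, rfl⟩
    rw [Submodule.mem_dualAnnihilator]
    intro z hz
    obtain ⟨u, hu, w, hw, huw⟩ := Submodule.mem_sup.1 (Submodule.mem_comap.1 hz)
    rw [hψ]
    show f (B x (z : V')) = 0
    have h5 : (z : V') = u + w := huw.symm
    rw [h5, map_add, h1 x x.2.2 u hu, h3 x x.2.1 w hw.1, add_zero, map_zero]
  have h5 := Submodule.finrank_mono hrange
  have h6 := Subspace.finrank_add_finrank_dualAnnihilator_eq ((G' ⊔ (Q ⊓ G)).comap G.subtype)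
  have h7 : Module.finrank E ↥((G' ⊔ (Q ⊓ G)).comap G.subtype) = Module.finrank E ↥(G' ⊔ (Q ⊓ G)) :=
    (Submodule.comapSubtypeEquivOfLe hSG).finrank_eq
  have h8 := LinearMap.finrank_range_add_finrank_ker ψ
  have h9 := Submodule.finrank_sup_add_finrank_inf_eq G' (Q ⊓ G)
  have h10 : G' ⊓ (Q ⊓ G) = Q ⊓ G' :=
    le_antisymm (le_inf (inf_le_right.trans inf_le_left) inf_le_left)
      (le_inf inf_le_right (le_inf inf_le_left (inf_le_right.trans hG)))
  have h11 : Module.finrank E ↥G' ≤ Module.finrank E ↥(G' ⊔ (Q ⊓ G)) := Submodule.finrank_mono le_sup_left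
  rw [h10] at h9
  unfold gd
  rw [top_inf_eq, top_inf_eq]
  omega

end MPadcHK
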