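import Mathlib

/-!
# Symplectic type: the induction (natural numbers)
-/

set_option autoImplicit false
set_option linter.unusedSectionVars false

namespace MPadcHK

open Finset

/-- The case `p, q ≤ N`: the weighted sum of `h - d i` is at least the one of the step function. -/
theorem K4_case {p h M : ℕ} {d : ℕ → ℕ} (hM : 2 * p ≤ M) (hle : ∀ i, d i ≤ h)
    (hpair : ∀ i, i < p → d i + d (2 * p - 1 - i) ≤ h) :
    (∑ i ∈ range p, ((i : ℤ) + 1) * h ≤ ∑ i ∈ range M, ((i : ℤ) + 1) * ((h : ℤ) - d i)) ∧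
      (∑ i ∈ range M, ((i : ℤ) + 1) * ((h : ℤ) - d i) = ∑ i ∈ range p, ((i : ℤ) + 1) * h →
        (∀ i, i < p → d i = 0) ∧ ∀ i, p ≤ i → i < M → d i = h) := by
  obtain ⟨r, rfl⟩ := Nat.exists_eq_add_of_le hM
  have hle' : ∀ i, (d i : ℤ) ≤ h := fun i => by exact_mod_cast hle i
  have key : ∑ i ∈ range (2 * p + r), ((i : ℤ) + 1) * ((h : ℤ) - d i) - ∑ i ∈ range p, ((i : ℤ) + 1) * h =
      ∑ i ∈ range p, ((2 * (p : ℤ) - i) * ((h : ℤ) - d (2 * p - 1 - i)) - ((i : ℤ) + 1) * d i) +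
        ∑ i ∈ range r, (2 * (p : ℤ) + i + 1) * ((h : ℤ) - d (2 * p + i)) := by
    rw [Finset.sum_range_add, two_mul p, Finset.sum_range_add]
    have h1 : ∑ x ∈ range p, (((p + x : ℕ) : ℤ) + 1) * ((h : ℤ) - d (p + x)) =
        ∑ i ∈ range p, (2 * (p : ℤ) - i) * ((h : ℤ) - d (p + p - 1 - i)) := by
      rw [← Finset.sum_range_reflect]
      refine Finset.sum_congr rfl fun i hi => ?_
      have hi' := Finset.mem_range.1 hi
      have e : p + (p - 1 - i) = p + p - 1 - i := by omega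
      rw [e]
      congr 1
      have e2 : (((p + p - 1 - i : ℕ)) : ℤ) = (p : ℤ) + p - 1 - i := by omega
      rw [e2]
      ring
    rw [h1]
    have h2 : ∑ x ∈ range r, (((p + p + x : ℕ) : ℤ) + 1) * ((h : ℤ) - d (p + p + x)) =
        ∑ i ∈ range r, (2 * (p : ℤ) + i + 1) * ((h : ℤ) - d (p + p + i)) := by
      refine Finset.sum_congr rfl fun i _ => ?_
      push_cast
      ring
    rw [h2, Finset.sum_sub_distrib]
    have h3 : ∑ x ∈ range p, ((x : ℤ) + 1) * ((h : ℤ) - d x) =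
        ∑ i ∈ range p, ((i : ℤ) + 1) * h - ∑ i ∈ range p, ((i : ℤ) + 1) * d i := by
      rw [← Finset.sum_sub_distrib]
      exact Finset.sum_congr rfl fun i _ => by ring
    rw [h3]
    ring
  have hp : ∀ i, i < p → (d i : ℤ) + d (2 * p - 1 - i) ≤ h := fun i hi => by exact_mod_cast hpair i hi
  have ha : ∀ i ∈ range p, (0 : ℤ) ≤ (2 * (p : ℤ) - i) * ((h : ℤ) - d (2 * p - 1 - i)) - ((i : ℤ) + 1) * d i := by
    intro i hi
    have hi' := Finset.mem_range.1 hi
    have h1 := hp i hi'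
    have h2 : (0 : ℤ) ≤ d i := Int.natCast_nonneg _
    have h3 : (i : ℤ) + 1 ≤ p := by omega
    nlinarith [mul_le_mul_of_nonneg_left (show (d i : ℤ) ≤ (h : ℤ) - d (2 * p - 1 - i) by linarith)
      (show (0 : ℤ) ≤ 2 * (p : ℤ) - i by linarith), mul_nonneg (show (0 : ℤ) ≤ 2 * (p : ℤ) - 2 * i - 1 by linarith) h2]
  have hb : ∀ i ∈ range r, (0 : ℤ) ≤ (2 * (p : ℤ) + i + 1) * ((h : ℤ) - d (2 * p + i)) := by
    intro i _
    exact mul_nonneg (by positivity) (by linarith [hle' (2 * p + i)])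
  constructor
  · have := add_nonneg (Finset.sum_nonneg ha) (Finset.sum_nonneg hb)
    rw [← key] at this
    linarith
  · intro heq
    rw [heq, sub_self] at key
    have hA := Finset.sum_nonneg ha
    have hB := Finset.sum_nonneg hb
    have hA0 : ∑ i ∈ range p, ((2 * (p : ℤ) - i) * ((h : ℤ) - d (2 * p - 1 - i)) - ((i : ℤ) + 1) * d i) = 0 := by
      linarith
    have hB0 : ∑ i ∈ range r, (2 * (p : ℤ) + i + 1) * ((h : ℤ) - d (2 * p + i)) = 0 := by linarith
    have hA1 := (Finset.sum_eq_zero_iff_of_nonneg ha).1 hA0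
    have hB1 := (Finset.sum_eq_zero_iff_of_nonneg hb).1 hB0
    have hd0 : ∀ i, i < p → (d i : ℤ) = 0 := by
      intro i hi
      have h0 := hA1 i (Finset.mem_range.2 hi)
      have h1 := hp i hi
      have h2 : (0 : ℤ) ≤ d i := Int.natCast_nonneg _
      have h3 : (i : ℤ) + 1 ≤ p := by omega
      have h4 := mul_le_mul_of_nonneg_left (show (d i : ℤ) ≤ (h : ℤ) - d (2 * p - 1 - i) by linarith)
        (show (0 : ℤ) ≤ 2 * (p : ℤ) - i by linarith)
      have h5 : (2 * (p : ℤ) - 2 * i - 1) * d i ≤ 0 := by nlinarith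
      by_contra hne
      have h6 : (0 : ℤ) < d i := lt_of_le_of_ne h2 (Ne.symm hne)
      have h7 : (0 : ℤ) < (2 * (p : ℤ) - 2 * i - 1) * d i := mul_pos (by linarith) h6
      linarith
    refine ⟨fun i hi => by exact_mod_cast hd0 i hi, fun i h1 h2 => ?_⟩
    rcases Nat.lt_or_ge i (2 * p) with h3 | h3
    · have h4 : 2 * p - 1 - i < p := by omega
      have h5 := hA1 (2 * p - 1 - i) (Finset.mem_range.2 h4)
      rw [hd0 _ h4, mul_zero, sub_zero] at h5
      have h6 : 2 * p - 1 - (2 * p - 1 - i) = i := by omega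
      rw [h6] at h5
      rcases mul_eq_zero.1 h5 with h7 | h7
      · have h8 : (((2 * p - 1 - i : ℕ)) : ℤ) = 2 * (p : ℤ) - 1 - i := by omega
        rw [h8] at h7
        omega
      · have : (h : ℤ) = d i := by linarith
        exact_mod_cast this.symm
    · obtain ⟨j, rfl⟩ := Nat.exists_eq_add_of_le h3
      have h5 := hB1 j (Finset.mem_range.2 (by omega))
      rcases mul_eq_zero.1 h5 with h7 | h7
      · omega
      · have : (h : ℤ) = d (2 * p + j) := by linarith
        exact_mod_cast this.symm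

/-- The step function. -/
theorem K4_step {p h M : ℕ} {d : ℕ → ℕ} (hM : p ≤ M) (h1 : ∀ i, i < p → d i = 0) (h2 : ∀ i, p ≤ i → d i = h) :
    ∑ i ∈ range M, ((i : ℤ) + 1) * ((h : ℤ) - d i) = ∑ i ∈ range p, ((i : ℤ) + 1) * h := by
  obtain ⟨r, rfl⟩ := Nat.exists_eq_add_of_le hM
  rw [Finset.sum_range_add]
  have e1 : ∑ x ∈ range r, (((p + x : ℕ) : ℤ) + 1) * ((h : ℤ) - d (p + x)) = 0 := by
    refine Finset.sum_eq_zero fun i _ => ?_
    rw [h2 (p + i) (Nat.le_add_right p i), sub_self, mul_zero]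
  rw [e1, add_zero]
  refine Finset.sum_congr rfl fun i hi => ?_
  rw [h1 i (Finset.mem_range.1 hi), Nat.cast_zero, sub_zero]

/-- The total. -/
theorem K4_total {m M : ℕ} {d : ℕ → ℕ → ℕ} {h : ℕ → ℕ} (hM : m ≤ M)
    (hT : ∀ i, ∑ p ∈ range (m + 1), d p i = ∑ p ∈ range (m + 1), if p ≤ i then h p else 0) :
    ∑ p ∈ range (m + 1), ∑ i ∈ range M, ((i : ℤ) + 1) * ((h p : ℤ) - d p i) =
      ∑ p ∈ range (m + 1), ∑ i ∈ range p, ((i : ℤ) + 1) * h p := by
  have h1 : ∑ p ∈ range (m + 1), ∑ i ∈ range p, ((i : ℤ) + 1) * h p =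
      ∑ p ∈ range (m + 1), ∑ i ∈ range M, ((i : ℤ) + 1) * ((h p : ℤ) - if p ≤ i then (h p : ℤ) else 0) := by
    refine Finset.sum_congr rfl fun p hp => ?_
    have hp' := Finset.mem_range.1 hp
    have h2 := K4_step (p := p) (h := h p) (M := M) (d := fun i => if p ≤ i then h p else 0) (by omega)
      (fun i hi => if_neg (by omega)) (fun i hi => if_pos hi)
    rw [← h2]
    refine Finset.sum_congr rfl fun i _ => ?_
    congr 2
    split_ifs <;> rfl
  rw [h1, Finset.sum_comm, Finset.sum_comm (s := range (m + 1)) (t := range M)]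
  refine Finset.sum_congr rfl fun i _ => ?_
  rw [← Finset.mul_sum, ← Finset.mul_sum, Finset.sum_sub_distrib, Finset.sum_sub_distrib]
  congr 2
  have h3 := hT i
  have h4 : ((∑ p ∈ range (m + 1), d p i : ℕ) : ℤ) = ((∑ p ∈ range (m + 1), if p ≤ i then h p else 0 : ℕ) : ℤ) := by
    rw [h3]
  rw [Nat.cast_sum, Nat.cast_sum] at h4
  rw [h4]
  refine Finset.sum_congr rfl fun p _ => ?_
  split_ifs <;> rfl

section

variable {N : ℕ} {d : ℕ → ℕ → ℕ → ℕ} {h : ℕ → ℕ → ℕ} (hle : ∀ p q i, d p q i ≤ h p q)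
    (hL : ∀ p q, q ≤ N → (∀ i, d p q i ≤ d p (2 * N - q) i) ∧ h p q ≤ h p (2 * N - q))
    (hS : ∀ p q, p ≤ N → (∀ i, d p q i ≤ d (2 * N - p) q (i + 2 * (N - p))) ∧ h p q ≤ h (2 * N - p) q)
    (hD : ∀ p q, p ≤ 2 * N → q ≤ 2 * N →
      (∀ i, i < 2 * N → d p q i + d (2 * N - p) (2 * N - q) (2 * N - 1 - i) = h p q) ∧
        h p q = h (2 * N - p) (2 * N - q))
    (hT : ∀ m i, ∑ p ∈ range (m + 1), d p (m - p) i = ∑ p ∈ range (m + 1), if p ≤ i then h p (m - p) else 0)

include hle hL hS hD in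
/-- The case `p > N`. -/
theorem K4_A {p q : ℕ} (hpq : p + q ≤ 2 * N) (hp : N < p)
    (ih : (∀ i, i < 2 * N - p → d (2 * N - p) q i = 0) ∧ ∀ i, 2 * N - p ≤ i → d (2 * N - p) q i = h (2 * N - p) q) :
    (∀ i, i < p → d p q i = 0) ∧ ∀ i, p ≤ i → d p q i = h p q := by
  have e1 : 2 * N - (2 * N - p) = p := by omega
  have e2 : 2 * N - (2 * N - q) = q := by omega
  have hD1 := hD p (2 * N - q) (by omega) (by omega)
  rw [e2] at hD1
  have hL1 := hL p q (by omega)
  have hS1 := hS (2 * N - p) q (by omega)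
  rw [e1] at hS1
  have heq : h p q = h (2 * N - p) q := le_antisymm (hL1.2.trans hD1.2.le) hS1.2
  constructor
  · intro i hi
    have h1 := hL1.1 i
    have h2 := hD1.1 i (by omega)
    have h3 := ih.2 (2 * N - 1 - i) (by omega)
    have h4 := hD1.2
    omega
  · intro i hi
    have h1 := hS1.1 (i - 2 * (p - N))
    have h2 := ih.2 (i - 2 * (p - N)) (by omega)
    have e3 : i - 2 * (p - N) + 2 * (N - (2 * N - p)) = i := by omega
    rw [e3, h2, ← heq] at h1
    exact le_antisymm (hle p q i) h1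

include hle hL hS hD in
/-- The case `q > N`. -/
theorem K4_B {p q : ℕ} (hpq : p + q ≤ 2 * N) (hq : N < q)
    (ih : (∀ i, i < p → d p (2 * N - q) i = 0) ∧ ∀ i, p ≤ i → d p (2 * N - q) i = h p (2 * N - q)) :
    (∀ i, i < p → d p q i = 0) ∧ ∀ i, p ≤ i → d p q i = h p q := by
  have e1 : 2 * N - (2 * N - p) = p := by omega
  have e2 : 2 * N - (2 * N - q) = q := by omega
  have hD1 := hD (2 * N - p) q (by omega) (by omega)
  rw [e1] at hD1
  have hL1 := hL p (2 * N - q) (by omega)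
  rw [e2] at hL1
  have hS1 := hS p q (by omega)
  have heq : h p q = h p (2 * N - q) := le_antisymm (hS1.2.trans hD1.2.le) hL1.2
  constructor
  · intro i hi
    have h1 := hS1.1 i
    have h2 := hD1.1 (i + 2 * (N - p)) (by omega)
    have e3 : 2 * N - 1 - (i + 2 * (N - p)) = 2 * p - 1 - i := by omega
    rw [e3] at h2
    have h3 := ih.2 (2 * p - 1 - i) (by omega)
    have h4 := hD1.2
    omega
  · intro i hi
    have h1 := hL1.1 i
    rw [ih.2 i hi, ← heq] at h1
    exact le_antisymm (hle p q i) h1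

include hL hS hD in
/-- The pairs, in the case `p, q ≤ N`. -/
theorem K4_pair {p q : ℕ} (hp : p ≤ N) (hq : q ≤ N) (i : ℕ) (hi : i < p) : d p q i + d p q (2 * p - 1 - i) ≤ h p q := by
  have e2 : 2 * N - (2 * N - q) = q := by omega
  have hD1 := hD p (2 * N - q) (by omega) (by omega)
  rw [e2] at hD1
  have hD2 := hD p q (by omega) (by omega)
  have hL1 := hL p q hq
  have hS1 := hS p q hp
  have hS2 := hS p (2 * N - q) hp
  have heq : h p (2 * N - q) ≤ h p q := hS2.2.trans hD2.2.ge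
  have h1 := hL1.1 i
  have h2 := hD1.1 i (by omega)
  have h3 := hS1.1 (2 * p - 1 - i)
  have e3 : 2 * p - 1 - i + 2 * (N - p) = 2 * N - 1 - i := by omega
  rw [e3] at h3
  omega

include hle hL hS hD hT in
/-- The degrees `m ≤ 2 N`. -/
theorem K4_low (m : ℕ) : m ≤ 2 * N → ∀ p q, p + q = m →
    (∀ i, i < p → d p q i = 0) ∧ ∀ i, p ≤ i → d p q i = h p q := by
  induction m using Nat.strong_induction_on with
  | _ m ih =>
    intro hm
    have hA : ∀ p q, p + q = m → N < p → (∀ i, i < p → d p q i = 0) ∧ ∀ i, p ≤ i → d p q i = h p q := by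
      intro p q hpq hp
      exact K4_A hle hL hS hD (by omega) hp (ih (2 * N - p + q) (by omega) (by omega) _ _ rfl)
    have hB : ∀ p q, p + q = m → N < q → (∀ i, i < p → d p q i = 0) ∧ ∀ i, p ≤ i → d p q i = h p q := by
      intro p q hpq hq
      exact K4_B hle hL hS hD (by omega) hq (ih (p + (2 * N - q)) (by omega) (by omega) _ _ rfl)
    have htot := K4_total (m := m) (M := 2 * m) (d := fun p i => d p (m - p) i) (h := fun p => h p (m - p))
      (by omega) (hT m)
    have hterm : ∀ p ∈ range (m + 1), ∑ i ∈ range p, ((i : ℤ) + 1) * h p (m - p) ≤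
        ∑ i ∈ range (2 * m), ((i : ℤ) + 1) * ((h p (m - p) : ℤ) - d p (m - p) i) := by
      intro p hp
      have hp' := Finset.mem_range.1 hp
      by_cases h1 : N < p
      · obtain ⟨h2, h3⟩ := hA p (m - p) (by omega) h1
        exact (K4_step (by omega) h2 h3).ge
      · by_cases h4 : N < m - p
        · obtain ⟨h2, h3⟩ := hB p (m - p) (by omega) h4
          exact (K4_step (by omega) h2 h3).ge
        · exact (K4_case (by omega) (hle p (m - p)) (K4_pair hL hS hD (by omega) (by omega))).1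
    have heach := (Finset.sum_eq_sum_iff_of_le hterm).1 htot.symm
    intro p q hpq
    by_cases h1 : N < p
    · exact hA p q hpq h1
    · by_cases h4 : N < q
      · exact hB p q hpq h4
      · have hq : m - p = q := by omega
        have h2 := heach p (Finset.mem_range.2 (by omega))
        rw [hq] at h2
        obtain ⟨h5, h6⟩ := (K4_case (M := 2 * m) (by omega) (hle p q) (K4_pair hL hS hD (by omega) (by omega))).2
          h2.symm
        refine ⟨h5, fun i hi => ?_⟩
        by_cases h7 : i < 2 * m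
        · exact h6 i hi h7
        · have h8 : ∀ p ∈ range (m + 1), d p (m - p) i ≤ h p (m - p) := fun p _ => hle p (m - p) i
          have h9 : ∑ p ∈ range (m + 1), d p (m - p) i = ∑ p ∈ range (m + 1), h p (m - p) := by
            rw [hT m i]
            refine Finset.sum_congr rfl fun p hp => ?_
            have hp' := Finset.mem_range.1 hp
            exact if_pos (by omega)
          have h10 := (Finset.sum_eq_sum_iff_of_le h8).1 h9 p (Finset.mem_range.2 (by omega))
          rw [hq] at h10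
          exact h10

end

/-- LEAF K4. -/
theorem comb (N : ℕ) (d : ℕ → ℕ → ℕ → ℕ) (h : ℕ → ℕ → ℕ) (hle : ∀ p q i, d p q i ≤ h p q)
    (hL : ∀ p q, q ≤ N → (∀ i, d p q i ≤ d p (2 * N - q) i) ∧ h p q ≤ h p (2 * N - q))
    (hS : ∀ p q, p ≤ N → (∀ i, d p q i ≤ d (2 * N - p) q (i + 2 * (N - p))) ∧ h p q ≤ h (2 * N - p) q)
    (hD : ∀ p q, p ≤ 2 * N → q ≤ 2 * N →
      (∀ i, i < 2 * N → d p q i + d (2 * N - p) (2 * N - q) (2 * N - 1 - i) = h p q) ∧
        h p q = h (2 * N - p) (2 * N - q))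
    (hT : ∀ m i, ∑ p ∈ range (m + 1), d p (m - p) i = ∑ p ∈ range (m + 1), if p ≤ i then h p (m - p) else 0)
    (p q : ℕ) (hp : p ≤ 2 * N) (hq : q ≤ 2 * N) (i : ℕ) (hi : i < p) : d p q i = 0 := by
  rcases Nat.le_total (p + q) (2 * N) with h1 | h1
  · exact (K4_low hle hL hS hD hT (p + q) h1 p q rfl).1 i hi
  · have h2 := (K4_low hle hL hS hD hT (2 * N - p + (2 * N - q)) (by omega) _ _ rfl).2 (2 * N - 1 - i) (by omega)
    have h3 := (hD p q hp hq).1 i (by omega)
    have h4 := (hD p q hp hq).2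
    omega

end MPadcHK
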