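import Pool.Agent.Lib.MP_adc574_ag_HK.LDefs
import Pool.Agent.Lib.MP_adc574_ag_HK.K1
import Pool.Agent.Lib.MP_adc574_ag_HK.K2
import Pool.Agent.Lib.MP_adc574_ag_HK.K4

/-!
# Symplectic type: the main theorem of linear algebra
-/

set_option autoImplicit false
set_option linter.unusedSectionVars false

namespace MPadcHK

open Finset OrdRed

universe u v

theorem K5_twist (m a : ℕ) : twist m a = m + 2 * a := by
  induction a with
  | zero => rfl
  | succ a ih =>
    change 2 + twist m a = m + 2 * (a + 1)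
    omega

section lin

variable {β : ℕ → Type} [∀ m, Fintype (β m)] {E : Type u} [Field E]
  (mu : ∀ m m', β m → β m' → β (m + m') → E)

/-- The product as a bilinear map. -/
def K5_mlL (m m' : ℕ) : (β m → E) →ₗ[E] (β m' → E) →ₗ[E] (β (m + m') → E) :=
  LinearMap.mk₂ E (fun x y => ml mu m m' x y)
    (fun x x' y => by
      funext c
      change ∑ a, ∑ b, mu m m' a b c * ((x + x') a * y b) =
        ∑ a, ∑ b, mu m m' a b c * (x a * y b) + ∑ a, ∑ b, mu m m' a b c * (x' a * y b)
      simp only [Pi.add_apply, add_mul, mul_add, Finset.sum_add_distrib])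
    (fun r x y => by
      funext c
      change ∑ a, ∑ b, mu m m' a b c * ((r • x) a * y b) = r • ∑ a, ∑ b, mu m m' a b c * (x a * y b)
      simp only [Pi.smul_apply, smul_eq_mul, Finset.mul_sum]
      exact Finset.sum_congr rfl fun a _ => Finset.sum_congr rfl fun b _ => by ring)
    (fun x y y' => by
      funext c
      change ∑ a, ∑ b, mu m m' a b c * (x a * (y + y') b) =
        ∑ a, ∑ b, mu m m' a b c * (x a * y b) + ∑ a, ∑ b, mu m m' a b c * (x a * y' b)
      simp only [Pi.add_apply, mul_add, Finset.sum_add_distrib])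
    (fun r x y => by
      funext c
      change ∑ a, ∑ b, mu m m' a b c * (x a * (r • y) b) = r • ∑ a, ∑ b, mu m m' a b c * (x a * y b)
      simp only [Pi.smul_apply, smul_eq_mul, Finset.mul_sum]
      exact Finset.sum_congr rfl fun a _ => Finset.sum_congr rfl fun b _ => by ring)

theorem K5_mlL_apply (m m' : ℕ) (x : β m → E) (y : β m' → E) : K5_mlL mu m m' x y = ml mu m m' x y := rfl

/-- The multiplication with the power as a linear map. -/
def K5_pwL (s : β 2 → E) (m : ℕ) : (a : ℕ) → (β m → E) →ₗ[E] (β (twist m a) → E)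
  | 0 => LinearMap.id
  | a + 1 => (K5_mlL mu 2 (twist m a) s) ∘ₗ (K5_pwL s m a)

theorem K5_pwL_apply (s : β 2 → E) (m a : ℕ) (x : β m → E) : K5_pwL mu s m a x = pw mu s m x a := by
  induction a with
  | zero => rfl
  | succ a ih =>
    change ml mu 2 (twist m a) s (K5_pwL mu s m a x) = ml mu 2 (twist m a) s (pw mu s m x a)
    rw [ih]

end lin

/-- Telescoping. -/
theorem K5_sum {E : Type u} [Field E] {V : Type v} [AddCommGroup V] [Module E V] [FiniteDimensional E V]
    (F : ℕ → Submodule E V) (hF : Antitone F) (P : Submodule E V) (a r : ℕ) :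
    ∑ p ∈ range r, gd P (F (a + p)) (F (a + p + 1)) + Module.finrank E ↥(P ⊓ F (a + r)) =
      Module.finrank E ↥(P ⊓ F a) := by
  induction r with
  | zero => rw [Finset.sum_range_zero, zero_add, add_zero]
  | succ r ih =>
    rw [Finset.sum_range_succ, ← ih, add_assoc]
    congr 1
    have h1 : Module.finrank E ↥(P ⊓ F (a + r + 1)) ≤ Module.finrank E ↥(P ⊓ F (a + r)) :=
      Submodule.finrank_mono (inf_le_inf_left P (hF (Nat.le_succ _)))
    unfold gd
    have e : a + (r + 1) = a + r + 1 := rfl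
    rw [e]
    omega

/-- Telescoping from `0`. -/
theorem K5_sum0 {E : Type u} [Field E] {V : Type v} [AddCommGroup V] [Module E V] [FiniteDimensional E V]
    (F : ℕ → Submodule E V) (hF : Antitone F) (h0 : F 0 = ⊤) (P : Submodule E V) (r : ℕ) (hr : F r = ⊥) :
    ∑ p ∈ range r, gd P (F p) (F (p + 1)) = Module.finrank E ↥P := by
  have h : ∀ r, ∑ p ∈ range r, gd P (F p) (F (p + 1)) + Module.finrank E ↥(P ⊓ F r) =
      Module.finrank E ↥(P ⊓ F 0) := by
    intro r
    induction r with
    | zero => rw [Finset.sum_range_zero, zero_add]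
    | succ r ih =>
      rw [Finset.sum_range_succ, ← ih, add_assoc]
      congr 1
      have h1 : Module.finrank E ↥(P ⊓ F (r + 1)) ≤ Module.finrank E ↥(P ⊓ F r) :=
        Submodule.finrank_mono (inf_le_inf_left P (hF (Nat.le_succ _)))
      unfold gd
      omega
  have h1 := h r
  rw [hr, inf_bot_eq, finrank_bot, add_zero, h0, inf_top_eq] at h1
  exact h1

section fl

variable {β : ℕ → Type} [∀ m, Fintype (β m)] {E : Type u} [Field E] {lev : ∀ m, β m → ℕ}

theorem K5_anti (m : ℕ) : Antitone (fl E lev m) := by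
  intro i j hij x hx b hb
  exact hx b (lt_of_lt_of_le hb hij)

theorem K5_zero (m : ℕ) : fl E lev m 0 = ⊤ := by
  rw [eq_top_iff]
  intro x _ b hb
  exact absurd hb (Nat.not_lt_zero _)

theorem K5_bot {m i : ℕ} (h : ∀ b, lev m b < i) : fl E lev m i = ⊥ := by
  rw [eq_bot_iff]
  intro x hx
  rw [Submodule.mem_bot]
  funext b
  exact hx b (h b)

/-- The dimension of the Hodge filtration. -/
theorem K5_finrank (m i : ℕ) : Module.finrank E ↥(fl E lev m i) = Fintype.card {b : β m // i ≤ lev m b} := by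
  classical
  let e : ↥(fl E lev m i) ≃ₗ[E] ({b : β m // i ≤ lev m b} → E) :=
    { toFun := fun x b => x.1 b.1
      map_add' := fun x y => rfl
      map_smul' := fun c x => rfl
      invFun := fun y => ⟨fun b => if h : i ≤ lev m b then y ⟨b, h⟩ else 0, fun b hb => dif_neg (not_le.2 hb)⟩
      left_inv := fun x => by
        apply Subtype.ext
        funext b
        change (if h : i ≤ lev m b then x.1 b else 0) = x.1 b
        split_ifs with h
        · rfl
        · exact (x.2 b (not_le.1 h)).symm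
      right_inv := fun y => by
        funext b
        exact dif_pos b.2 }
  rw [e.finrank_eq, Module.finrank_fintype_fun_eq_card]

/-- The dimension of the graded piece. -/
theorem K5_gr (m p : ℕ) : gd (⊤ : Submodule E (β m → E)) (fl E lev m p) (fl E lev m (p + 1)) =
    Fintype.card {b : β m // lev m b = p} := by
  classical
  unfold gd
  rw [top_inf_eq, top_inf_eq, K5_finrank, K5_finrank]
  have h1 : Fintype.card {b : β m // p ≤ lev m b} =
      Fintype.card {b : β m // lev m b = p} + Fintype.card {b : β m // p + 1 ≤ lev m b} := by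
    rw [Fintype.card_subtype, Fintype.card_subtype, Fintype.card_subtype, ← Finset.card_union_of_disjoint]
    · congr 1
      ext b
      simp only [Finset.mem_filter, Finset.mem_univ, true_and, Finset.mem_union]
      omega
    · rw [Finset.disjoint_left]
      intro b h1 h2
      simp only [Finset.mem_filter, Finset.mem_univ, true_and] at h1 h2
      omega
  omega

/-- The sum of the dimensions of the graded pieces. -/
theorem K5_card (m i r : ℕ) (hr : ∀ b, lev m b < r) :
    ∑ p ∈ range r, (if p ≤ i then gd (⊤ : Submodule E (β m → E)) (fl E lev m p) (fl E lev m (p + 1)) else 0) =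
      Fintype.card {b : β m // lev m b ≤ i} := by
  classical
  have h1 : Fintype.card {b : β m // lev m b ≤ i} =
      ∑ p ∈ range r, ((Finset.univ.filter fun b : β m => lev m b ≤ i).filter fun b => lev m b = p).card := by
    rw [Fintype.card_subtype]
    exact Finset.card_eq_sum_card_fiberwise fun b _ => Finset.mem_coe.2 (Finset.mem_range.2 (hr b))
  rw [h1]
  refine Finset.sum_congr rfl fun p _ => ?_
  rw [K5_gr, Fintype.card_subtype]
  split_ifs with h2
  · congr 1
    ext b
    simp only [Finset.mem_filter, Finset.mem_univ, true_and]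
    omega
  · rw [eq_comm, Finset.card_eq_zero]
    ext b
    simp only [Finset.mem_filter, Finset.mem_univ, true_and, Finset.notMem_empty, iff_false]
    omega

end fl

section core

variable {β : ℕ → Type} [∀ m, Fintype (β m)] {E : Type u} [Field E] {lev : ∀ m, β m → ℕ}
    {mu : ∀ m m', β m → β m' → β (m + m') → E} {N : ℕ} {s t : β 2 → E} (hS : Symp lev mu N s t)
    {P : ∀ m, ℕ → Submodule E (β m → E)} (hP : Conj lev mu P) {l : β 2 → E} (hl : l ∈ P 2 0)
    (hlt : l - t ∈ fl E lev 2 1)

include hS in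
theorem K5_fl_bot {m i : ℕ} (hi : m < i) : fl E lev m i = ⊥ :=
  K5_bot fun b => lt_of_le_of_lt (hS.le m b) hi

include hS in
theorem K5_top_bot {m : ℕ} (hm : m = 4 * N) : fl E lev m (2 * N + 1) = ⊥ := by
  subst hm
  exact K5_bot fun b => by rw [hS.levtop b]; exact Nat.lt_succ_self _

include hS in
theorem K5_finrank_top {m : ℕ} (hm : m = 4 * N) : Module.finrank E (β m → E) = 1 := by
  subst hm
  rw [Module.finrank_fintype_fun_eq_card]
  exact hS.card

include hP in
theorem K5_P_bot {m j : ℕ} (hm : m = 4 * N) (hj : j < 2 * N) (hS : Symp lev mu N s t) : P m j = ⊥ := by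
  subst hm
  rw [← Submodule.finrank_eq_zero, hP.dim, Fintype.card_eq_zero_iff]
  refine ⟨fun b => ?_⟩
  have h1 := b.2
  have h2 := hS.levtop b.1
  omega

include hP in
theorem K5_P_mono {m i j : ℕ} (hij : i ≤ j) : P m i ≤ P m j := monotone_nat_of_le_succ (hP.mono m) hij

include hS hP in
theorem K5_two : P 2 2 = ⊤ := by
  refine Submodule.eq_top_of_finrank_eq ?_
  rw [hP.dim, Module.finrank_fintype_fun_eq_card]
  exact Fintype.card_congr (Equiv.subtypeUnivEquiv fun b => hS.le 2 b)

include hP in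
theorem K5_pw_P {s : β 2 → E} {r : ℕ} (hs : s ∈ P 2 r) {m i : ℕ} {x : β m → E} (hx : x ∈ P m i) (a : ℕ) :
    pw mu s m x a ∈ P (twist m a) (i + r * a) := by
  induction a with
  | zero => exact hx
  | succ a ih =>
    have h1 := hP.mul 2 (twist m a) r (i + r * a) s hs _ ih
    have e : r + (i + r * a) = i + r * (a + 1) := by ring
    rw [e] at h1
    exact h1

include hS in
theorem K5_pw_F {s : β 2 → E} {r : ℕ} (hs : s ∈ fl E lev 2 r) {m i : ℕ} {x : β m → E} (hx : x ∈ fl E lev m i) (a : ℕ) :
    pw mu s m x a ∈ fl E lev (twist m a) (i + r * a) := by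
  induction a with
  | zero => exact hx
  | succ a ih =>
    have h1 := hS.mulF 2 (twist m a) r (i + r * a) s hs _ ih
    have e : r + (i + r * a) = i + r * (a + 1) := by ring
    rw [e] at h1
    exact h1

include hS hlt in
/-- `l ^ a * x` and `t ^ a * x` are congruent. -/
theorem K5_lt {m p : ℕ} {x : β m → E} (hx : x ∈ fl E lev m p) (a : ℕ) :
    pw mu l m x a - pw mu t m x a ∈ fl E lev (twist m a) (p + 1) := by
  induction a with
  | zero =>
    change x - x ∈ _
    rw [sub_self]
    exact Submodule.zero_mem _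
  | succ a ih =>
    have e : pw mu l m x (a + 1) - pw mu t m x (a + 1) =
        ml mu 2 (twist m a) (l - t) (pw mu l m x a) + ml mu 2 (twist m a) t (pw mu l m x a - pw mu t m x a) := by
      change ml mu 2 (twist m a) l (pw mu l m x a) - ml mu 2 (twist m a) t (pw mu t m x a) = _
      rw [← K5_mlL_apply, ← K5_mlL_apply, ← K5_mlL_apply, ← K5_mlL_apply, map_sub, map_sub, LinearMap.sub_apply]
      abel
    rw [e]
    have h0 : ∀ y : β 2 → E, y ∈ fl E lev 2 0 := fun y => by
      rw [K5_zero]
      exact Submodule.mem_top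
    refine Submodule.add_mem _ ?_ ?_
    · have h1 := K5_pw_F hS (h0 l) hx a
      rw [zero_mul, add_zero] at h1
      have h2 := hS.mulF 2 (twist m a) 1 p _ hlt _ h1
      rw [add_comm 1 p] at h2
      exact h2
    · have h2 := hS.mulF 2 (twist m a) 0 (p + 1) _ (h0 t) _ ih
      rw [zero_add] at h2
      exact h2

include hS hP hl hlt in
/-- The inequality (L). -/
theorem K5_L {p q : ℕ} (hq : q ≤ N) :
    (∀ i, gd (P (p + q) i) (fl E lev (p + q) p) (fl E lev (p + q) (p + 1)) ≤
      gd (P (p + (2 * N - q)) i) (fl E lev (p + (2 * N - q)) p) (fl E lev (p + (2 * N - q)) (p + 1))) ∧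
    gd ⊤ (fl E lev (p + q) p) (fl E lev (p + q) (p + 1)) ≤
      gd ⊤ (fl E lev (p + (2 * N - q)) p) (fl E lev (p + (2 * N - q)) (p + 1)) := by
  have e : twist (p + q) (N - q) = p + (2 * N - q) := by
    rw [K5_twist]
    omega
  rw [← e]
  have h0 : l ∈ fl E lev 2 0 := by
    rw [K5_zero]
    exact Submodule.mem_top
  have hinj : ∀ x ∈ fl E lev (p + q) p, K5_pwL mu l (p + q) (N - q) x ∈ fl E lev (twist (p + q) (N - q)) (p + 1) →
      x ∈ fl E lev (p + q) (p + 1) := by
    intro x hx h
    rw [K5_pwL_apply] at h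
    refine hS.tau p q hq x hx ?_
    have h1 := Submodule.sub_mem _ h (K5_lt hS hlt hx (N - q))
    rw [sub_sub_cancel] at h1
    exact h1
  have hF : ∀ x ∈ fl E lev (p + q) p, K5_pwL mu l (p + q) (N - q) x ∈ fl E lev (twist (p + q) (N - q)) p := by
    intro x hx
    rw [K5_pwL_apply]
    have h1 := K5_pw_F hS h0 hx (N - q)
    rw [zero_mul, add_zero] at h1
    exact h1
  refine ⟨fun i => gd_le (K5_pwL mu l (p + q) (N - q)) (K5_anti _ (Nat.le_succ _)) (K5_anti _ (Nat.le_succ _))
    (fun x hx => ?_) hF hinj, gd_le (K5_pwL mu l (p + q) (N - q)) (K5_anti _ (Nat.le_succ _))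
    (K5_anti _ (Nat.le_succ _)) (fun x _ => Submodule.mem_top) hF hinj⟩
  rw [K5_pwL_apply]
  have h1 := K5_pw_P hP hl hx (N - q)
  rw [zero_mul, add_zero] at h1
  exact h1

include hS hP in
/-- The inequality (S). -/
theorem K5_S {p q : ℕ} (hp : p ≤ N) :
    (∀ i, gd (P (p + q) i) (fl E lev (p + q) p) (fl E lev (p + q) (p + 1)) ≤
      gd (P (2 * N - p + q) (i + 2 * (N - p))) (fl E lev (2 * N - p + q) (2 * N - p))
        (fl E lev (2 * N - p + q) (2 * N - p + 1))) ∧
    gd ⊤ (fl E lev (p + q) p) (fl E lev (p + q) (p + 1)) ≤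
      gd ⊤ (fl E lev (2 * N - p + q) (2 * N - p)) (fl E lev (2 * N - p + q) (2 * N - p + 1)) := by
  have e : twist (p + q) (N - p) = 2 * N - p + q := by
    rw [K5_twist]
    omega
  rw [← e]
  have hinj : ∀ x ∈ fl E lev (p + q) p,
      K5_pwL mu s (p + q) (N - p) x ∈ fl E lev (twist (p + q) (N - p)) (2 * N - p + 1) →
      x ∈ fl E lev (p + q) (p + 1) := by
    intro x hx h
    rw [K5_pwL_apply] at h
    exact hS.sigma (p + q) p hp x hx h
  have hF : ∀ x ∈ fl E lev (p + q) p,
      K5_pwL mu s (p + q) (N - p) x ∈ fl E lev (twist (p + q) (N - p)) (2 * N - p) := by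
    intro x hx
    rw [K5_pwL_apply]
    have h1 := K5_pw_F hS hS.two hx (N - p)
    have e2 : p + 2 * (N - p) = 2 * N - p := by omega
    rw [e2] at h1
    exact h1
  refine ⟨fun i => gd_le (K5_pwL mu s (p + q) (N - p)) (K5_anti _ (Nat.le_succ _)) (K5_anti _ (Nat.le_succ _))
    (fun x hx => ?_) hF hinj, gd_le (K5_pwL mu s (p + q) (N - p)) (K5_anti _ (Nat.le_succ _))
    (K5_anti _ (Nat.le_succ _)) (fun x _ => Submodule.mem_top) hF hinj⟩
  rw [K5_pwL_apply]
  exact K5_pw_P hP (by rw [K5_two hS hP]; exact Submodule.mem_top) hx (N - p)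

include hS in
/-- The pairing. -/
theorem K5_pair {m m' p : ℕ} (hm : m + m' = 4 * N) (hp : p ≤ 2 * N) {Q : Submodule E (β m → E)}
    {Q' : Submodule E (β m' → E)} (hQ : ∀ x ∈ Q, ∀ y ∈ Q', ml mu m m' x y = 0) :
    gd Q (fl E lev m p) (fl E lev m (p + 1)) + gd Q' (fl E lev m' (2 * N - p)) (fl E lev m' (2 * N - p + 1)) ≤
      gd ⊤ (fl E lev m' (2 * N - p)) (fl E lev m' (2 * N - p + 1)) := by
  refine gd_add_le (K5_mlL mu m m') (K5_finrank_top hS hm) (K5_anti _ (Nat.le_succ _)) (K5_anti _ (Nat.le_succ _))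
    (fun x hx y hy => ?_) (fun x hx y hy => ?_) hQ (fun x hx h => hS.dual m m' hm p x hx h)
  · have h1 := hS.mulF m m' _ _ x hx y hy
    have e : p + (2 * N - p + 1) = 2 * N + 1 := by omega
    rw [e, K5_top_bot hS hm, Submodule.mem_bot] at h1
    exact h1
  · have h1 := hS.mulF m m' _ _ x hx y hy
    have e : p + 1 + (2 * N - p) = 2 * N + 1 := by omega
    rw [e, K5_top_bot hS hm, Submodule.mem_bot] at h1
    exact h1

include hS in
/-- The symmetry of the Hodge numbers. -/
theorem K5_symm {m m' p : ℕ} (hm : m + m' = 4 * N) (hp : p ≤ 2 * N) :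
    gd (⊤ : Submodule E (β m → E)) (fl E lev m p) (fl E lev m (p + 1)) =
      gd (⊤ : Submodule E (β m' → E)) (fl E lev m' (2 * N - p)) (fl E lev m' (2 * N - p + 1)) := by
  have h : ∀ {m m' p : ℕ}, m + m' = 4 * N → p ≤ 2 * N →
      gd (⊤ : Submodule E (β m → E)) (fl E lev m p) (fl E lev m (p + 1)) ≤
        gd (⊤ : Submodule E (β m' → E)) (fl E lev m' (2 * N - p)) (fl E lev m' (2 * N - p + 1)) := by
    intro m m' p hm hp
    have h1 := K5_pair (Q := ⊤) (Q' := ⊥) hS hm hp (fun x _ y hy => by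
      rw [Submodule.mem_bot] at hy
      rw [hy, ← K5_mlL_apply, map_zero])
    omega
  refine le_antisymm (h hm hp) ?_
  have h2 := h (m := m') (m' := m) (p := 2 * N - p) (by omega) (by omega)
  have e : 2 * N - (2 * N - p) = p := by omega
  rw [e] at h2
  exact h2

include hS in
theorem K5_fl_bot' {m m' : ℕ} (hm : m + m' = 4 * N) : fl E lev m (2 * N + 1) = ⊥ := by
  have h1 : ∀ r, fl E lev m (2 * N + 1) ≤ fl E lev m (2 * N + 1 + r) := by
    intro r
    induction r with
    | zero => exact le_rfl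
    | succ r ih =>
      intro x hx
      refine hS.dual m m' hm _ x (ih hx) fun y hy => ?_
      have h2 := hS.mulF m m' (2 * N + 1 + r) _ x (ih hx) y hy
      have h3 := K5_anti (E := E) (lev := lev) (m + m')
        (show 2 * N + 1 ≤ 2 * N + 1 + r + (2 * N - (2 * N + 1 + r)) by omega) h2
      rw [K5_top_bot hS hm, Submodule.mem_bot] at h3
      exact h3
  rw [eq_bot_iff, ← K5_fl_bot hS (m := m) (i := 2 * N + 1 + m) (by omega)]
  exact h1 m

include hS in
theorem K5_lev {m m' : ℕ} (hm : m + m' = 4 * N) (b : β m) : lev m b < 2 * N + 1 := by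
  classical
  by_contra hcon
  have h1 : (fun b' => if b' = b then (1 : E) else 0) ∈ fl E lev m (2 * N + 1) := by
    intro b' hb'
    refine if_neg ?_
    rintro rfl
    exact hcon hb'
  rw [K5_fl_bot' hS hm, Submodule.mem_bot] at h1
  have h2 := congrFun h1 b
  rw [if_pos rfl] at h2
  exact one_ne_zero h2

include hS hP in
/-- The duality (D). -/
theorem K5_D {m m' p i : ℕ} (hm : m + m' = 4 * N) (hp : p ≤ 2 * N) (hi : i < 2 * N) :
    gd (P m i) (fl E lev m p) (fl E lev m (p + 1)) +
      gd (P m' (2 * N - 1 - i)) (fl E lev m' (2 * N - p)) (fl E lev m' (2 * N - p + 1)) =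
      gd ⊤ (fl E lev m p) (fl E lev m (p + 1)) := by
  have hm' : m' + m = 4 * N := by omega
  have hle : ∀ p ∈ range (2 * N + 1), gd (P m i) (fl E lev m p) (fl E lev m (p + 1)) +
      gd (P m' (2 * N - 1 - i)) (fl E lev m' (2 * N - p)) (fl E lev m' (2 * N - p + 1)) ≤
      gd ⊤ (fl E lev m p) (fl E lev m (p + 1)) := by
    intro p hp'
    have hp : p ≤ 2 * N := Nat.lt_succ_iff.1 (Finset.mem_range.1 hp')
    rw [K5_symm hS hm hp]
    refine K5_pair hS hm hp fun x hx y hy => ?_
    have h1 := hP.mul m m' _ _ x hx y hy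
    have e : i + (2 * N - 1 - i) = 2 * N - 1 := by omega
    rw [e, K5_P_bot hP hm (by omega) hS, Submodule.mem_bot] at h1
    exact h1
  have hT1 : ∑ p ∈ range (2 * N + 1), gd (P m i) (fl E lev m p) (fl E lev m (p + 1)) =
      Module.finrank E ↥(P m i) :=
    K5_sum0 (fl E lev m) (K5_anti m) (K5_zero m) (P m i) (2 * N + 1) (K5_fl_bot' hS hm)
  have hT2 : ∑ p ∈ range (2 * N + 1), gd (P m' (2 * N - 1 - i)) (fl E lev m' (2 * N - p))
      (fl E lev m' (2 * N - p + 1)) = Module.finrank E ↥(P m' (2 * N - 1 - i)) := by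
    have h1 := K5_sum0 (fl E lev m') (K5_anti m') (K5_zero m') (P m' (2 * N - 1 - i)) (2 * N + 1)
      (K5_fl_bot' hS hm')
    rw [← h1]
    have h2 := Finset.sum_range_reflect (fun p => gd (P m' (2 * N - 1 - i)) (fl E lev m' p)
      (fl E lev m' (p + 1))) (2 * N + 1)
    exact h2
  have hc1 := K5_card (E := E) (lev := lev) m i (2 * N + 1) (K5_lev hS hm)
  have hc2 := K5_card (E := E) (lev := lev) m' (2 * N - 1 - i) (2 * N + 1) (K5_lev hS hm')
  rw [← hP.dim] at hc1 hc2
  have hc3 : ∑ p ∈ range (2 * N + 1), (if p ≤ 2 * N - 1 - i then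
      gd (⊤ : Submodule E (β m' → E)) (fl E lev m' p) (fl E lev m' (p + 1)) else 0) =
      ∑ p ∈ range (2 * N + 1), if p ≤ i then 0 else
        gd (⊤ : Submodule E (β m → E)) (fl E lev m p) (fl E lev m (p + 1)) := by
    rw [← Finset.sum_range_reflect]
    refine Finset.sum_congr rfl fun p hp' => ?_
    have hp : p ≤ 2 * N := Nat.lt_succ_iff.1 (Finset.mem_range.1 hp')
    have e : 2 * N + 1 - 1 - p = 2 * N - p := by omega
    rw [e, K5_symm hS hm hp]
    by_cases h : p ≤ i
    · rw [if_neg (by omega), if_pos h]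
    · rw [if_pos (by omega), if_neg h]
  have hsum : ∑ p ∈ range (2 * N + 1), (gd (P m i) (fl E lev m p) (fl E lev m (p + 1)) +
      gd (P m' (2 * N - 1 - i)) (fl E lev m' (2 * N - p)) (fl E lev m' (2 * N - p + 1))) =
      ∑ p ∈ range (2 * N + 1), gd ⊤ (fl E lev m p) (fl E lev m (p + 1)) := by
    rw [Finset.sum_add_distrib, hT1, hT2, ← hc1, ← hc2, hc3, ← Finset.sum_add_distrib]
    refine Finset.sum_congr rfl fun p _ => ?_
    split_ifs
    · rw [add_zero]
    · rw [zero_add]
  exact (Finset.sum_eq_sum_iff_of_le hle).1 hsum p (Finset.mem_range.2 (by omega))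

end core

/-- LEAF K5. -/
theorem core {β : ℕ → Type} [∀ m, Fintype (β m)] {E : Type u} [Field E] {lev : ∀ m, β m → ℕ}
    {mu : ∀ m m', β m → β m' → β (m + m') → E} {N : ℕ} {s t : β 2 → E} (hS : Symp lev mu N s t)
    {P : ∀ m, ℕ → Submodule E (β m → E)} (hP : Conj lev mu P) {l : β 2 → E} (hl : l ∈ P 2 0)
    (hlt : l - t ∈ fl E lev 2 1) (m i : ℕ) : P m i ⊓ fl E lev m (i + 1) = ⊥ := by
  have hle : ∀ m p i, gd (P m i) (fl E lev m p) (fl E lev m (p + 1)) ≤
      gd ⊤ (fl E lev m p) (fl E lev m (p + 1)) := fun m p i =>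
    gd_le LinearMap.id (K5_anti _ (Nat.le_succ _)) (K5_anti _ (Nat.le_succ _)) (fun x _ => Submodule.mem_top)
      (fun x hx => hx) fun x _ hx => hx
  have hcomb := comb N (fun p q i => gd (P (p + q) i) (fl E lev (p + q) p) (fl E lev (p + q) (p + 1)))
    (fun p q => gd ⊤ (fl E lev (p + q) p) (fl E lev (p + q) (p + 1)))
    (fun p q i => hle (p + q) p i) (fun p q hq => K5_L hS hP hl hlt hq) (fun p q hp => K5_S hS hP hp)
    (fun p q hp hq => ⟨fun i hi => K5_D hS hP (by omega) hp hi, K5_symm hS (by omega) hp⟩)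
    (fun m i => by
      have h1 := K5_sum0 (fl E lev m) (K5_anti m) (K5_zero m) (P m i) (m + 1) (K5_fl_bot hS (Nat.lt_succ_self m))
      have h2 := K5_card (E := E) (lev := lev) m i (m + 1) (fun b => Nat.lt_succ_of_le (hS.le m b))
      rw [← hP.dim, ← h1] at h2
      have e : ∀ p ∈ range (m + 1), p + (m - p) = m := fun p hp => by
        have := Finset.mem_range.1 hp
        omega
      have h3 : ∑ p ∈ range (m + 1), gd (P (p + (m - p)) i) (fl E lev (p + (m - p)) p)
          (fl E lev (p + (m - p)) (p + 1)) = ∑ p ∈ range (m + 1), gd (P m i) (fl E lev m p) (fl E lev m (p + 1)) :=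
        Finset.sum_congr rfl fun p hp => by rw [e p hp]
      have h4 : (∑ p ∈ range (m + 1), if p ≤ i then gd (⊤ : Submodule E (β (p + (m - p)) → E))
          (fl E lev (p + (m - p)) p) (fl E lev (p + (m - p)) (p + 1)) else 0) =
          ∑ p ∈ range (m + 1), if p ≤ i then gd (⊤ : Submodule E (β m → E)) (fl E lev m p)
            (fl E lev m (p + 1)) else 0 :=
        Finset.sum_congr rfl fun p hp => by rw [e p hp]
      rw [h3, h4]
      exact h2.symm)
  rw [← Submodule.finrank_eq_zero]
  by_cases hmi : m ≤ i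
  · rw [K5_fl_bot hS (show m < i + 1 by omega), inf_bot_eq, finrank_bot]
  · have h1 := K5_sum (fl E lev m) (K5_anti m) (P m i) (i + 1) (m - i)
    have e : i + 1 + (m - i) = m + 1 := by omega
    rw [e, K5_fl_bot hS (Nat.lt_succ_self m), inf_bot_eq, finrank_bot, add_zero] at h1
    rw [← h1]
    refine Finset.sum_eq_zero fun r hr => ?_
    have hr' := Finset.mem_range.1 hr
    obtain ⟨p, hp⟩ : ∃ p, p = i + 1 + r := ⟨_, rfl⟩
    rw [← hp]
    by_cases hm4 : 4 * N < m
    · have hem := hS.empty m hm4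
      have h2 : fl E lev m p = ⊥ := K5_bot fun b => (hem.false b).elim
      have h3 := hle m p i
      unfold gd at h3 ⊢
      rw [h2, inf_bot_eq, finrank_bot, Nat.zero_sub]
    · obtain ⟨m', hm'⟩ : ∃ m', m + m' = 4 * N := ⟨4 * N - m, by omega⟩
      by_cases hp2 : p ≤ 2 * N
      · by_cases hq2 : m - p ≤ 2 * N
        · have h2 : gd (P (p + (m - p)) i) (fl E lev (p + (m - p)) p) (fl E lev (p + (m - p)) (p + 1)) = 0 :=
            hcomb p (m - p) hp2 hq2 i (by omega)
          have e2 : p + (m - p) = m := by omega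
          rw [e2] at h2
          exact h2
        · have h2 := hle m p i
          rw [K5_symm hS hm' hp2] at h2
          have h3 : fl E lev m' (2 * N - p) = ⊥ := K5_fl_bot hS (by omega)
          unfold gd at h2 ⊢
          rw [h3, inf_bot_eq, finrank_bot, Nat.zero_sub] at h2
          omega
      · have h2 : fl E lev m p = ⊥ := by
          rw [eq_bot_iff, ← K5_fl_bot' hS hm']
          exact K5_anti m (by omega)
        unfold gd
        rw [h2, inf_bot_eq, finrank_bot, Nat.zero_sub]

end MPadcHK
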