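import Pool.Agent.Lib.MP_adc574_ag_HK.Def

/-!
# Symplectic type: the linear data in coordinates

`β m`: the index set of the basis of `H^m`, `lev`: the level in the Hodge filtration, `mu`: the structure constants.
-/

set_option autoImplicit false
set_option linter.unusedSectionVars false

namespace MPadcHK

open OrdRed

universe u v w

section

variable {β : ℕ → Type} [∀ m, Fintype (β m)] {R : Type u} [CommRing R]

/-- The product in coordinates. -/
def ml (mu : ∀ m m', β m → β m' → β (m + m') → R) (m m' : ℕ) (x : β m → R) (y : β m' → R) : β (m + m') → R :=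
  fun c => ∑ a, ∑ b, mu m m' a b c * (x a * y b)

/-- `s ^ a * x` in coordinates. -/
def pw (mu : ∀ m m', β m → β m' → β (m + m') → R) (s : β 2 → R) (m : ℕ) (x : β m → R) : (a : ℕ) → β (twist m a) → R
  | 0 => x
  | a + 1 => ml mu 2 (twist m a) s (pw mu s m x a)

/-- The Hodge filtration in coordinates. -/
def fl (R : Type u) [CommRing R] (lev : ∀ m, β m → ℕ) (m i : ℕ) : Submodule R (β m → R) where
  carrier := {x | ∀ b, lev m b < i → x b = 0}
  add_mem' := fun {x y} hx hy b hb => by rw [Pi.add_apply, hx b hb, hy b hb, add_zero]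
  zero_mem' := fun b _ => rfl
  smul_mem' := fun c x hx b hb => by rw [Pi.smul_apply, hx b hb, smul_zero]

theorem mem_fl {lev : ∀ m, β m → ℕ} {m i : ℕ} {x : β m → R} : x ∈ fl R lev m i ↔ ∀ b, lev m b < i → x b = 0 := Iff.rfl

end

/-- Symplectic type, in coordinates. -/
structure Symp {β : ℕ → Type} [∀ m, Fintype (β m)] {E : Type u} [Field E] (lev : ∀ m, β m → ℕ)
    (mu : ∀ m m', β m → β m' → β (m + m') → E) (N : ℕ) (s t : β 2 → E) : Prop where
  card : Fintype.card (β (4 * N)) = 1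
  levtop : ∀ b : β (4 * N), lev (4 * N) b = 2 * N
  empty : ∀ m, 4 * N < m → IsEmpty (β m)
  le : ∀ m b, lev m b ≤ m
  mulF : ∀ m m' i i', ∀ x ∈ fl E lev m i, ∀ y ∈ fl E lev m' i', ml mu m m' x y ∈ fl E lev (m + m') (i + i')
  dual : ∀ m m', m + m' = 4 * N → ∀ p, ∀ x ∈ fl E lev m p,
    (∀ y ∈ fl E lev m' (2 * N - p), ml mu m m' x y = 0) → x ∈ fl E lev m (p + 1)
  two : s ∈ fl E lev 2 2
  sigma : ∀ m p, p ≤ N → ∀ x ∈ fl E lev m p, pw mu s m x (N - p) ∈ fl E lev (twist m (N - p)) (2 * N - p + 1) →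
    x ∈ fl E lev m (p + 1)
  tau : ∀ p q, q ≤ N → ∀ x ∈ fl E lev (p + q) p, pw mu t (p + q) x (N - q) ∈ fl E lev (twist (p + q) (N - q)) (p + 1) →
    x ∈ fl E lev (p + q) (p + 1)

/-- Filtrations of conjugate type, in coordinates (the properties used). -/
structure Conj {β : ℕ → Type} [∀ m, Fintype (β m)] {E : Type u} [Field E] (lev : ∀ m, β m → ℕ)
    (mu : ∀ m m', β m → β m' → β (m + m') → E) (P : ∀ m, ℕ → Submodule E (β m → E)) : Prop where
  mono : ∀ m i, P m i ≤ P m (i + 1)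
  dim : ∀ m i, Module.finrank E ↥(P m i) = Fintype.card {b : β m // lev m b ≤ i}
  mul : ∀ m m' i i', ∀ x ∈ P m i, ∀ y ∈ P m' i', ml mu m m' x y ∈ P (m + m') (i + i')

end MPadcHK
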