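import Pool.Agent.Lib.MP_adc574_ag_HK.K5

/-!
# Moving second cohomology: linear algebra
-/

set_option autoImplicit false
set_option linter.unusedSectionVars false

namespace MPadcHK

open OrdRed

universe u v

section

variable {A : Type u} [CommRing A] {β : Type} [Fintype β] {N : ℕ} (D : Fin N → Derivation ℤ A A)
  (G : Fin N → β → β → A) (S : Set (β → A))

/-- The functionals generated by `S` with the dual connection. -/
inductive Fn : (β → A) → Prop
  | base (c : β → A) : c ∈ S → Fn c
  | step (l : Fin N) (c : β → A) : Fn c → Fn fun b => D l (c b) - ∑ b', c b' * G l b' b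

/-- The vectors on which the functionals vanish. -/
def Ann {E : Type v} [Field E] (φ : A →+* E) : Submodule E (β → E) where
  carrier := {x | ∀ c, Fn D G S c → ∑ b, φ (c b) * x b = 0}
  add_mem' := fun {x y} hx hy c hc => by
    simp only [Pi.add_apply, mul_add, Finset.sum_add_distrib]
    rw [hx c hc, hy c hc, add_zero]
  zero_mem' := fun c _ => by simp only [Pi.zero_apply, mul_zero, Finset.sum_const_zero]
  smul_mem' := fun r x hx c hc => by
    have h1 : ∑ b, φ (c b) * (r • x) b = r * ∑ b, φ (c b) * x b := by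
      rw [Finset.mul_sum]
      refine Finset.sum_congr rfl fun b _ => ?_
      rw [Pi.smul_apply, smul_eq_mul]
      ring
    rw [h1, hx c hc, mul_zero]

variable {D G S}

/-- The functionals vanish on stable subspaces on which the functionals in `S` vanish. -/
theorem Fn.vanish {κ : Type v} [Field κ] (φ : A →+* κ) (δ : Fin N → Derivation ℤ κ κ)
    (hδ : ∀ l x, δ l (φ x) = φ (D l x)) (P : Submodule κ (β → κ))
    (hP : ∀ l, ∀ x ∈ P, (fun b' => δ l (x b') + ∑ b, φ (G l b' b) * x b) ∈ P)
    (hS : ∀ c ∈ S, ∀ x ∈ P, ∑ b, φ (c b) * x b = 0) {c : β → A} (hc : Fn D G S c) :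
    ∀ x ∈ P, ∑ b, φ (c b) * x b = 0 := by
  induction hc with
  | base c hc => exact hS c hc
  | step l c hc ih =>
    intro x hx
    have h1 := ih x hx
    have h2 := ih _ (hP l x hx)
    have h3 : δ l (∑ b, φ (c b) * x b) = 0 := by rw [h1, map_zero]
    rw [map_sum] at h3
    simp only [Derivation.leibniz, hδ, smul_eq_mul] at h3
    rw [Finset.sum_add_distrib] at h3
    simp only [mul_add] at h2
    rw [Finset.sum_add_distrib] at h2
    have h4 : ∑ b', φ (c b') * ∑ b, φ (G l b' b) * x b = ∑ b, (∑ b', φ (c b') * φ (G l b' b)) * x b := by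
      simp only [Finset.mul_sum, Finset.sum_mul]
      rw [Finset.sum_comm]
      exact Finset.sum_congr rfl fun b _ => Finset.sum_congr rfl fun b' _ => by ring
    rw [h4] at h2
    have h5 : ∑ b, φ (D l (c b) - ∑ b', c b' * G l b' b) * x b =
        ∑ b, x b * φ (D l (c b)) - ∑ b, (∑ b', φ (c b') * φ (G l b' b)) * x b := by
      rw [← Finset.sum_sub_distrib]
      refine Finset.sum_congr rfl fun b _ => ?_
      rw [map_sub, map_sum, sub_mul, mul_comm (φ (D l (c b)))]
      simp only [map_mul]
    rw [h5]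
    have h6 : ∑ b, (∑ b', φ (c b') * φ (G l b' b)) * x b = -∑ b, φ (c b) * (δ l) (x b) :=
      eq_neg_of_add_eq_zero_right h2
    have h7 : ∑ b, x b * φ (D l (c b)) = -∑ b, φ (c b) * (δ l) (x b) := eq_neg_of_add_eq_zero_right h3
    rw [h6, h7, sub_self]

/-- The annihilator is stable under all derivations. -/
theorem Ann_stable {E : Type v} [Field E] (φ : A →+* E) (D' : Derivation ℤ E E) (a : Fin N → E)
    (ha : ∀ x, D' (φ x) = ∑ l, a l * φ (D l x)) {x : β → E} (hx : x ∈ Ann D G S φ) :
    (fun b' => D' (x b') + ∑ l, a l * ∑ b, φ (G l b' b) * x b) ∈ Ann D G S φ := by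
  intro c hc
  have h1 : D' (∑ b, φ (c b) * x b) = 0 := by
    have h2 : ∑ b, φ (c b) * x b = 0 := hx c hc
    rw [h2, map_zero]
  rw [map_sum] at h1
  simp only [Derivation.leibniz, ha, smul_eq_mul] at h1
  rw [Finset.sum_add_distrib] at h1
  have h3 : ∀ l, ∑ b, x b * φ (D l (c b)) = ∑ b', φ (c b') * ∑ b, φ (G l b' b) * x b := by
    intro l
    have h4 : ∑ b, φ (D l (c b) - ∑ b', c b' * G l b' b) * x b = 0 := hx _ (Fn.step l c hc)
    have h5 : ∑ b, φ (D l (c b) - ∑ b', c b' * G l b' b) * x b =
        ∑ b, x b * φ (D l (c b)) - ∑ b, (∑ b', φ (c b') * φ (G l b' b)) * x b := by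
      rw [← Finset.sum_sub_distrib]
      refine Finset.sum_congr rfl fun b _ => ?_
      rw [map_sub, map_sum, sub_mul, mul_comm (φ (D l (c b)))]
      simp only [map_mul]
    have h6 : ∑ b', φ (c b') * ∑ b, φ (G l b' b) * x b = ∑ b, (∑ b', φ (c b') * φ (G l b' b)) * x b := by
      simp only [Finset.mul_sum, Finset.sum_mul]
      rw [Finset.sum_comm]
      exact Finset.sum_congr rfl fun b _ => Finset.sum_congr rfl fun b' _ => by ring
    rw [h6]
    rw [h5] at h4
    exact sub_eq_zero.1 h4
  have h7 : ∑ b, x b * ∑ l, a l * φ (D l (c b)) =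
      ∑ b', φ (c b') * ∑ l, a l * ∑ b, φ (G l b' b) * x b := by
    calc ∑ b, x b * ∑ l, a l * φ (D l (c b)) = ∑ l, a l * ∑ b, x b * φ (D l (c b)) := by
          simp only [Finset.mul_sum]
          rw [Finset.sum_comm]
          exact Finset.sum_congr rfl fun l _ => Finset.sum_congr rfl fun b _ => by ring
      _ = ∑ l, a l * ∑ b', φ (c b') * ∑ b, φ (G l b' b) * x b :=
          Finset.sum_congr rfl fun l _ => by rw [h3 l]
      _ = ∑ b', φ (c b') * ∑ l, a l * ∑ b, φ (G l b' b) * x b := by
          simp only [Finset.mul_sum]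
          rw [Finset.sum_comm]
          exact Finset.sum_congr rfl fun b' _ => Finset.sum_congr rfl fun l _ =>
            Finset.sum_congr rfl fun b _ => by ring
  simp only [mul_add]
  rw [Finset.sum_add_distrib, ← h7]
  exact h1

variable [DecidableEq β]

/-- If the functionals have no common zero over one field then they have none over all fields where an element of `A`
does not vanish. -/
theorem exists_det {E : Type v} [Field E] (φ : A →+* E) (h : ∀ x ∈ Ann D G S φ, x = 0) :
    ∃ Δ : A, φ Δ ≠ 0 ∧ ∀ (κ : Type v) [Field κ] (ψ : A →+* κ), ψ Δ ≠ 0 → ∀ x : β → κ,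
      (∀ c, Fn D G S c → ∑ b, ψ (c b) * x b = 0) → x = 0 := by
  classical
  obtain ⟨T, hT⟩ : ∃ T : Set (β → E), T = {v | ∃ c, Fn D G S c ∧ v = fun b => φ (c b)} := ⟨_, rfl⟩
  have hspan : Submodule.span E T = ⊤ := by
    by_contra hne
    obtain ⟨f, hf0, hf⟩ := Submodule.exists_le_ker_of_lt_top (Submodule.span E T) (lt_top_iff_ne_top.2 hne)
    apply hf0
    have hfx : ∀ v : β → E, f v = ∑ b, v b * f (Pi.single b 1) := by
      intro v
      have h1 : v = ∑ b, v b • (Pi.single b 1 : β → E) := by
        funext b'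
        rw [Finset.sum_apply, Finset.sum_eq_single b']
        · rw [Pi.smul_apply, Pi.single_eq_same, smul_eq_mul, mul_one]
        · intro b _ hb
          rw [Pi.smul_apply, Pi.single_eq_of_ne hb.symm, smul_zero]
        · intro h'
          exact absurd (Finset.mem_univ _) h'
      conv_lhs => rw [h1]
      rw [map_sum]
      exact Finset.sum_congr rfl fun b _ => by rw [map_smul, smul_eq_mul]
    have h2 : (fun b => f (Pi.single b 1)) = (0 : β → E) := by
      refine h _ fun c hc => ?_
      have h3 : (fun b => φ (c b)) ∈ Submodule.span E T := Submodule.subset_span (hT ▸ ⟨c, hc, rfl⟩)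
      have h4 := hf h3
      rw [LinearMap.mem_ker, hfx] at h4
      exact h4
    refine LinearMap.ext fun v => ?_
    rw [hfx, LinearMap.zero_apply]
    refine Finset.sum_eq_zero fun b _ => ?_
    rw [congrFun h2 b, Pi.zero_apply, mul_zero]
  obtain ⟨b, hbT, hbs, hli⟩ := exists_linearIndependent E T
  let B : Module.Basis b E (β → E) := Module.Basis.mk hli (by
    rw [Subtype.range_coe, hbs, hspan])
  have e : β ≃ b := by
    have h1 := Module.Basis.indexEquiv (Pi.basisFun E β) B
    exact h1
  have hc : ∀ i : β, ∃ c : β → A, Fn D G S c ∧ ((e i : b) : β → E) = fun b => φ (c b) := by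
    intro i
    have h1 := hbT (e i).2
    rw [hT] at h1
    exact h1
  choose c hc1 hc2 using hc
  obtain ⟨M, hM⟩ : ∃ M : Matrix β β A, M = fun i j => c i j := ⟨_, rfl⟩
  have hrow : (M.map φ).row = fun i => ((e i : b) : β → E) := by
    funext i j
    rw [hc2 i, hM]
    rfl
  have hdet : IsUnit (M.map φ) := by
    rw [← Matrix.linearIndependent_rows_iff_isUnit, hrow]
    exact hli.comp e e.injective
  refine ⟨M.det, ?_, fun κ _ ψ hψ x hx => ?_⟩
  · rw [RingHom.map_det]
    exact ((Matrix.isUnit_iff_isUnit_det _).1 hdet).ne_zero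
  · refine Matrix.eq_zero_of_mulVec_eq_zero (M := M.map ψ) ?_ ?_
    · rw [RingHom.map_det] at hψ
      exact hψ
    · funext i
      rw [hM]
      exact hx (c i) (hc1 i)

end

section

variable {β : ℕ → Type} [∀ m, Fintype (β m)] [∀ m, DecidableEq (β m)] {R : Type u} [CommRing R]

/-- The matrices of the multiplications with `a` elements of `L`. -/
def MW (mu : ∀ m m', β m → β m' → β (m + m') → R) (L : Set (β 2 → R)) (m : ℕ) :
    (a : ℕ) → Set (β m → β (twist m a) → R)
  | 0 => {fun (b c : β m) => if b = c then (1 : R) else 0}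
  | a + 1 => {z | ∃ g ∈ L, ∃ y ∈ MW mu L m a, z = fun b => ml mu 2 (twist m a) g (y b)}

/-- The product of `φ g` and `∑ x_b φ (y b)`. -/
theorem ml_lin {E : Type v} [Field E] (φ : R →+* E) (mu : ∀ m m', β m → β m' → β (m + m') → R) {m m' : ℕ}
    (g : β 2 → R) (y : β m → β m' → R) (x : β m → E) :
    (fun c => ∑ a, ∑ b, φ (mu 2 m' a b c) * (φ (g a) * ∑ b₀, φ (y b₀ b) * x b₀)) =
      fun c => ∑ b₀, φ (ml mu 2 m' g (y b₀) c) * x b₀ := by
  funext c
  unfold ml
  simp only [map_sum, map_mul, Finset.mul_sum, Finset.sum_mul]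
  rw [Finset.sum_congr rfl fun a _ => Finset.sum_comm, Finset.sum_comm]
  exact Finset.sum_congr rfl fun b₀ _ => Finset.sum_congr rfl fun a _ => Finset.sum_congr rfl fun b _ => by ring

/-- The powers are combinations of the multiplications. -/
theorem pw_mem_span {E : Type u} [Field E] (φ : R →+* E) (mu : ∀ m m', β m → β m' → β (m + m') → R)
    (L : Set (β 2 → R)) {s : β 2 → E} (hs : s ∈ Submodule.span E {v : β 2 → E | ∃ g ∈ L, v = fun b => φ (g b)})
    (m : ℕ) (x : β m → E) (a : ℕ) :
    pw (fun m m' a b c => φ (mu m m' a b c)) s m x a ∈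
      Submodule.span E {v : β (twist m a) → E | ∃ y ∈ MW mu L m a, v = fun e => ∑ b, φ (y b e) * x b} := by
  induction a with
  | zero =>
    refine Submodule.subset_span ⟨_, rfl, ?_⟩
    funext e
    change x e = ∑ b, φ (if b = e then (1 : R) else 0) * x b
    rw [Finset.sum_eq_single (e : β m)]
    · rw [if_pos rfl, map_one, one_mul]
    · intro b _ hb
      rw [if_neg hb, map_zero, zero_mul]
    · intro h'
      exact absurd (Finset.mem_univ _) h'
  | succ a ih =>
    change K5_mlL (fun m m' a b c => φ (mu m m' a b c)) 2 (twist m a) s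
      (pw (fun m m' a b c => φ (mu m m' a b c)) s m x a) ∈ _
    obtain ⟨w, hw⟩ : ∃ w, w = pw (fun m m' a b c => φ (mu m m' a b c)) s m x a := ⟨_, rfl⟩
    rw [← hw] at ih ⊢
    have key : ∀ g ∈ L, ∀ w ∈ Submodule.span E {v : β (twist m a) → E | ∃ y ∈ MW mu L m a, v = fun e => ∑ b, φ (y b e) * x b},
        K5_mlL (fun m m' a b c => φ (mu m m' a b c)) 2 (twist m a) (fun b => φ (g b)) w ∈
          Submodule.span E {v : β (twist m (a + 1)) → E | ∃ y ∈ MW mu L m (a + 1), v = fun e => ∑ b, φ (y b e) * x b} := by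
      intro g hg w hw
      induction hw using Submodule.span_induction with
      | mem w hw =>
        obtain ⟨y, hy, rfl⟩ := hw
        refine Submodule.subset_span ⟨fun b => ml mu 2 (twist m a) g (y b), ⟨g, hg, y, hy, rfl⟩, ?_⟩
        exact ml_lin φ mu g y x
      | zero => rw [map_zero]; exact Submodule.zero_mem _
      | add w w' _ _ h h' => rw [map_add]; exact Submodule.add_mem _ h h'
      | smul r w _ h => rw [map_smul]; exact Submodule.smul_mem _ _ h
    clear hw
    induction hs using Submodule.span_induction with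
    | mem s hs =>
      obtain ⟨g, hg, rfl⟩ := hs
      exact key g hg w ih
    | zero => rw [map_zero, LinearMap.zero_apply]; exact Submodule.zero_mem _
    | add s s' _ _ h h' => rw [map_add, LinearMap.add_apply]; exact Submodule.add_mem _ h h'
    | smul r s _ h => rw [map_smul, LinearMap.smul_apply]; exact Submodule.smul_mem _ _ h

/-- The products of elements of the conjugate filtration. -/
theorem MW_mem {κ : Type v} [Field κ] (ψ : R →+* κ) (mu : ∀ m m', β m → β m' → β (m + m') → R)
    (L : Set (β 2 → R)) {P : ∀ m, ℕ → Submodule κ (β m → κ)}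
    (hmul : ∀ m m' i i', ∀ x ∈ P m i, ∀ y ∈ P m' i',
      (fun c => ∑ a, ∑ b, ψ (mu m m' a b c) * (x a * y b)) ∈ P (m + m') (i + i'))
    (hlog : ∀ g ∈ L, (fun b => ψ (g b)) ∈ P 2 1) {m : ℕ} {x : β m → κ} (hx : x ∈ P m 0) :
    ∀ (a : ℕ), ∀ y ∈ MW mu L m a, (fun e => ∑ b, ψ (y b e) * x b) ∈ P (twist m a) a := by
  intro a
  induction a with
  | zero =>
    rintro y rfl
    have h1 : (fun e : β m => ∑ b, ψ (if b = e then (1 : R) else 0) * x b) = x := by
      funext e
      rw [Finset.sum_eq_single e]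
      · rw [if_pos rfl, map_one, one_mul]
      · intro b _ hb
        rw [if_neg hb, map_zero, zero_mul]
      · intro h'
        exact absurd (Finset.mem_univ _) h'
    exact h1.symm ▸ hx
  | succ a ih =>
    rintro _ ⟨g, hg, y, hy, rfl⟩
    have h1 := hmul 2 (twist m a) 1 a _ (hlog g hg) _ (ih y hy)
    rw [ml_lin ψ mu g y x, add_comm 1 a] at h1
    exact h1

end

end MPadcHK
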