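import Pool.Agent.Lib.MP_adc574_ag_HK.LDefs
import Pool.Agent.Lib.MP_adc574_ag_GP.BrC
import Pool.Agent.Lib.MP_adc574_ag_GP.GlGen

/-!
# Symplectic type: coordinates over the field
-/

set_option autoImplicit false
set_option linter.unusedSectionVars false

namespace MPadcHK

open MvPolynomial OrdRed MPadcGP

universe u

section

variable {k : Type u} [Field k] {A : Type u} [CommRing A] (j : A →+* k) {n : ℕ}
    {I : Ideal (MvPolynomial (Fin n) A)} {β : ℕ → Type} [∀ m, Fintype (β m)] {lev : ∀ m, β m → ℕ}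
    {z : ∀ m, β m → (prC I).Ch} (had : IsAd (prC (bI j I)) lev fun m b => (prH j I).push (z m b))

/-- The coordinates of the cohomology of the literal complex. -/
private noncomputable def T3_E (m : ℕ) : (β m → k) ≃ₗ[k] (cov (prC (bI j I))).DR m :=
  (had.eqv m).trans (cmp (prC (bI j I)) m)

private theorem T3_E_apply (m : ℕ) (x : β m → k) :
    T3_E j had m x = cmp (prC (bI j I)) m (had.eqv m x) := rfl

private theorem T3_hodge {m i : ℕ} {x : β m → k} :
    T3_E j had m x ∈ (cov (prC (bI j I))).hodge m i ↔ x ∈ fl k lev m i := by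
  rw [T3_E_apply, hodge_iff, had.eqv_mem_Fil, mem_fl]

variable {mu : ∀ m m', β m → β m' → β (m + m') → A}
    (hmu : ∀ m m' a b, (prC I).cup (z m a) (z m' b) - ∑ c, mu m m' a b c • z (m + m') c ∈ (prC I).Bc (m + m'))

include hmu in
private theorem T3_prod {m m' : ℕ} {x : β m → k} {y : β m' → k} {t : β (m + m') → k} :
    (cov (prC (bI j I))).prod m m' (T3_E j had m x) (T3_E j had m' y) (T3_E j had (m + m') t) ↔
      t = ml (fun m m' a b c => j (mu m m' a b c)) m m' x y := by
  rw [T3_E_apply, T3_E_apply, T3_E_apply, prod_iff]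
  constructor
  · intro h
    exact (had.eqv (m + m')).injective (glgen_cup had hmu h)
  · rintro rfl
    obtain ⟨c, hc⟩ := CovD.cl_surjective m (had.eqv m x)
    obtain ⟨c', hc'⟩ := CovD.cl_surjective m' (had.eqv m' y)
    have h1 : (prC (bI j I)).cupRel m m' (had.eqv m x) (had.eqv m' y)
        ((prC (bI j I)).cl (m + m') ⟨_, CovD.cup_mem_Zc c.2 c'.2⟩) := ⟨c, c', _, rfl, hc, hc', rfl⟩
    have h2 := glgen_cup had hmu h1
    rw [h2] at h1
    exact h1

include hmu in
private theorem T3_power {s : β 2 → k} {m : ℕ} {x : β m → k} : ∀ (a : ℕ) {y : β (twist m a) → k},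
    (cov (prC (bI j I))).power (T3_E j had 2 s) m (T3_E j had m x) a (T3_E j had (twist m a) y) ↔
      y = pw (fun m m' a b c => j (mu m m' a b c)) s m x a := by
  intro a
  induction a with
  | zero =>
    intro y
    constructor
    · intro h
      exact (T3_E j had m).injective h
    · intro h
      exact congrArg (T3_E j had m) h
  | succ a ih =>
    intro y
    constructor
    · rintro ⟨w, hw, hp⟩
      obtain ⟨w', rfl⟩ := (T3_E j had (twist m a)).surjective w
      have h1 := ih.1 hw
      have h2 := (T3_prod j had hmu).1 hp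
      rw [h1] at h2
      exact h2
    · intro h
      refine ⟨T3_E j had (twist m a) (pw (fun m m' a b c => j (mu m m' a b c)) s m x a), ih.2 rfl, ?_⟩
      exact (T3_prod j had hmu).2 h

include had in
private theorem T3_le (m : ℕ) (b : β m) : lev m b ≤ m := by
  classical
  by_contra hlt
  have h0 := had.mem m b
  have h1 : (prH j I).push (z m b) = 0 := by
    funext J
    by_cases hJ : J = ∅
    · subst hJ
      exact h0.1.1
    · have h3 : 0 < J.card := Finset.card_pos.mpr (Finset.nonempty_iff_ne_empty.mpr hJ)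
      exact h0.2 J (by omega)
  have h2 := had.ind m (Pi.single b 1) (by
    rw [Finset.sum_eq_single b]
    · rw [h1, smul_zero]
      exact Submodule.zero_mem _
    · intro c _ hc
      rw [Pi.single_eq_of_ne hc, zero_smul]
    · intro h
      exact (h (Finset.mem_univ b)).elim)
  have h3 := congrFun h2 b
  rw [Pi.single_eq_same, Pi.zero_apply] at h3
  exact one_ne_zero h3

include had hmu in
private theorem T3_mulF (m m' i i' : ℕ) (x : β m → k) (hx : x ∈ fl k lev m i) (y : β m' → k)
    (hy : y ∈ fl k lev m' i') :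
    ml (fun m m' a b c => j (mu m m' a b c)) m m' x y ∈ fl k lev (m + m') (i + i') := by
  obtain ⟨c, hc, hcx⟩ := CovD.mem_Fil.1 ((had.eqv_mem_Fil (i := i)).2 (mem_fl.1 hx))
  obtain ⟨c', hc', hcy⟩ := CovD.mem_Fil.1 ((had.eqv_mem_Fil (i := i')).2 (mem_fl.1 hy))
  have h1 : (prC (bI j I)).cupRel m m' (had.eqv m x) (had.eqv m' y)
      ((prC (bI j I)).cl (m + m') ⟨_, CovD.cup_mem_Zc c.2 c'.2⟩) := ⟨c, c', _, rfl, hcx, hcy, rfl⟩
  have h2 := glgen_cup had hmu h1
  refine mem_fl.2 ((had.eqv_mem_Fil (i := i + i')).1 ?_)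
  refine CovD.mem_Fil.2 ⟨⟨_, CovD.cup_mem_Zc c.2 c'.2⟩, CovD.cup_mem_Fi hc hc', h2⟩

end

/-- LEAF T3. -/
theorem symp_of_symplectic {k : Type u} [Field k] {A : Type u} [CommRing A] (j : A →+* k) {n : ℕ}
    {I : Ideal (MvPolynomial (Fin n) A)} {β : ℕ → Type} [∀ m, Fintype (β m)] {lev : ∀ m, β m → ℕ}
    {z : ∀ m, β m → (prC I).Ch} (had : IsAd (prC (bI j I)) lev fun m b => (prH j I).push (z m b))
    {mu : ∀ m m', β m → β m' → β (m + m') → A}
    (hmu : ∀ m m' a b, (prC I).cup (z m a) (z m' b) - ∑ c, mu m m' a b c • z (m + m') c ∈ (prC I).Bc (m + m'))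
    {N : ℕ} (h : Symplectic (cov (prC (bI j I))) N) :
    ∃ s t : β 2 → k, Symp lev (fun m m' a b c => j (mu m m' a b c)) N s t := by
  classical
  obtain ⟨σ, τ, hS⟩ := h
  obtain ⟨s, rfl⟩ := (T3_E j had 2).surjective σ
  obtain ⟨t, rfl⟩ := (T3_E j had 2).surjective τ
  refine ⟨s, t, ?_⟩
  refine
    { card := ?_
      levtop := ?_
      empty := ?_
      le := T3_le j had
      mulF := T3_mulF j had hmu
      dual := ?_
      two := (T3_hodge j had).1 hS.two
      sigma := ?_
      tau := ?_ }
  · have h1 := (T3_E j had (4 * N)).finrank_eq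
    rw [hS.dim_top, Module.finrank_fintype_fun_eq_card] at h1
    exact h1
  · intro b
    refine le_antisymm ?_ ?_
    · by_contra hlt
      rw [not_le] at hlt
      have h1 : (Pi.single b 1 : β (4 * N) → k) ∈ fl k lev (4 * N) (2 * N + 1) := by
        refine mem_fl.2 fun c hc => Pi.single_eq_of_ne (fun e => ?_) _
        subst e
        omega
      have h2 := (T3_hodge j had).2 h1
      rw [hS.hodge_bot, Submodule.mem_bot] at h2
      have h3 := congrFun ((LinearEquiv.map_eq_zero_iff _).1 h2) b
      rw [Pi.single_eq_same, Pi.zero_apply] at h3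
      exact one_ne_zero h3
    · by_contra hlt
      rw [not_le] at hlt
      have h1 : T3_E j had (4 * N) (Pi.single b 1) ∈ (cov (prC (bI j I))).hodge (4 * N) (2 * N) := by
        rw [hS.hodge_top]
        exact Submodule.mem_top
      have h2 := mem_fl.1 ((T3_hodge j had).1 h1) b hlt
      rw [Pi.single_eq_same] at h2
      exact one_ne_zero h2
  · intro m hm
    refine ⟨fun b => ?_⟩
    have h0 := hS.vanish m hm
    have h1 := (T3_E j had m).injective (Subsingleton.elim (T3_E j had m (Pi.single b 1)) (T3_E j had m 0))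
    have h2 := congrFun h1 b
    rw [Pi.single_eq_same, Pi.zero_apply] at h2
    exact one_ne_zero h2
  · intro m m' hmm p x hx hz
    by_contra hn
    obtain ⟨y, hy, w, hp, hw⟩ := hS.dual m m' hmm p _ ((T3_hodge j had).2 hx)
      (fun e => hn ((T3_hodge j had).1 e))
    obtain ⟨y', rfl⟩ := (T3_E j had m').surjective y
    obtain ⟨w', rfl⟩ := (T3_E j had (m + m')).surjective w
    have h1 := (T3_prod j had hmu).1 hp
    rw [hz y' ((T3_hodge j had).1 hy)] at h1
    exact hw (by rw [h1, map_zero])
  · intro m p hp x hx hy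
    exact (T3_hodge j had).1 (hS.sigma m p hp _ ((T3_hodge j had).2 hx) _ ((T3_hodge j had).2 hy)
      ((T3_power j had hmu (N - p)).2 rfl))
  · intro p q hq x hx hy
    exact (T3_hodge j had).1 (hS.tau p q hq _ ((T3_hodge j had).2 hx) _ ((T3_hodge j had).2 hy)
      ((T3_power j had hmu (N - q)).2 rfl))

end MPadcHK
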