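import Pool.Agent.Lib.MP_adc574_ag_HK.DefM
import Pool.Agent.Lib.MP_adc574_ag_HK.M0
import Pool.Agent.Lib.MP_adc574_ag_HK.T3
import Pool.Agent.Lib.MP_adc574_ag_GP.BrD
import Pool.Agent.Lib.MP_adc574_ag_GP.GlCon
import Pool.Agent.Lib.MP_adc574_ag_GP.Lifts

/-!
# Moving second cohomology in coordinates
-/

set_option autoImplicit false
set_option linter.unusedSectionVars false

namespace MPadcHK

open MvPolynomial OrdRed MPadcGP

universe u

/-- The functionals which vanish on the line of the conjugate filtration, if it is in `F^1`. -/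
def Bs {β : ℕ → Type} [∀ m, Fintype (β m)] [∀ m, DecidableEq (β m)] {R : Type u} [CommRing R] (lev : ∀ m, β m → ℕ)
    (mu : ∀ m m', β m → β m' → β (m + m') → R) (L : Set (β 2 → R)) (a : ℕ) : Set (β 2 → R) :=
  {c | (∃ b, lev 2 b < 1 ∧ c = fun b' => if b = b' then 1 else 0) ∨ ∃ y ∈ MW mu L 2 a, ∃ e, c = fun b => y b e}

section

variable {k : Type u} [Field k] {A : Type u} [CommRing A] (j : A →+* k) {n : ℕ}
    {I : Ideal (MvPolynomial (Fin n) A)} {β : ℕ → Type} [∀ m, Fintype (β m)] {lev : ∀ m, β m → ℕ}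
    {z : ∀ m, β m → (prC I).Ch} (had : IsAd (prC (bI j I)) lev fun m b => (prH j I).push (z m b))

/-- The coordinates of the cohomology of the literal complex. -/
private noncomputable def M1_E (m : ℕ) : (β m → k) ≃ₗ[k] (cov (prC (bI j I))).DR m :=
  (had.eqv m).trans (cmp (prC (bI j I)) m)

private theorem M1_E_apply (m : ℕ) (x : β m → k) :
    M1_E j had m x = cmp (prC (bI j I)) m (had.eqv m x) := rfl

private theorem M1_hodge {m i : ℕ} {x : β m → k} :
    M1_E j had m x ∈ (cov (prC (bI j I))).hodge m i ↔ x ∈ fl k lev m i := by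
  rw [M1_E_apply, hodge_iff, had.eqv_mem_Fil, mem_fl]

variable {mu : ∀ m m', β m → β m' → β (m + m') → A}
    (hmu : ∀ m m' a b, (prC I).cup (z m a) (z m' b) - ∑ c, mu m m' a b c • z (m + m') c ∈ (prC I).Bc (m + m'))

include hmu in
private theorem M1_prod {m m' : ℕ} {x : β m → k} {y : β m' → k} {t : β (m + m') → k} :
    (cov (prC (bI j I))).prod m m' (M1_E j had m x) (M1_E j had m' y) (M1_E j had (m + m') t) ↔
      t = ml (fun m m' a b c => j (mu m m' a b c)) m m' x y := by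
  rw [M1_E_apply, M1_E_apply, M1_E_apply, prod_iff]
  constructor
  · intro h
    exact (had.eqv (m + m')).injective (glgen_cup had hmu h)
  · rintro rfl
    obtain ⟨c, hc⟩ := CovD.cl_surjective m (had.eqv m x)
    obtain ⟨c', hc'⟩ := CovD.cl_surjective m' (had.eqv m' y)
    have h1 : (prC (bI j I)).cupRel m m' (had.eqv m x) (had.eqv m' y)
        ((prC (bI j I)).cl (m + m') ⟨_, CovD.cup_mem_Zc c.2 c'.2⟩) := ⟨c, c', _, rfl, hc, hc', rfl⟩
    have h2 := glgen_cup had hmu h1
    rw [h2] at h1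
    exact h1

include hmu in
private theorem M1_power {s : β 2 → k} {m : ℕ} {x : β m → k} : ∀ (a : ℕ) {y : β (twist m a) → k},
    (cov (prC (bI j I))).power (M1_E j had 2 s) m (M1_E j had m x) a (M1_E j had (twist m a) y) ↔
      y = pw (fun m m' a b c => j (mu m m' a b c)) s m x a := by
  intro a
  induction a with
  | zero =>
    intro y
    constructor
    · intro h
      exact (M1_E j had m).injective h
    · intro h
      exact congrArg (M1_E j had m) h
  | succ a ih =>
    intro y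
    constructor
    · rintro ⟨w, hw, hp⟩
      obtain ⟨w', rfl⟩ := (M1_E j had (twist m a)).surjective w
      have h1 := ih.1 hw
      have h2 := (M1_prod j had hmu).1 hp
      rw [h1] at h2
      exact h2
    · intro h
      refine ⟨M1_E j had (twist m a) (pw (fun m m' a b c => j (mu m m' a b c)) s m x a), ih.2 rfl, ?_⟩
      exact (M1_prod j had hmu).2 h

end

section

variable {k : Type u} [Field k] {A : Subalgebra ℤ k} {n : ℕ} {I : Ideal (MvPolynomial (Fin n) A)} {β : ℕ → Type}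
    [∀ m, Fintype (β m)] [∀ m, DecidableEq (β m)] {lev : ∀ m, β m → ℕ} {z : ∀ m, β m → (prC I).Ch} {h : ℕ → ℕ → ℕ}

/-- The coordinates of logarithmic classes. -/
theorem log_coord (hD : Dat I lev z h) {L : Set (β 2 → A)} (S : Set (prC I).Ch)
    (hSL : ∀ c ∈ S, ∃ g ∈ L, c - ∑ b, g b • z 2 b ∈ (prC I).Bc 2)
    (hS : ∀ x, IsLogCoc (prC (bI (algebraMap A k) I)) 2 1 x →
      x ∈ Submodule.span k ((prH (algebraMap A k) _).push '' S) ⊔ CovD.Bc _ 2) {s : β 2 → k}
    (hs : (hD.ad k (algebraMap A k)).eqv 2 s ∈ (prC (bI (algebraMap A k) I)).logClasses 2 1) :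
    s ∈ Submodule.span k {v : β 2 → k | ∃ g ∈ L, v = fun b => algebraMap A k (g b)} := by
  have had := hD.ad k (algebraMap A k)
  obtain ⟨c, hc, hcJ⟩ := hs
  have h1 : (c : (prC (bI (algebraMap A k) I)).Ch) ∈
      Submodule.span k ((prH (algebraMap A k) I).push '' S) ⊔ CovD.Bc _ 2 := hS _ ⟨c.2, hcJ⟩
  have h2 : ∀ y ∈ Submodule.span k ((prH (algebraMap A k) I).push '' S),
      ∃ g ∈ Submodule.span k {v : β 2 → k | ∃ g ∈ L, v = fun b => algebraMap A k (g b)},
        y - ∑ b, g b • (prH (algebraMap A k) I).push (z 2 b) ∈ (prC (bI (algebraMap A k) I)).Bc 2 := by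
    intro y hy
    induction hy using Submodule.span_induction with
    | mem y hy =>
      obtain ⟨c', hc', rfl⟩ := hy
      obtain ⟨g, hgL, hgc⟩ := hSL c' hc'
      refine ⟨fun b => algebraMap A k (g b), Submodule.subset_span ⟨g, hgL, rfl⟩, ?_⟩
      have h3 := push_mem_Bc (F := prH (algebraMap A k) I) hgc
      rw [map_sub, push_lin] at h3
      exact h3
    | zero =>
      refine ⟨0, Submodule.zero_mem _, ?_⟩
      simp only [Pi.zero_apply, zero_smul, Finset.sum_const_zero, sub_zero]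
      exact Submodule.zero_mem _
    | add y y' _ _ ih ih' =>
      obtain ⟨g, hg1, hg2⟩ := ih
      obtain ⟨g', hg1', hg2'⟩ := ih'
      refine ⟨g + g', Submodule.add_mem _ hg1 hg1', ?_⟩
      have h3 := Submodule.add_mem _ hg2 hg2'
      simp only [Pi.add_apply, add_smul, Finset.sum_add_distrib]
      rw [add_sub_add_comm]
      exact h3
    | smul a y _ ih =>
      obtain ⟨g, hg1, hg2⟩ := ih
      refine ⟨a • g, Submodule.smul_mem _ _ hg1, ?_⟩
      have h3 := Submodule.smul_mem _ a hg2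
      simp only [Pi.smul_apply, smul_assoc]
      rw [← Finset.smul_sum, ← smul_sub]
      exact h3
  obtain ⟨y, hy, y', hy', hyy⟩ := Submodule.mem_sup.1 h1
  obtain ⟨g, hgP, hgy⟩ := h2 y hy
  have h4 : (c : (prC (bI (algebraMap A k) I)).Ch) -
      ∑ b, g b • (prH (algebraMap A k) I).push (z 2 b) ∈ (prC (bI (algebraMap A k) I)).Bc 2 := by
    rw [← hyy, add_sub_right_comm]
    exact Submodule.add_mem _ hgy hy'
  have h5 := had.cl_eq_eqv 2 c g h4
  rw [hc] at h5
  rw [(had.eqv 2).injective h5]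
  exact hgP

/-- Moving second cohomology in coordinates: the functionals have no common zero. -/
theorem ann_of_moving (hI : IsHomog I) (hD : Dat I lev z h) {N₀ : ℕ} {D : Fin N₀ → Derivation ℤ A A}
    (hg : Good' A D) (V : ∀ l, Lft (prC I) (D l)) {G : ∀ m, Fin N₀ → β m → β m → A}
    {mu : ∀ m m', β m → β m' → β (m + m') → A} {Lg : ∀ m : ℕ, ℕ → Set (β m → A)} (hR : LinRel I z V G mu Lg)
    (S : Set (prC I).Ch) (hSL : ∀ c ∈ S, ∃ g ∈ Lg 2 1, c - ∑ b, g b • z 2 b ∈ (prC I).Bc 2)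
    (hS : ∀ x, IsLogCoc (prC (bI (algebraMap A k) I)) 2 1 x →
      x ∈ Submodule.span k ((prH (algebraMap A k) _).push '' S) ⊔ CovD.Bc _ 2) {N : ℕ}
    (hM : Moving (cov (prC (bI (algebraMap A k) I))) N) :
    ∀ x ∈ Ann D (G 2) (Bs lev mu (Lg 2 1) (2 * N - 1)) (algebraMap A k), x = 0 := by
  have had := hD.ad k (algebraMap A k)
  obtain ⟨W, hW⟩ : ∃ W, W = Ann D (G 2) (Bs lev mu (Lg 2 1) (2 * N - 1)) (algebraMap A k) := ⟨_, rfl⟩
  have hcoord : ∀ x ∈ W, ∀ b, lev 2 b < 1 → x b = 0 := by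
    intro x hx b hb
    rw [hW] at hx
    have h1 := hx _ (Fn.base _ (Or.inl ⟨b, hb, rfl⟩))
    rw [Finset.sum_eq_single b] at h1
    · rw [if_pos rfl, map_one, one_mul] at h1
      exact h1
    · intro b' _ hb'
      rw [if_neg hb'.symm, map_zero, zero_mul]
    · intro h'
      exact absurd (Finset.mem_univ _) h'
  have hbot := hM.2 (W.map (M1_E (algebraMap A k) had 2).toLinearMap) ?_ ?_ ?_
  · rw [← hW]
    intro x hx
    have h1 : M1_E (algebraMap A k) had 2 x ∈ W.map (M1_E (algebraMap A k) had 2).toLinearMap := ⟨x, hx, rfl⟩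
    rw [hbot, Submodule.mem_bot] at h1
    exact (LinearEquiv.map_eq_zero_iff _).1 h1
  · rintro _ ⟨x, hx, rfl⟩
    exact (M1_hodge (algebraMap A k) had).2 (mem_fl.2 (hcoord x hx))
  · rintro D' _ ⟨x, hx, rfl⟩ y hy
    obtain ⟨y, rfl⟩ := (M1_E (algebraMap A k) had 2).surjective y
    obtain ⟨α, hα⟩ := hg.der D'
    have hα' : ∀ a, D' (algebraMap A k a) = ∑ l, α l * algebraMap A k (D l a) := hα
    obtain ⟨V'', hV''⟩ := exists_lft_map hI (algebraMap A k) D V α D' hα'
    have h1 := nabla_imp V'' hy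
    have h2 := glgen_nab had V hR.gm (fun m b => (hD.self.mem m b).1) α V'' hV'' h1
    have h3 := (had.eqv 2).injective h2
    refine ⟨y, ?_, rfl⟩
    have h4 := Ann_stable (D := D) (G := G 2) (S := Bs lev mu (Lg 2 1) (2 * N - 1)) (algebraMap A k) D' α hα'
      (x := x) (hW ▸ hx)
    rw [h3, hW]
    exact h4
  · rintro _ ⟨x, hx, rfl⟩ y hy w hw
    obtain ⟨s, rfl⟩ := (M1_E (algebraMap A k) had 2).surjective y
    obtain ⟨w, rfl⟩ := (M1_E (algebraMap A k) had (twist 2 (2 * N - 1))).surjective w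
    have h1 := (M1_power (algebraMap A k) had hR.cup (2 * N - 1)).1 hw
    have h2 := log_coord hD S hSL hS (dlog_iff.1 hy)
    have h3 := pw_mem_span (algebraMap A k) mu (Lg 2 1) h2 2 x (2 * N - 1)
    rw [← h1] at h3
    have h4 : Submodule.span k {v : β (twist 2 (2 * N - 1)) → k | ∃ y ∈ MW mu (Lg 2 1) 2 (2 * N - 1),
        v = fun e => ∑ b, algebraMap A k (y b e) * x b} ≤ ⊥ := by
      rw [Submodule.span_le]
      rintro _ ⟨y, hy, rfl⟩
      rw [SetLike.mem_coe, Submodule.mem_bot]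
      funext e
      rw [hW] at hx
      exact hx _ (Fn.base _ (Or.inr ⟨y, hy, e, rfl⟩))
    rw [(Submodule.mem_bot k).1 (h4 h3), map_zero]

end

end MPadcHK
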