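import Mathlib

/-!
# Symplectic type: linear implications as identities
-/

set_option autoImplicit false
set_option linter.unusedSectionVars false

namespace MPadcHK

universe u v w

/-- LEAF T1. -/
theorem exists_coef {k : Type u} [Field k] {β : Type v} {γ : Type w} [Fintype β] [Fintype γ] [DecidableEq β]
    (M : γ → β → k) (U V : β → Prop)
    (h : ∀ x : β → k, (∀ b, ¬ U b → x b = 0) → (∀ c, ∑ b, M c b * x b = 0) → ∀ b, V b → x b = 0) :
    ∃ L : β → γ → k, ∀ b, V b → ∀ b', U b' → ∑ c, L b c * M c b' = if b = b' then 1 else 0 := by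
  classical
  have key : ∀ b, V b → ∃ L : γ → k, ∀ b', U b' → ∑ c, L c * M c b' = if b = b' then 1 else 0 := by
    intro b hb
    obtain ⟨fam, hfam⟩ : ∃ fam : γ ⊕ {b' : β // ¬ U b'} → ((β → k) →ₗ[k] k),
        fam = Sum.elim (fun c => ∑ b', M c b' • LinearMap.proj (R := k) (φ := fun _ : β => k) b')
          (fun b' => LinearMap.proj (R := k) (φ := fun _ : β => k) b'.1) := ⟨_, rfl⟩
    have hinl : ∀ c x, fam (Sum.inl c) x = ∑ b', M c b' * x b' := by
      intro c x
      rw [hfam, Sum.elim_inl, LinearMap.sum_apply]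
      exact Finset.sum_congr rfl fun b' _ => rfl
    have hinr : ∀ b' x, fam (Sum.inr b') x = x b'.1 := by
      intro b' x
      rw [hfam, Sum.elim_inr]
      rfl
    have hker : (⨅ i, LinearMap.ker (fam i)) ≤
        LinearMap.ker (LinearMap.proj (R := k) (φ := fun _ : β => k) b) := by
      intro x hx
      rw [Submodule.mem_iInf] at hx
      rw [LinearMap.mem_ker]
      show x b = 0
      refine h x (fun b' hb' => ?_) (fun c => ?_) b hb
      · have h1 := hx (Sum.inr ⟨b', hb'⟩)
        rw [LinearMap.mem_ker, hinr] at h1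
        exact h1
      · have h1 := hx (Sum.inl c)
        rw [LinearMap.mem_ker, hinl] at h1
        exact h1
    have hmem := mem_span_of_iInf_ker_le_ker hker
    obtain ⟨a, ha⟩ := (Submodule.mem_span_range_iff_exists_fun k).1 hmem
    refine ⟨fun c => a (Sum.inl c), fun b' hb' => ?_⟩
    have h1 := congrArg (fun φ : (β → k) →ₗ[k] k => φ (Pi.single b' 1)) ha
    have h2 : (∑ i, a i • fam i) (Pi.single b' 1) = ∑ c, a (Sum.inl c) * M c b' := by
      rw [LinearMap.sum_apply, Fintype.sum_sum_type]
      have h3 : ∑ x : {b' : β // ¬ U b'}, (a (Sum.inr x) • fam (Sum.inr x)) (Pi.single b' 1) = 0 := by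
        refine Finset.sum_eq_zero fun x _ => ?_
        rw [LinearMap.smul_apply, hinr, smul_eq_mul]
        have h4 : x.1 ≠ b' := fun h => x.2 (h ▸ hb')
        rw [Pi.single_eq_of_ne h4, mul_zero]
      rw [h3, add_zero]
      refine Finset.sum_congr rfl fun c _ => ?_
      rw [LinearMap.smul_apply, hinl, smul_eq_mul]
      have h5 : ∑ b'', M c b'' * (Pi.single b' 1 : β → k) b'' = M c b' := by
        rw [Finset.sum_eq_single b']
        · rw [Pi.single_eq_same, mul_one]
        · intro b'' _ hb''
          rw [Pi.single_eq_of_ne hb'', mul_zero]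
        · intro h6
          exact absurd (Finset.mem_univ _) h6
      rw [h5]
    have h6 : (LinearMap.proj (R := k) (φ := fun _ : β => k) b) (Pi.single b' 1) = if b = b' then 1 else 0 := by
      show (Pi.single b' 1 : β → k) b = _
      rw [Pi.single_apply]
    rw [← h2, ← h6]
    exact h1
  choose! L hL using key
  exact ⟨L, hL⟩

/-- LEAF T1'. -/
theorem of_coef {E : Type u} [CommRing E] {β : Type v} {γ : Type w} [Fintype β] [Fintype γ] [DecidableEq β]
    (M : γ → β → E) (U V : β → Prop) (L : β → γ → E)
    (h : ∀ b, V b → ∀ b', U b' → ∑ c, L b c * M c b' = if b = b' then 1 else 0) (x : β → E)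
    (hx : ∀ b, ¬ U b → x b = 0) (hM : ∀ c, ∑ b, M c b * x b = 0) (b : β) (hb : V b) : x b = 0 := by
  have h1 : ∑ c, L b c * ∑ b', M c b' * x b' = x b := by
    have h2 : ∑ c, L b c * ∑ b', M c b' * x b' = ∑ b', (∑ c, L b c * M c b') * x b' := by
      simp_rw [Finset.mul_sum, Finset.sum_mul]
      rw [Finset.sum_comm]
      refine Finset.sum_congr rfl fun b' _ => Finset.sum_congr rfl fun c _ => ?_
      ring
    rw [h2]
    have h3 : ∀ b', (∑ c, L b c * M c b') * x b' = if b = b' then x b' else 0 := by
      intro b'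
      by_cases hb' : U b'
      · rw [h b hb b' hb']
        split_ifs
        · exact one_mul _
        · exact zero_mul _
      · rw [hx b' hb', mul_zero]
        split_ifs <;> rfl
    rw [Finset.sum_congr rfl fun b' _ => h3 b', Finset.sum_ite_eq]
    exact if_pos (Finset.mem_univ b)
  rw [← h1]
  refine Finset.sum_eq_zero fun c _ => ?_
  rw [hM c, mul_zero]

end MPadcHK
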