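import Pool.Agent.Lib.MP_adc574_ag_HK.LDefs
import Pool.Agent.Lib.MP_adc574_ag_HK.T1

/-!
# Symplectic type: spreading out
-/

set_option autoImplicit false
set_option linter.unusedSectionVars false

namespace MPadcHK

universe u

section

variable {β : ℕ → Type} [∀ m, Fintype (β m)] {R : Type u} [CommRing R]

private theorem T2_ml_map {R' : Type u} [CommRing R'] (φ : R →+* R') (mu : ∀ m m', β m → β m' → β (m + m') → R)
    (m m' : ℕ) (x : β m → R) (y : β m' → R) (c : β (m + m')) :
    ml (fun m m' a b c => φ (mu m m' a b c)) m m' (fun b => φ (x b)) (fun b => φ (y b)) c = φ (ml mu m m' x y c) := by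
  unfold ml
  rw [map_sum]
  refine Finset.sum_congr rfl fun a _ => ?_
  rw [map_sum]
  refine Finset.sum_congr rfl fun b _ => ?_
  rw [map_mul, map_mul]

private theorem T2_pw_map {R' : Type u} [CommRing R'] (φ : R →+* R') (mu : ∀ m m', β m → β m' → β (m + m') → R)
    (s : β 2 → R) (m : ℕ) (x : β m → R) (a : ℕ) :
    pw (fun m m' a b c => φ (mu m m' a b c)) (fun b => φ (s b)) m (fun b => φ (x b)) a =
      fun c => φ (pw mu s m x a c) := by
  induction a with
  | zero => rfl
  | succ a ih =>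
    funext c
    change ml (fun m m' a b c => φ (mu m m' a b c)) 2 (OrdRed.twist m a) (fun b => φ (s b))
      (pw (fun m m' a b c => φ (mu m m' a b c)) (fun b => φ (s b)) m (fun b => φ (x b)) a) c = _
    rw [ih]
    exact T2_ml_map φ mu 2 (OrdRed.twist m a) s (pw mu s m x a) c

private theorem T2_ml_add (mu : ∀ m m', β m → β m' → β (m + m') → R) (m m' : ℕ) (x : β m → R) (y y' : β m' → R) :
    ml mu m m' x (y + y') = ml mu m m' x y + ml mu m m' x y' := by
  funext c
  change ∑ a, ∑ b, mu m m' a b c * (x a * (y + y') b) =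
    ∑ a, ∑ b, mu m m' a b c * (x a * y b) + ∑ a, ∑ b, mu m m' a b c * (x a * y' b)
  rw [← Finset.sum_add_distrib]
  refine Finset.sum_congr rfl fun a _ => ?_
  rw [← Finset.sum_add_distrib]
  refine Finset.sum_congr rfl fun b _ => ?_
  rw [Pi.add_apply]
  ring

private theorem T2_ml_smul (mu : ∀ m m', β m → β m' → β (m + m') → R) (m m' : ℕ) (x : β m → R) (r : R)
    (y : β m' → R) : ml mu m m' x (r • y) = r • ml mu m m' x y := by
  funext c
  change ∑ a, ∑ b, mu m m' a b c * (x a * (r • y) b) = r * ∑ a, ∑ b, mu m m' a b c * (x a * y b)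
  rw [Finset.mul_sum]
  refine Finset.sum_congr rfl fun a _ => ?_
  rw [Finset.mul_sum]
  refine Finset.sum_congr rfl fun b _ => ?_
  rw [Pi.smul_apply, smul_eq_mul]
  ring

private theorem T2_pw_add (mu : ∀ m m', β m → β m' → β (m + m') → R) (s : β 2 → R) (m a : ℕ) (x y : β m → R) :
    pw mu s m (x + y) a = pw mu s m x a + pw mu s m y a := by
  induction a with
  | zero => rfl
  | succ a ih =>
    change ml mu 2 (OrdRed.twist m a) s (pw mu s m (x + y) a) = ml mu 2 (OrdRed.twist m a) s (pw mu s m x a) +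
      ml mu 2 (OrdRed.twist m a) s (pw mu s m y a)
    rw [ih, T2_ml_add]

private theorem T2_pw_smul (mu : ∀ m m', β m → β m' → β (m + m') → R) (s : β 2 → R) (m a : ℕ) (r : R) (x : β m → R) :
    pw mu s m (r • x) a = r • pw mu s m x a := by
  induction a with
  | zero => rfl
  | succ a ih =>
    change ml mu 2 (OrdRed.twist m a) s (pw mu s m (r • x) a) = r • ml mu 2 (OrdRed.twist m a) s (pw mu s m x a)
    rw [ih, T2_ml_smul]

private def T2_pw (mu : ∀ m m', β m → β m' → β (m + m') → R) (s : β 2 → R) (m a : ℕ) :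
    (β m → R) →ₗ[R] (β (OrdRed.twist m a) → R) where
  toFun x := pw mu s m x a
  map_add' := T2_pw_add mu s m a
  map_smul' := T2_pw_smul mu s m a

private theorem T2_pw_sum [∀ m, DecidableEq (β m)] (mu : ∀ m m', β m → β m' → β (m + m') → R) (s : β 2 → R)
    (m a : ℕ) (x : β m → R) (c : β (OrdRed.twist m a)) :
    pw mu s m x a c = ∑ b, pw mu s m (fun j => if b = j then 1 else 0) a c * x b := by
  have h := congrFun (LinearMap.pi_apply_eq_sum_univ (T2_pw mu s m a) x) c
  rw [Finset.sum_apply] at h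
  refine h.trans (Finset.sum_congr rfl fun b _ => ?_)
  rw [Pi.smul_apply, smul_eq_mul, mul_comm]
  rfl

private theorem T2_ml_single [∀ m, DecidableEq (β m)] (mu : ∀ m m', β m → β m' → β (m + m') → R) (m m' : ℕ)
    (x : β m → R) (b' : β m') (c : β (m + m')) :
    ml mu m m' x (fun j => if b' = j then 1 else 0) c = ∑ a, mu m m' a b' c * x a := by
  change ∑ a, ∑ b, mu m m' a b c * (x a * if b' = b then 1 else 0) = _
  refine Finset.sum_congr rfl fun a _ => ?_
  rw [Finset.sum_eq_single b']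
  · rw [if_pos rfl, mul_one]
  · intro b _ hb
    rw [if_neg hb.symm, mul_zero, mul_zero]
  · intro h
    exact absurd (Finset.mem_univ b') h

private theorem T2_ml_zero {lev : ∀ m, β m → ℕ} (mu : ∀ m m', β m → β m' → β (m + m') → R) (m m' i : ℕ)
    (x : β m → R) (h : ∀ b', i ≤ lev m' b' → ∀ c, ∑ a, mu m m' a b' c * x a = 0) (y : β m' → R)
    (hy : y ∈ fl R lev m' i) : ml mu m m' x y = 0 := by
  funext c
  change ∑ a, ∑ b, mu m m' a b c * (x a * y b) = 0
  rw [Finset.sum_comm]
  refine Finset.sum_eq_zero fun b _ => ?_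
  rcases Nat.lt_or_ge (lev m' b) i with hb | hb
  · refine Finset.sum_eq_zero fun a _ => ?_
    rw [mem_fl.1 hy b hb, mul_zero, mul_zero]
  · have h1 := h b hb c
    calc ∑ a, mu m m' a b c * (x a * y b) = (∑ a, mu m m' a b c * x a) * y b := by
          rw [Finset.sum_mul]
          exact Finset.sum_congr rfl fun a _ => by ring
      _ = 0 := by rw [h1, zero_mul]

private theorem T2_single [∀ m, DecidableEq (β m)] {lev : ∀ m, β m → ℕ} (m i : ℕ) (b' : β m) (h : i ≤ lev m b') :
    (fun j => if b' = j then 1 else 0 : β m → R) ∈ fl R lev m i := by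
  refine mem_fl.2 fun b hb => ?_
  rw [if_neg]
  rintro rfl
  omega

private theorem T2_mul_iff [∀ m, DecidableEq (β m)] (lev : ∀ m, β m → ℕ)
    (mu : ∀ m m', β m → β m' → β (m + m') → R) :
    (∀ m m' i i', ∀ x ∈ fl R lev m i, ∀ y ∈ fl R lev m' i', ml mu m m' x y ∈ fl R lev (m + m') (i + i')) ↔
      ∀ m m' a b c, lev (m + m') c < lev m a + lev m' b → mu m m' a b c = 0 := by
  constructor
  · intro h m m' a b c hc
    have h1 := mem_fl.1 (h m m' (lev m a) (lev m' b) (fun j => if a = j then 1 else 0) (T2_single m _ a le_rfl)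
      (fun j => if b = j then 1 else 0) (T2_single m' _ b le_rfl)) c hc
    rw [T2_ml_single] at h1
    rw [← h1, Finset.sum_eq_single a]
    · rw [if_pos rfl, mul_one]
    · intro a' _ ha
      rw [if_neg ha.symm, mul_zero]
    · intro h
      exact absurd (Finset.mem_univ a) h
  · intro h m m' i i' x hx y hy
    refine mem_fl.2 fun c hc => ?_
    change ∑ a, ∑ b, mu m m' a b c * (x a * y b) = 0
    refine Finset.sum_eq_zero fun a _ => Finset.sum_eq_zero fun b _ => ?_
    rcases Nat.lt_or_ge (lev m a) i with ha | ha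
    · rw [mem_fl.1 hx a ha, zero_mul, mul_zero]
    · rcases Nat.lt_or_ge (lev m' b) i' with hb | hb
      · rw [mem_fl.1 hy b hb, mul_zero, mul_zero]
      · rw [h m m' a b c (by omega), zero_mul]

end

private theorem T2_one {k : Type u} [Field k] (A₂ : Subalgebra ℤ k) {B C : Type} [Fintype B] [Fintype C]
    [DecidableEq B] (M₂ : C → B → A₂) (U V : B → Prop) (L : B → C → k) (hL : ∀ b c, L b c ∈ A₂)
    (h : ∀ b, V b → ∀ b', U b' → ∑ c, L b c * (M₂ c b' : k) = if b = b' then 1 else 0) (E : Type u) [Field E]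
    (φ : A₂ →+* E) (x : B → E) (hx : ∀ b, ¬ U b → x b = 0) (hM : ∀ c, ∑ b, φ (M₂ c b) * x b = 0) (b : B)
    (hb : V b) : x b = 0 := by
  refine of_coef (fun c b => φ (M₂ c b)) U V (fun b c => φ ⟨L b c, hL b c⟩) ?_ x hx hM b hb
  intro b hb b' hb'
  have h1 : ∑ c, (⟨L b c, hL b c⟩ : A₂) * M₂ c b' = if b = b' then 1 else 0 := by
    apply Subtype.ext
    have h2 := h b hb b' hb'
    have h3 : ((∑ c, (⟨L b c, hL b c⟩ : A₂) * M₂ c b' : A₂) : k) = ∑ c, L b c * (M₂ c b' : k) := by
      refine (map_sum A₂.val _ _).trans (Finset.sum_congr rfl fun c _ => ?_)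
      rfl
    rw [h3, h2]
    split_ifs <;> rfl
  have h2 := congrArg φ h1
  rw [map_sum] at h2
  have h3 : ∑ c, φ ⟨L b c, hL b c⟩ * φ (M₂ c b') = ∑ c, φ ((⟨L b c, hL b c⟩ : A₂) * M₂ c b') :=
    Finset.sum_congr rfl fun c _ => (map_mul φ _ _).symm
  rw [h3, h2]
  split_ifs
  · exact map_one φ
  · exact map_zero φ

/-- LEAF T2. -/
theorem symp_spread {k : Type u} [Field k] {β : ℕ → Type} [∀ m, Fintype (β m)] [∀ m, DecidableEq (β m)]
    {lev : ∀ m, β m → ℕ} (A₁ : Subalgebra ℤ k) (mu : ∀ m m', β m → β m' → β (m + m') → A₁) {N : ℕ} {s t : β 2 → k}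
    (hS : Symp lev (fun m m' a b c => (mu m m' a b c : k)) N s t) :
    ∃ S : Set k, S.Finite ∧ ∀ (A₂ : Subalgebra ℤ k) (h12 : A₁ ≤ A₂), S ⊆ A₂ → ∃ s₂ t₂ : β 2 → A₂,
      ∀ (E : Type u) [Field E] (φ : A₂ →+* E),
        Symp lev (fun m m' a b c => φ (Subalgebra.inclusion h12 (mu m m' a b c))) N (fun b => φ (s₂ b))
          fun b => φ (t₂ b) := by
  classical
  obtain ⟨muk, hmuk⟩ : ∃ muk : ∀ m m', β m → β m' → β (m + m') → k, muk = fun m m' a b c => (mu m m' a b c : k) :=
    ⟨_, rfl⟩
  rw [← hmuk] at hS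
  -- the coefficients
  have hD : ∀ m m' p, ∃ L : β m → ({b' : β m' // 2 * N - p ≤ lev m' b'} × β (m + m')) → k, m + m' = 4 * N →
      ∀ b, lev m b < p + 1 → ∀ b', p ≤ lev m b' → ∑ c, L b c * muk m m' b' c.1.1 c.2 = if b = b' then 1 else 0 := by
    intro m m' p
    by_cases hm : m + m' = 4 * N
    · obtain ⟨L, hL⟩ := exists_coef
        (fun (c : {b' : β m' // 2 * N - p ≤ lev m' b'} × β (m + m')) (b : β m) => muk m m' b c.1.1 c.2)
        (fun b => p ≤ lev m b) (fun b => lev m b < p + 1) (fun x hx hc b hb => by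
          refine mem_fl.1 (hS.dual m m' hm p x (mem_fl.2 fun b hb => hx b (by omega)) fun y hy => ?_) b hb
          exact T2_ml_zero muk m m' (2 * N - p) x (fun b' hb' c => hc (⟨b', hb'⟩, c)) y hy)
      exact ⟨L, fun _ => hL⟩
    · exact ⟨fun _ _ => 0, fun h => absurd h hm⟩
  have hSg : ∀ m p, ∃ L : β m → {c : β (OrdRed.twist m (N - p)) // lev _ c < 2 * N - p + 1} → k, p ≤ N →
      ∀ b, lev m b < p + 1 → ∀ b', p ≤ lev m b' →
        ∑ c, L b c * pw muk s m (fun j => if b' = j then 1 else 0) (N - p) c.1 = if b = b' then 1 else 0 := by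
    intro m p
    by_cases hp : p ≤ N
    · obtain ⟨L, hL⟩ := exists_coef
        (fun (c : {c : β (OrdRed.twist m (N - p)) // lev _ c < 2 * N - p + 1}) (b : β m) =>
          pw muk s m (fun j => if b = j then 1 else 0) (N - p) c.1)
        (fun b => p ≤ lev m b) (fun b => lev m b < p + 1) (fun x hx hc b hb => by
          refine mem_fl.1 (hS.sigma m p hp x (mem_fl.2 fun b hb => hx b (by omega)) (mem_fl.2 fun c hcl => ?_)) b hb
          rw [T2_pw_sum]
          exact hc ⟨c, hcl⟩)
      exact ⟨L, fun _ => hL⟩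
    · exact ⟨fun _ _ => 0, fun h => absurd h hp⟩
  have hTa : ∀ p q, ∃ L : β (p + q) → {c : β (OrdRed.twist (p + q) (N - q)) // lev _ c < p + 1} → k, q ≤ N →
      ∀ b, lev (p + q) b < p + 1 → ∀ b', p ≤ lev (p + q) b' →
        ∑ c, L b c * pw muk t (p + q) (fun j => if b' = j then 1 else 0) (N - q) c.1 = if b = b' then 1 else 0 := by
    intro p q
    by_cases hq : q ≤ N
    · obtain ⟨L, hL⟩ := exists_coef
        (fun (c : {c : β (OrdRed.twist (p + q) (N - q)) // lev _ c < p + 1}) (b : β (p + q)) =>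
          pw muk t (p + q) (fun j => if b = j then 1 else 0) (N - q) c.1)
        (fun b => p ≤ lev (p + q) b) (fun b => lev (p + q) b < p + 1) (fun x hx hc b hb => by
          refine mem_fl.1 (hS.tau p q hq x (mem_fl.2 fun b hb => hx b (by omega)) (mem_fl.2 fun c hcl => ?_)) b hb
          rw [T2_pw_sum]
          exact hc ⟨c, hcl⟩)
      exact ⟨L, fun _ => hL⟩
    · exact ⟨fun _ _ => 0, fun h => absurd h hq⟩
  choose LD hLD using hD
  choose LS hLS using hSg
  choose LT hLT using hTa
  refine ⟨Set.range s ∪ (Set.range t ∪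
    ((⋃ i : Fin (4 * N + 1) × Fin (4 * N + 1) × Fin (4 * N + 1), Set.range fun z : _ × _ =>
      LD i.1 i.2.1 i.2.2 z.1 z.2) ∪
    ((⋃ i : Fin (4 * N + 1) × Fin (N + 1), Set.range fun z : _ × _ => LS i.1 i.2 z.1 z.2) ∪
      ⋃ i : Fin (4 * N + 1) × Fin (N + 1), Set.range fun z : _ × _ => LT i.1 i.2 z.1 z.2))), ?_, ?_⟩
  · exact (Set.finite_range s).union ((Set.finite_range t).union
      ((Set.finite_iUnion fun i => Set.finite_range _).union
        ((Set.finite_iUnion fun i => Set.finite_range _).union (Set.finite_iUnion fun i => Set.finite_range _))))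
  · intro A₂ h12 hSA
    rw [Set.union_subset_iff, Set.union_subset_iff, Set.union_subset_iff, Set.union_subset_iff] at hSA
    obtain ⟨hA1, hA2, hA3, hA4, hA5⟩ := hSA
    have hs : ∀ b, s b ∈ A₂ := fun b => hA1 (Set.mem_range_self b)
    have ht : ∀ b, t b ∈ A₂ := fun b => hA2 (Set.mem_range_self b)
    have hLDA : ∀ m m' p, m ≤ 4 * N → m' ≤ 4 * N → p ≤ 4 * N → ∀ b c, LD m m' p b c ∈ A₂ := by
      intro m m' p hm hm' hp b c
      exact hA3 (Set.mem_iUnion.2 ⟨(⟨m, by omega⟩, ⟨m', by omega⟩, ⟨p, by omega⟩), ⟨(b, c), rfl⟩⟩)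
    have hLSA : ∀ m p, m ≤ 4 * N → p ≤ N → ∀ b c, LS m p b c ∈ A₂ := by
      intro m p hm hp b c
      exact hA4 (Set.mem_iUnion.2 ⟨(⟨m, by omega⟩, ⟨p, by omega⟩), ⟨(b, c), rfl⟩⟩)
    have hLTA : ∀ p q, p ≤ 4 * N → q ≤ N → ∀ b c, LT p q b c ∈ A₂ := by
      intro p q hp hq b c
      exact hA5 (Set.mem_iUnion.2 ⟨(⟨p, by omega⟩, ⟨q, by omega⟩), ⟨(b, c), rfl⟩⟩)
    obtain ⟨mu₂, hmu₂⟩ : ∃ mu₂ : ∀ m m', β m → β m' → β (m + m') → A₂,
        mu₂ = fun m m' a b c => Subalgebra.inclusion h12 (mu m m' a b c) := ⟨_, rfl⟩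
    have hmu₂k : (fun m m' a b c => A₂.val.toRingHom (mu₂ m m' a b c)) = muk := by
      rw [hmu₂, hmuk]
      rfl
    refine ⟨fun b => ⟨s b, hs b⟩, fun b => ⟨t b, ht b⟩, fun E _ φ => ?_⟩
    have hmuE : (fun m m' a b c => φ (Subalgebra.inclusion h12 (mu m m' a b c))) =
        fun m m' a b c => φ (mu₂ m m' a b c) := by
      rw [hmu₂]
    rw [hmuE]
    -- the matrices of the powers
    have hone : ∀ {R' : Type u} [CommRing R'] (ψ : A₂ →+* R') (m : ℕ) (b : β m),
        (fun j => ψ (if b = j then 1 else 0)) = fun j => if b = j then (1 : R') else 0 := by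
      intro R' _ ψ m b
      funext j
      split_ifs
      · exact map_one ψ
      · exact map_zero ψ
    have hpk : ∀ (s' : β 2 → A₂) (m a : ℕ) (b : β m) (c : β (OrdRed.twist m a)),
        ((pw mu₂ s' m (fun j => if b = j then 1 else 0) a c : A₂) : k) =
          pw muk (fun b => (s' b : k)) m (fun j => if b = j then 1 else 0) a c := by
      intro s' m a b c
      have h1 := congrFun (T2_pw_map A₂.val.toRingHom mu₂ s' m (fun j => if b = j then 1 else 0) a) c
      rw [hmu₂k, hone] at h1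
      exact h1.symm
    have hpE : ∀ (s' : β 2 → A₂) (m a : ℕ) (b : β m) (c : β (OrdRed.twist m a)),
        φ (pw mu₂ s' m (fun j => if b = j then 1 else 0) a c) =
          pw (fun m m' a b c => φ (mu₂ m m' a b c)) (fun b => φ (s' b)) m (fun j => if b = j then 1 else 0) a c := by
      intro s' m a b c
      have h1 := congrFun (T2_pw_map φ mu₂ s' m (fun j => if b = j then 1 else 0) a) c
      rw [hone] at h1
      exact h1.symm
    refine ⟨hS.card, hS.levtop, hS.empty, hS.le, ?_, ?_, ?_, ?_, ?_⟩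
    · refine (T2_mul_iff lev _).2 fun m m' a b c hc => ?_
      have h1 := (T2_mul_iff lev _).1 hS.mulF m m' a b c hc
      have h2 : mu₂ m m' a b c = 0 := by
        apply Subtype.ext
        rw [hmu₂k.symm] at h1
        exact h1
      rw [h2, map_zero]
    · intro m m' hm p x hx hxy
      rcases Nat.lt_or_ge (4 * N) p with hp | hp
      · refine mem_fl.2 fun b _ => mem_fl.1 hx b ?_
        have h1 := hS.le m b
        omega
      · refine mem_fl.2 fun b hb => ?_
        refine T2_one A₂ (fun (c : {b' : β m' // 2 * N - p ≤ lev m' b'} × β (m + m')) (b : β m) =>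
          mu₂ m m' b c.1.1 c.2) (fun b => p ≤ lev m b) (fun b => lev m b < p + 1) (LD m m' p)
          (hLDA m m' p (by omega) (by omega) hp) ?_ E φ x (fun b hb => mem_fl.1 hx b (by omega)) ?_ b hb
        · intro b hb b' hb'
          have h1 := hLD m m' p hm b hb b' hb'
          rw [← hmu₂k] at h1
          exact h1
        · intro c
          have h1 := hxy (fun j => if c.1.1 = j then 1 else 0) (T2_single m' _ c.1.1 c.1.2)
          have h2 := congrFun h1 c.2
          rw [T2_ml_single] at h2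
          exact h2
    · refine mem_fl.2 fun b hb => ?_
      have h1 := mem_fl.1 hS.two b hb
      have h2 : (⟨s b, hs b⟩ : A₂) = 0 := Subtype.ext h1
      change φ ⟨s b, hs b⟩ = 0
      rw [h2, map_zero]
    · intro m p hp x hx hpw
      rcases Nat.lt_or_ge (4 * N) m with hm | hm
      · have h1 := hS.empty m hm
        exact mem_fl.2 fun b _ => h1.elim b
      · refine mem_fl.2 fun b hb => ?_
        refine T2_one A₂ (fun (c : {c : β (OrdRed.twist m (N - p)) // lev _ c < 2 * N - p + 1}) (b : β m) =>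
          pw mu₂ (fun b => ⟨s b, hs b⟩) m (fun j => if b = j then 1 else 0) (N - p) c.1)
          (fun b => p ≤ lev m b) (fun b => lev m b < p + 1) (LS m p) (hLSA m p hm hp) ?_ E φ x
          (fun b hb => mem_fl.1 hx b (by omega)) ?_ b hb
        · intro b hb b' hb'
          have h1 := hLS m p hp b hb b' hb'
          refine Eq.trans (Finset.sum_congr rfl fun c _ => ?_) h1
          rw [hpk]
        · intro c
          have h1 := mem_fl.1 hpw c.1 c.2
          rw [T2_pw_sum] at h1
          refine Eq.trans (Finset.sum_congr rfl fun b _ => ?_) h1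
          rw [hpE]
    · intro p q hq x hx hpw
      rcases Nat.lt_or_ge (4 * N) (p + q) with hm | hm
      · have h1 := hS.empty (p + q) hm
        exact mem_fl.2 fun b _ => h1.elim b
      · refine mem_fl.2 fun b hb => ?_
        refine T2_one A₂ (fun (c : {c : β (OrdRed.twist (p + q) (N - q)) // lev _ c < p + 1}) (b : β (p + q)) =>
          pw mu₂ (fun b => ⟨t b, ht b⟩) (p + q) (fun j => if b = j then 1 else 0) (N - q) c.1)
          (fun b => p ≤ lev (p + q) b) (fun b => lev (p + q) b < p + 1) (LT p q) (hLTA p q (by omega) hq) ?_ E φ x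
          (fun b hb => mem_fl.1 hx b (by omega)) ?_ b hb
        · intro b hb b' hb'
          have h1 := hLT p q hq b hb b' hb'
          refine Eq.trans (Finset.sum_congr rfl fun c _ => ?_) h1
          rw [hpk]
        · intro c
          have h1 := mem_fl.1 hpw c.1 c.2
          rw [T2_pw_sum] at h1
          refine Eq.trans (Finset.sum_congr rfl fun b _ => ?_) h1
          rw [hpE]

end MPadcHK
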