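import Pool.Agent.Lib.MP_adc574_ag_HK.K5
import Pool.Agent.Lib.MP_adc574_ag_HK.T2
import Pool.Agent.Lib.MP_adc574_ag_HK.T3
import Pool.Agent.Lib.MP_adc574_ag_HK.F1
import Pool.Agent.Lib.MP_adc574_ag_HK.F2
import Pool.Agent.Lib.MP_adc574_ag_HK.F4
import Pool.Agent.Lib.MP_adc574_ag_GP.BrL
import Pool.Agent.Lib.MP_adc574_ag_GP.Fin3g
import Pool.Agent.Lib.MP_adc574_ag_GP.GlCon
import Pool.Agent.Lib.MP_adc574_ag_GP.GlRel
import Pool.Agent.Lib.MP_adc574_ag_GP.R3Ov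

/-!
# Symplectic type: the main theorem
-/

set_option autoImplicit false
set_option linter.unusedSectionVars false

namespace MPadcHK

open MvPolynomial OrdRed MPadcGP

universe u v

/-- Adding finitely many elements. -/
theorem E_adjoin {k : Type u} [Field k] (A₁ : Subalgebra ℤ k) (hA₁ : A₁.FG) {S : Set k} (hS : S.Finite) :
    ∃ (A₂ : Subalgebra ℤ k) (_ : A₁ ≤ A₂), A₂.FG ∧ S ⊆ A₂ := by
  refine ⟨A₁ ⊔ Algebra.adjoin ℤ S, le_sup_left, hA₁.sup ⟨hS.toFinset, by rw [Set.Finite.coe_toFinset]⟩, fun x hx => ?_⟩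
  exact (le_sup_right : Algebra.adjoin ℤ S ≤ A₁ ⊔ Algebra.adjoin ℤ S) (Algebra.subset_adjoin hx)

/-- Opposite filtrations over a field to which the coordinates specialize. -/
theorem E_opp {A : Type u} [CommRing A] {n : ℕ} {I : Ideal (MvPolynomial (Fin n) A)} (hI : IsHomog I)
    {β : ℕ → Type} [∀ m, Fintype (β m)] [∀ m, DecidableEq (β m)] {lev : ∀ m, β m → ℕ} {z : ∀ m, β m → (prC I).Ch}
    {h : ℕ → ℕ → ℕ} (hD : Dat I lev z h) {mu : ∀ m m', β m → β m' → β (m + m') → A}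
    (hmu : ∀ m m' a b, (prC I).cup (z m a) (z m' b) - ∑ c, mu m m' a b c • z (m + m') c ∈ (prC I).Bc (m + m'))
    {κ : Type u} [Field κ] (φ : A →+* κ) (hdim : DimC (prC (bI φ I))) {N : ℕ} {s t : β 2 → κ}
    (hS : Symp lev (fun m m' a b c => φ (mu m m' a b c)) N s t)
    (hsup : (prC (bI φ I)).Con 2 0 ⊔ (prC (bI φ I)).Fil 2 1 = ⊤) : IsOppC (prC (bI φ I)) := by
  have had := hD.ad κ φ
  have hR : LinRel I z (N := 0) (D := fun l => l.elim0) (fun l => l.elim0) (fun m l => l.elim0) mu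
      (fun _ _ => ∅) := ⟨fun m l => l.elim0, hmu, fun m j g hg => hg.elim⟩
  have hC := con_conj hI hD (fun l => l.elim0) hR φ hdim
  have hP : Conj lev (fun m m' a b c => φ (mu m m' a b c)) (fun m i => (hD.ad κ φ).con m i) :=
    ⟨hC.mono, hC.dim, fun m m' i i' x hx y hy => hC.mul m m' i i' x hx y hy⟩
  have h1 : had.eqv 2 t ∈ (prC (bI φ I)).Con 2 0 ⊔ (prC (bI φ I)).Fil 2 1 := by
    rw [hsup]
    exact Submodule.mem_top
  obtain ⟨y, hy, w, hw, hyw⟩ := Submodule.mem_sup.1 h1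
  obtain ⟨l, rfl⟩ := (had.eqv 2).surjective y
  obtain ⟨r, rfl⟩ := (had.eqv 2).surjective w
  have hlr : l - t = -r := by
    apply (had.eqv 2).injective
    rw [map_sub, map_neg, ← hyw]
    abel
  have hlt : l - t ∈ fl κ lev 2 1 := by
    rw [hlr]
    exact Submodule.neg_mem _ (had.eqv_mem_Fil.1 hw)
  have hcore := core hS hP (l := l) hy hlt
  intro m i
  rw [eq_bot_iff]
  rintro x ⟨hx1, hx2⟩
  obtain ⟨c, rfl⟩ := (had.eqv m).surjective x
  have h2 : c ∈ had.con m i ⊓ fl κ lev m (i + 1) := ⟨hx1, had.eqv_mem_Fil.1 hx2⟩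
  rw [hcore m i, Submodule.mem_bot] at h2
  rw [h2, map_zero]
  exact Submodule.zero_mem _

/-- Bloch-Kato ordinarity over a finite field, from the opposite filtrations. -/
theorem E_bk {A : Type u} [CommRing A] [IsDomain A] [CharZero A] [Algebra.FiniteType ℤ A] {n : ℕ}
    {I : Ideal (MvPolynomial (Fin n) A)} (hI : IsHomog I) (hs : IsSmoothProj I) {β : ℕ → Type} [∀ m, Fintype (β m)]
    {lev : ∀ m, β m → ℕ} {z : ∀ m, β m → (prC I).Ch} {h : ℕ → ℕ → ℕ} (hD : Dat I lev z h) {p : ℕ} [Fact p.Prime]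
    {κ : Type u} [Field κ] [CharP κ p] [Finite κ] (φ : A →+* κ) (hopp : IsOppC (prC (bI φ I))) :
    (prC (bI φ I)).IsBlochKatoOrdinary :=
  bk_of_opp (p := p) (hI.map _) (hs.map hI φ) (fun q m => (hD.hodge κ φ q m).1) (dat_sum hI hs hD φ) hopp

/-- The complement of `F^1` in `H^2`. -/
theorem E_sup {A : Type u} [CommRing A] {n : ℕ}
    {I : Ideal (MvPolynomial (Fin n) A)} {β : ℕ → Type} [∀ m, Fintype (β m)]
    {lev : ∀ m, β m → ℕ} {z : ∀ m, β m → (prC I).Ch} {h : ℕ → ℕ → ℕ} (hD : Dat I lev z h) {p : ℕ} [Fact p.Prime]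
    {κ : Type u} [Field κ] [CharP κ p] [Finite κ] (φ : A →+* κ)
    (hF : (cov (prC (bI φ I))).FrobeniusInjective p 2) :
    (prC (bI φ I)).Con 2 0 ⊔ (prC (bI φ I)).Fil 2 1 = ⊤ :=
  con_sup_fil (p := p) (prC (bI φ I)) ((hD.ad κ φ).finite 2) hF

/-- The statement at a closed point, for data over `A₀` and over `A₁`, and a point above. -/
theorem E_point {A A₀ A₁ : Type u} [CommRing A] [CommRing A₀] [IsDomain A₀] [CharZero A₀] [Algebra.FiniteType ℤ A₀]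
    [CommRing A₁] [IsDomain A₁] [CharZero A₁] [Algebra.FiniteType ℤ A₁] {n : ℕ}
    {I : Ideal (MvPolynomial (Fin n) A)} (hI : IsHomog I) (ι₀ : A →+* A₀) (ι₁ : A →+* A₁)
    (hs₀ : IsSmoothProj (bI ι₀ I)) (hs₁ : IsSmoothProj (bI ι₁ I)) {β₀ : ℕ → Type} [∀ m, Fintype (β₀ m)]
    {lev₀ : ∀ m, β₀ m → ℕ} {z₀ : ∀ m, β₀ m → (prC (bI ι₀ I)).Ch} {h₀ : ℕ → ℕ → ℕ} (hD₀ : Dat (bI ι₀ I) lev₀ z₀ h₀)
    {β : ℕ → Type} [∀ m, Fintype (β m)] [∀ m, DecidableEq (β m)] {lev : ∀ m, β m → ℕ}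
    {z : ∀ m, β m → (prC (bI ι₁ I)).Ch} {h : ℕ → ℕ → ℕ} (hD : Dat (bI ι₁ I) lev z h)
    {mu : ∀ m m', β m → β m' → β (m + m') → A₁}
    (hmu : ∀ m m' a b, (prC (bI ι₁ I)).cup (z m a) (z m' b) - ∑ c, mu m m' a b c • z (m + m') c ∈
      (prC (bI ι₁ I)).Bc (m + m'))
    {p : ℕ} [Fact p.Prime] {κ κ' : Type u} [Field κ] [CharP κ p] [Finite κ] [Field κ'] [CharP κ' p] [Finite κ']
    (χ : A →+* κ) (ψ₀ : A₀ →+* κ) (hψ₀ : ψ₀.comp ι₀ = χ) (ψ : κ →+* κ') (φ : A₁ →+* κ')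
    (hψ : ψ.comp χ = φ.comp ι₁) {N : ℕ} {s t : β 2 → κ'} (hS : Symp lev (fun m m' a b c => φ (mu m m' a b c)) N s t)
    (hF : (cov (prC (bI χ I))).FrobeniusInjective p 2) : (prC (bI χ I)).IsBlochKatoOrdinary := by
  subst hψ₀
  rw [← bI_bI] at hF ⊢
  refine E_bk (p := p) (hI.map ι₀) hs₀ hD₀ ψ₀ ?_
  have hsup := E_sup (p := p) hD₀ ψ₀ hF
  have hcomp : bI ψ (bI ψ₀ (bI ι₀ I)) = bI φ (bI ι₁ I) := by
    rw [bI_bI, bI_bI, bI_bI, RingHom.comp_assoc, hψ]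
  have hsup' := con_sup_fil_ext ((hI.map ι₀).map ψ₀) ψ hsup
  rw [hcomp] at hsup'
  have hdim : DimC (prC (bI φ (bI ι₁ I))) := fun m i =>
    conj_dim (p := p) pbas_finite ((hI.map ι₁).map φ) (hs₁.map (hI.map ι₁) φ)
      (fun q m => (hD.hodge κ' φ q m).1) (dat_sum (hI.map ι₁) hs₁ hD φ) m i
  have hopp := E_opp (hI.map ι₁) hD hmu φ hdim hS hsup'
  rw [← hcomp] at hopp
  exact isOppC_of_ext ((hI.map ι₀).map ψ₀) ψ hopp

/-- LEAF E: the main theorem. -/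
theorem main {k : Type u} [Field k] [CharZero k] (A : Subalgebra ℤ k) (hA : A.FG) {n : ℕ}
    (I : Ideal (MvPolynomial (Fin n) A)) (hI : Homogeneous I) (hs : SmoothProj (change I (algebraMap A k))) {N : ℕ}
    (hX : Symplectic (proj (change I (algebraMap A k))) N) :
    ∃ b : A, b ≠ 0 ∧ ∀ 𝔪 : Ideal A, 𝔪.IsMaximal → b ∉ 𝔪 → SmoothProj (change I (Ideal.Quotient.mk 𝔪)) ∧
      ∀ p : ℕ, p.Prime → (p : A) ∈ 𝔪 → ((proj (change I (Ideal.Quotient.mk 𝔪))).Ordinary ↔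
        (proj (change I (Ideal.Quotient.mk 𝔪))).FrobeniusInjective p 2) := by
  classical
  have ft : ∀ A' : Subalgebra ℤ k, A'.FG → Algebra.FiniteType ℤ A' := fun A' h =>
    (Subalgebra.fg_iff_finiteType A').1 h
  have cz : ∀ A' : Subalgebra ℤ k, CharZero A' := fun A' =>
    ⟨fun a b h => by
      have h1 := congrArg (algebraMap A' k) h
      rw [map_natCast, map_natCast] at h1
      exact Nat.cast_injective h1⟩
  have hfA := ft A hA
  have hcA := cz A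
  have hnA : IsNoetherianRing A := Algebra.FiniteType.isNoetherianRing ℤ A
  have hI' : IsHomog I := hI
  have hs' : IsSmoothProj (bI (algebraMap A k) I) := hs
  obtain ⟨a, ha0, haff, hdat⟩ := exists_aff hI' (algebraMap A k) Subtype.val_injective hs'
  obtain ⟨A₁, h1, hA₁, hua⟩ := exists_inv A hA a ha0
  have hf₁ := ft A₁ hA₁
  have hc₁ := cz A₁
  have hsm₁ : IsSmoothProj (bI (Subalgebra.inclusion h1).toRingHom I) := haff A₁ _ hua
  obtain ⟨β, i1, i2, lev, z, h, hD⟩ := hdat A₁ (Subalgebra.inclusion h1).toRingHom hua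
  have hmu0 : ∀ m m' a b, ∃ c : β (m + m') → A₁,
      (prC (bI (Subalgebra.inclusion h1).toRingHom I)).cup (z m a) (z m' b) - ∑ e, c e • z (m + m') e ∈
        (prC (bI (Subalgebra.inclusion h1).toRingHom I)).Bc (m + m') :=
    fun m m' a b => hD.self.exists_coord (m + m') (CovD.cup_mem_Zc (hD.self.mem_Zc m a) (hD.self.mem_Zc m' b))
  choose mu hmu using hmu0
  have hIk : bI (algebraMap A₁ k) (bI (Subalgebra.inclusion h1).toRingHom I) = bI (algebraMap A k) I := by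
    rw [bI_bI]
    rfl
  have hX' : Symplectic (cov (prC (bI (algebraMap A₁ k) (bI (Subalgebra.inclusion h1).toRingHom I)))) N := by
    rw [hIk, ← proj_eq]
    exact hX
  obtain ⟨s, t, hS⟩ := symp_of_symplectic (algebraMap A₁ k) (hD.ad k (algebraMap A₁ k)) hmu hX'
  obtain ⟨S, hSf, hspread⟩ := symp_spread A₁ mu hS
  obtain ⟨A₂, h12, hA₂, hSA₂⟩ := E_adjoin A₁ hA₁ hSf
  obtain ⟨s₂, t₂, hE⟩ := hspread A₂ h12 hSA₂
  have hf₂ := ft A₂ hA₂
  have hc₂ := cz A₂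
  obtain ⟨ι, hι⟩ : ∃ ι : A →+* A₂, ι = (Subalgebra.inclusion (h1.trans h12)).toRingHom := ⟨_, rfl⟩
  have hιinj : Function.Injective ι := hι ▸ Subalgebra.inclusion_injective _
  have hfin : ι.FiniteType := by
    have h1 : (ι.comp (algebraMap ℤ A)).FiniteType := by
      have h2 : ι.comp (algebraMap ℤ A) = algebraMap ℤ A₂ := RingHom.ext_int _ _
      rw [h2, RingHom.finiteType_algebraMap]
      infer_instance
    exact RingHom.FiniteType.of_comp_finiteType h1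
  obtain ⟨f, hf0, hover⟩ := exists_basicOpen_le_range ι hfin hιinj
  have hd' : IsDomain (Localization.Away a) := away_isDomain ha0
  have hcz : CharZero (Localization.Away a) := away_charZero ha0
  have hft := away_finiteType' a
  have hu0 : IsUnit (algebraMap A (Localization.Away a) a) := IsLocalization.Away.algebraMap_isUnit a
  have hsm0 : IsSmoothProj (bI (algebraMap A (Localization.Away a)) I) := haff _ _ hu0
  obtain ⟨β₀, j1, j2, lev₀, z₀, h₀, hD₀⟩ := hdat (Localization.Away a) (algebraMap A _) hu0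
  refine ⟨a * f, mul_ne_zero ha0 hf0, fun 𝔪 h𝔪 hb => ?_⟩
  let _ : Field (A ⧸ 𝔪) := Ideal.Quotient.field 𝔪
  have ha𝔪 : Ideal.Quotient.mk 𝔪 a ≠ 0 := fun h =>
    hb (Ideal.mul_mem_right _ _ (Ideal.Quotient.eq_zero_iff_mem.1 h))
  have hf𝔪 : f ∉ 𝔪 := fun h => hb (Ideal.mul_mem_left _ _ h)
  have hu : IsUnit (Ideal.Quotient.mk 𝔪 a) := IsUnit.mk0 _ ha𝔪
  have hsm : IsSmoothProj (bI (Ideal.Quotient.mk 𝔪) I) := haff (A ⧸ 𝔪) (Ideal.Quotient.mk 𝔪) hu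
  refine ⟨hsm, fun p hp hp𝔪 => ?_⟩
  have hfact : Fact p.Prime := ⟨hp⟩
  have hcp : CharP (A ⧸ 𝔪) p := by
    refine charP_of_cast_zero hp ?_
    rw [← map_natCast (Ideal.Quotient.mk 𝔪) p, Ideal.Quotient.eq_zero_iff_mem]
    exact hp𝔪
  have hfinq : Finite (A ⧸ 𝔪) := finite_quot (p := p) 𝔪
  have hpr : proj (change I (Ideal.Quotient.mk 𝔪)) = cov (prC (bI (Ideal.Quotient.mk 𝔪) I)) := proj_eq _
  rw [hpr]
  constructor
  · intro h
    exact frobenius_of_bk (hI'.map _) hsm (ordinary_to h)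
  · intro hF
    refine ordinary_of ?_
    -- the point above
    obtain ⟨𝔔, h𝔔, h𝔔c⟩ := hover 𝔪 h𝔪.isPrime hf𝔪
    obtain ⟨𝔪', h𝔪', hle⟩ := 𝔔.exists_le_maximal h𝔔.ne_top
    have hc : 𝔪'.comap ι = 𝔪 := by
      refine (h𝔪.eq_of_le (Ideal.comap_ne_top ι h𝔪'.ne_top) ?_).symm
      rw [← h𝔔c]
      exact Ideal.comap_mono hle
    let _ : Field (A₂ ⧸ 𝔪') := Ideal.Quotient.field 𝔪'
    have hcp' : CharP (A₂ ⧸ 𝔪') p := by
      refine charP_of_cast_zero hp ?_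
      rw [← map_natCast (Ideal.Quotient.mk 𝔪') p, Ideal.Quotient.eq_zero_iff_mem, ← map_natCast ι p]
      rw [← hc] at hp𝔪
      exact hp𝔪
    have hfinq' : Finite (A₂ ⧸ 𝔪') := finite_quot (p := p) 𝔪'
    have hc1 : (Subalgebra.inclusion h12).toRingHom.comp (Subalgebra.inclusion h1).toRingHom = ι := by
      rw [hι]
      rfl
    refine E_point (p := p) (κ := A ⧸ 𝔪) (κ' := A₂ ⧸ 𝔪') hI' (algebraMap A (Localization.Away a))
      (Subalgebra.inclusion h1).toRingHom hsm0 hsm₁ hD₀ hD hmu (Ideal.Quotient.mk 𝔪)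
      (IsLocalization.Away.lift a hu) (IsLocalization.Away.lift_comp a hu) (Ideal.quotientMap 𝔪' ι hc.ge)
      ((Ideal.Quotient.mk 𝔪').comp (Subalgebra.inclusion h12).toRingHom) ?_ (hE (A₂ ⧸ 𝔪') (Ideal.Quotient.mk 𝔪')) hF
    rw [RingHom.comp_assoc, hc1]
    rfl

end MPadcHK
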