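import Pool.Agent.Lib.MP_adc574_ag_HK.M1
import Pool.Agent.Lib.MP_adc574_ag_HK.Main

/-!
# Symplectic type with moving second cohomology: the theorem
-/

set_option autoImplicit false
set_option linter.unusedSectionVars false

namespace MPadcHK

open MvPolynomial OrdRed MPadcGP

universe u v

/-- The dimension of `H^2(X, O)` in coordinates. -/
theorem mov_card {k : Type u} [Field k] {A : Type u} [CommRing A] {n : ℕ} {I : Ideal (MvPolynomial (Fin n) A)}
    {β : ℕ → Type} [∀ m, Fintype (β m)] {lev : ∀ m, β m → ℕ} {z : ∀ m, β m → (prC I).Ch} (j : A →+* k)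
    (had : IsAd (prC (bI j I)) lev fun m b => (prH j I).push (z m b))
    (h : Module.finrank k ((cov (prC (bI j I))).DR 2) = Module.finrank k ↥((cov (prC (bI j I))).hodge 2 1) + 1) :
    Fintype.card {b : β 2 // lev 2 b ≤ 0} = 1 := by
  have h1 : Module.finrank k ((cov (prC (bI j I))).DR 2) = Fintype.card (β 2) := by
    rw [← had.finrank 2]
    exact (LinearEquiv.finrank_eq (cmp (prC (bI j I)) 2)).symm
  have h2 : Module.finrank k ↥((cov (prC (bI j I))).hodge 2 1) = Fintype.card {b : β 2 // ¬ lev 2 b < 1} := by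
    rw [← had.finrank_Fil 2 1]
    have h3 : (cov (prC (bI j I))).hodge 2 1 = ((prC (bI j I)).Fil 2 1).map (cmp (prC (bI j I)) 2).toLinearMap := by
      ext x
      obtain ⟨y, rfl⟩ := (cmp (prC (bI j I)) 2).surjective x
      rw [hodge_iff]
      constructor
      · intro hy
        exact ⟨y, hy, rfl⟩
      · rintro ⟨y', hy', he⟩
        rw [← (cmp (prC (bI j I)) 2).injective he]
        exact hy'
    rw [h3]
    exact LinearEquiv.finrank_map_eq (cmp (prC (bI j I)) 2) _
  have h5 : Fintype.card {b : β 2 // ¬ lev 2 b < 1} + Fintype.card {b : β 2 // lev 2 b < 1} =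
      Fintype.card (β 2) := by
    rw [add_comm, Fintype.card_subtype_compl]
    have h6 := Fintype.card_subtype_le fun b : β 2 => lev 2 b < 1
    omega
  have h7 : Fintype.card {b : β 2 // lev 2 b < 1} = Fintype.card {b : β 2 // lev 2 b ≤ 0} :=
    Fintype.card_congr (Equiv.subtypeEquivRight fun b => Nat.lt_succ_iff)
  omega

/-- In characteristic `p` the line of the conjugate filtration is not in `F^1`. -/
theorem mov_point {A : Type u} [CommRing A] {n : ℕ} {I : Ideal (MvPolynomial (Fin n) A)} (hI : IsHomog I)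
    {β : ℕ → Type} [∀ m, Fintype (β m)] [∀ m, DecidableEq (β m)] {lev : ∀ m, β m → ℕ}
    {z : ∀ m, β m → (prC I).Ch} {h : ℕ → ℕ → ℕ} (hD : Dat I lev z h) {N₀ : ℕ} {D : Fin N₀ → Derivation ℤ A A}
    (V : ∀ l, Lft (prC I) (D l)) {G : ∀ m, Fin N₀ → β m → β m → A}
    {mu : ∀ m m', β m → β m' → β (m + m') → A} {Lg : ∀ m : ℕ, ℕ → Set (β m → A)} (hR : LinRel I z V G mu Lg)
    {N : ℕ} (hN : 0 < N) (hlev : ∀ b : β (4 * N), lev (4 * N) b = 2 * N)
    (hcard : Fintype.card {b : β 2 // lev 2 b ≤ 0} = 1) {κ : Type u} [Field κ] (φ : A →+* κ)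
    (hdim : DimC (prC (bI φ I))) (δ : Fin N₀ → Derivation ℤ κ κ) (hδ : ∀ l x, δ l (φ x) = φ (D l x))
    (hΔ : ∀ x : β 2 → κ, (∀ c, Fn D (G 2) (Bs lev mu (Lg 2 1) (2 * N - 1)) c → ∑ b, φ (c b) * x b = 0) → x = 0) :
    (prC (bI φ I)).Con 2 0 ⊔ (prC (bI φ I)).Fil 2 1 = ⊤ := by
  classical
  have had := hD.ad κ φ
  have hC := con_conj hI hD V hR φ hdim
  have hSt := con_stab hI hD V hR φ δ hδ
  obtain ⟨P, hP⟩ : ∃ P : ∀ m, ℕ → Submodule κ (β m → κ), P = fun m i => (hD.ad κ φ).con m i := ⟨_, rfl⟩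
  rw [← hP] at hC hSt
  have hfr : Module.finrank κ ↥(P 2 0) = 1 := by
    have h1 := hC.dim 2 0
    rw [← hcard]
    exact h1
  have hbot : ∀ m, m = 4 * N → P m (2 * N - 1) = ⊥ := by
    rintro m rfl
    have h1 := hC.dim (4 * N) (2 * N - 1)
    have h2 : Fintype.card {b : β (4 * N) // lev (4 * N) b ≤ 2 * N - 1} = 0 := by
      rw [Fintype.card_eq_zero_iff]
      refine ⟨fun b => ?_⟩
      have h3 := b.2
      rw [hlev] at h3
      omega
    have h3 : Module.finrank κ ↥(P (4 * N) (2 * N - 1)) = 0 := h1.trans h2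
    exact Submodule.finrank_eq_zero.1 h3
  have hinf : ∀ x ∈ P 2 0, (∀ b, lev 2 b < 1 → x b = 0) → x = 0 := by
    intro x hx hx1
    by_contra hx0
    have hall : ∀ y ∈ P 2 0, ∀ b, lev 2 b < 1 → y b = 0 := by
      intro y hy b hb
      obtain ⟨c, hc⟩ := (finrank_eq_one_iff_of_nonzero' (⟨x, hx⟩ : ↥(P 2 0))
        (fun h => hx0 (congrArg Subtype.val h))).1 hfr ⟨y, hy⟩
      have h1 : y = c • x := (congrArg Subtype.val hc).symm
      rw [h1, Pi.smul_apply, hx1 b hb, smul_zero]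
    apply hx0
    refine hΔ x fun c hc => ?_
    refine Fn.vanish φ δ hδ (P 2 0) (fun l y hy => hSt 2 0 l y hy) ?_ hc x hx
    rintro c (⟨b, hb, rfl⟩ | ⟨y, hy, e, rfl⟩) w hw
    · change ∑ b', φ (if b = b' then 1 else 0) * w b' = 0
      rw [Finset.sum_eq_single b]
      · rw [if_pos rfl, map_one, one_mul]
        exact hall w hw b hb
      · intro b' _ hb'
        rw [if_neg hb'.symm, map_zero, zero_mul]
      · intro h'
        exact absurd (Finset.mem_univ _) h'
    · have h1 := MW_mem φ mu (Lg 2 1) (P := P) (fun m m' i i' x hx y hy => hC.mul m m' i i' x hx y hy)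
        (fun g hg => hC.log 2 1 g hg) hw (2 * N - 1) y hy
      have h2 : twist 2 (2 * N - 1) = 4 * N := by
        rw [K5_twist]
        omega
      rw [hbot _ h2, Submodule.mem_bot] at h1
      exact congrFun h1 e
  have hfin : FiniteDimensional κ ((prC (bI φ I)).HdR 2) := had.finite 2
  refine Submodule.eq_top_of_finrank_eq ?_
  have h1 := hdim 2 0
  have h2 := Submodule.finrank_sup_add_finrank_inf_eq ((prC (bI φ I)).Con 2 0) ((prC (bI φ I)).Fil 2 1)
  have h3 : (prC (bI φ I)).Con 2 0 ⊓ (prC (bI φ I)).Fil 2 1 = ⊥ := by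
    rw [eq_bot_iff]
    rintro x ⟨hx1, hx2⟩
    obtain ⟨c, rfl⟩ := (had.eqv 2).surjective x
    have h4 : c ∈ P 2 0 := by
      rw [hP]
      exact hx1
    rw [hinf c h4 (had.eqv_mem_Fil.1 hx2), map_zero]
    exact Submodule.zero_mem _
  rw [h3, finrank_bot, add_zero] at h2
  rw [h2]
  exact h1

end MPadcHK
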