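import Pool.Agent.Lib.MP_adc574_ag_HK.M2
import Pool.Agent.Lib.MP_adc574_ag_GP.Logs

/-!
# Symplectic type with moving second cohomology: the data over a large ring
-/

set_option autoImplicit false
set_option linter.unusedSectionVars false

namespace MPadcHK

open MvPolynomial OrdRed MPadcGP

universe u v

/-- The conjugate filtration is opposite to the Hodge filtration at the points of characteristic `p` of the spectrum of
a larger ring where `Δ` does not vanish and the derivations extend. -/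
theorem key_mov {k : Type u} [Field k] [CharZero k] (A : Subalgebra ℤ k) (hA : A.FG) {n : ℕ}
    (I : Ideal (MvPolynomial (Fin n) A)) (hI : IsHomog I) (hs : IsSmoothProj (bI (algebraMap A k) I)) {N : ℕ}
    (hX : Symplectic (cov (prC (bI (algebraMap A k) I))) N)
    (hM : Moving (cov (prC (bI (algebraMap A k) I))) N) :
    ∃ (A₃ : Subalgebra ℤ k) (h3 : A ≤ A₃) (Δ : A₃) (N₀ : ℕ) (D : Fin N₀ → Derivation ℤ A₃ A₃), A₃.FG ∧ Δ ≠ 0 ∧
      ∀ (p : ℕ) [Fact p.Prime] (L : Type u) [Field L] [CharP L p] (φ : A₃ →+* L) (Λ : Type) [Fintype Λ] (bb : Λ → L),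
        PBas p bb → φ Δ ≠ 0 → ∀ δ : Fin N₀ → Derivation ℤ L L, (∀ l x, δ l (φ x) = φ (D l x)) →
          IsOppC (prC (bI φ (bI (Subalgebra.inclusion h3).toRingHom I))) := by
  classical
  have ft : ∀ A' : Subalgebra ℤ k, A'.FG → Algebra.FiniteType ℤ A' := fun A' h =>
    (Subalgebra.fg_iff_finiteType A').1 h
  have cz : ∀ A' : Subalgebra ℤ k, CharZero A' := fun A' =>
    ⟨fun a b h => by
      have h1 := congrArg (algebraMap A' k) h
      rw [map_natCast, map_natCast] at h1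
      exact Nat.cast_injective h1⟩
  have hfA := ft A hA
  have hcA := cz A
  have hnA : IsNoetherianRing A := Algebra.FiniteType.isNoetherianRing ℤ A
  -- data over `A₁`
  obtain ⟨a, ha0, haff, hdat⟩ := exists_aff hI (algebraMap A k) Subtype.val_injective hs
  obtain ⟨A₁, h1, hA₁, hua⟩ := exists_inv A hA a ha0
  have hf₁ := ft A₁ hA₁
  have hc₁ := cz A₁
  have hsm₁ : IsSmoothProj (bI (Subalgebra.inclusion h1).toRingHom I) := haff A₁ _ hua
  obtain ⟨β, i1, i2, lev, z, h, hD⟩ := hdat A₁ (Subalgebra.inclusion h1).toRingHom hua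
  have hI₁ : IsHomog (bI (Subalgebra.inclusion h1).toRingHom I) := hI.map _
  have hmu0 : ∀ m m' a b, ∃ c : β (m + m') → A₁,
      (prC (bI (Subalgebra.inclusion h1).toRingHom I)).cup (z m a) (z m' b) - ∑ e, c e • z (m + m') e ∈
        (prC (bI (Subalgebra.inclusion h1).toRingHom I)).Bc (m + m') :=
    fun m m' a b => hD.self.exists_coord (m + m') (CovD.cup_mem_Zc (hD.self.mem_Zc m a) (hD.self.mem_Zc m' b))
  choose mu hmu using hmu0
  have hIk : bI (algebraMap A₁ k) (bI (Subalgebra.inclusion h1).toRingHom I) = bI (algebraMap A k) I := by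
    rw [bI_bI]
    rfl
  have hX' : Symplectic (cov (prC (bI (algebraMap A₁ k) (bI (Subalgebra.inclusion h1).toRingHom I)))) N := by
    rw [hIk]
    exact hX
  obtain ⟨s, t, hS⟩ := symp_of_symplectic (algebraMap A₁ k) (hD.ad k (algebraMap A₁ k)) hmu hX'
  obtain ⟨S, hSf, hspread⟩ := symp_spread A₁ mu hS
  obtain ⟨A₂, h12, hA₂, hSA₂⟩ := E_adjoin A₁ hA₁ hSf
  -- the logarithmic classes
  have hfin : (∀ m, FiniteDimensional k ((prC (bI (algebraMap A₁ k)
      (bI (Subalgebra.inclusion h1).toRingHom I))).HdR m)) ∧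
      ∃ M, ∀ m, M ≤ m → Subsingleton ((prC (bI (algebraMap A₁ k)
        (bI (Subalgebra.inclusion h1).toRingHom I))).HdR m) := by
    refine ⟨fun m => (hD.ad k (algebraMap A₁ k)).finite m, ?_⟩
    obtain ⟨M, hM⟩ := hD.bound
    refine ⟨M, fun m hm => ?_⟩
    have := hM m hm
    exact ((hD.ad k (algebraMap A₁ k)).eqv m).symm.toEquiv.subsingleton
  obtain ⟨A', hle', hfg', hlog⟩ := exists_logs A₁ hA₁ hI₁ hsm₁ hfin.1 hfin.2
  -- `A₃`
  obtain ⟨A₃, hle₃, N₀, D, hgood⟩ := exists_good' (A₂ ⊔ A') (hA₂.sup hfg')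
  have h23 : A₂ ≤ A₃ := le_sup_left.trans hle₃
  have h13 : A₁ ≤ A₃ := h12.trans h23
  have h'3 : A' ≤ A₃ := le_sup_right.trans hle₃
  have h3 : A ≤ A₃ := h1.trans h13
  have hf₃ := ft A₃ hgood.fg
  have hc₃ := cz A₃
  obtain ⟨s₃, t₃, hE⟩ := hspread A₃ h13 (hSA₂.trans h23)
  have hu₃ : IsUnit ((Subalgebra.inclusion h3).toRingHom a) := hua.map (Subalgebra.inclusion h13)
  have hsm₃ : IsSmoothProj (bI (Subalgebra.inclusion h3).toRingHom I) := haff A₃ _ hu₃
  have hI₃ : IsHomog (bI (Subalgebra.inclusion h3).toRingHom I) := hI.map _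
  obtain ⟨β₃, j1, j2, lev₃, z₃, h₃, hD₃⟩ := hdat A₃ (Subalgebra.inclusion h3).toRingHom hu₃
  have hlog₃ := hlog A₃ h'3 h13
  rw [bI_bI] at hlog₃
  have hinc : (Subalgebra.inclusion h13).toRingHom.comp (Subalgebra.inclusion h1).toRingHom =
    (Subalgebra.inclusion h3).toRingHom := rfl
  rw [hinc] at hlog₃
  choose T hTf hTl hTs using hlog₃
  have V : ∀ l, Lft (prC (bI (Subalgebra.inclusion h3).toRingHom I)) (D l) := fun l =>
    (exists_lft hI₃ hsm₃ (D l)).some
  obtain ⟨G, mu₃, Lg, hR, hSL⟩ := exists_rel hD₃ V T hTl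
  have hIk₃ : bI (algebraMap A₃ k) (bI (Subalgebra.inclusion h3).toRingHom I) = bI (algebraMap A k) I := by
    rw [bI_bI]
    rfl
  have hX₃ : Symplectic (cov (prC (bI (algebraMap A₃ k) (bI (Subalgebra.inclusion h3).toRingHom I)))) N := by
    rw [hIk₃]
    exact hX
  have hM₃ : Moving (cov (prC (bI (algebraMap A₃ k) (bI (Subalgebra.inclusion h3).toRingHom I)))) N := by
    rw [hIk₃]
    exact hM
  obtain ⟨s', t', hS'⟩ := symp_of_symplectic (algebraMap A₃ k) (hD₃.ad k (algebraMap A₃ k)) hR.cup hX₃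
  have hcard := mov_card (algebraMap A₃ k) (hD₃.ad k (algebraMap A₃ k)) hM₃.1
  have hN : 0 < N := by
    rcases Nat.eq_zero_or_pos N with h0 | h0
    · have h2 := hS'.empty 2 (by omega)
      have h3 : Fintype.card {b : β₃ 2 // lev₃ 2 b ≤ 0} = 0 := by
        rw [Fintype.card_eq_zero_iff]
        exact ⟨fun b => h2.elim b.1⟩
      omega
    · exact h0
  have hAnn := ann_of_moving hI₃ hD₃ hgood V hR (T 2 1) (hSL 2 1) (hTs 2 1) hM₃
  obtain ⟨Δ, hΔ0, hΔ⟩ := exists_det (algebraMap A₃ k) hAnn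
  have hΔne : Δ ≠ 0 := by
    rintro rfl
    exact hΔ0 (map_zero _)
  refine ⟨A₃, h3, Δ, N₀, D, hgood.fg, hΔne, fun p _ L _ _ φ Λ _ bb hbb hφΔ δ hδ => ?_⟩
  have hdim : DimC (prC (bI φ (bI (Subalgebra.inclusion h3).toRingHom I))) := fun m i =>
    conj_dim hbb (hI₃.map _) (hsm₃.map hI₃ φ) (fun q m => (hD₃.hodge L φ q m).1) (dat_sum hI₃ hsm₃ hD₃ φ) m i
  have hsup := mov_point hI₃ hD₃ V hR hN hS'.levtop hcard φ hdim δ hδ
    (hΔ L φ hφΔ)
  have hcomp : bI φ (bI (Subalgebra.inclusion h3).toRingHom I) =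
      bI (φ.comp (Subalgebra.inclusion h13).toRingHom) (bI (Subalgebra.inclusion h1).toRingHom I) := by
    rw [bI_bI, bI_bI, RingHom.comp_assoc]
    rfl
  rw [hcomp] at hsup hdim
  have hopp := E_opp hI₁ hD hmu (φ.comp (Subalgebra.inclusion h13).toRingHom) hdim
    (hE L φ) hsup
  rw [← hcomp] at hopp
  exact hopp

end MPadcHK
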