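import Pool.Agent.Lib.MP_adc574_ag_HK.M3
import Pool.Agent.Lib.MP_adc574_ag_GP.Fin4a
import Pool.Agent.Lib.MP_adc574_ag_GP.Fin5

/-!
# Symplectic type with moving second cohomology: the theorem
-/

set_option autoImplicit false
set_option linter.unusedSectionVars false

namespace MPadcHK

open MvPolynomial OrdRed MPadcGP

universe u v

/-- The residue fields of the generic points of `V(p)`. -/
theorem resL (A : Type u) [CommRing A] [IsDomain A] [CharZero A] [Algebra.FiniteType ℤ A] :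
    ∃ B : A → ℕ, ∀ p : ℕ, p.Prime → B 0 < p → ∀ 𝔓 ∈ (Ideal.span {(p : A)}).minimalPrimes,
      ∃ (L : Type u) (_ : Field L) (φ : A →+* L), RingHom.ker φ = 𝔓 ∧ CharP L p ∧
        (∀ D : Derivation ℤ A A, ∃ dl : Derivation ℤ L L, ∀ a, dl (φ a) = φ (D a)) ∧
        (∀ b, b ≠ 0 → B b < p → φ b ≠ 0) ∧ ∃ (Λ : Type) (_ : Fintype Λ) (b : Λ → L), PBas p b := by
  obtain ⟨B, hB⟩ := exists_resB A
  refine ⟨B, fun p hp hlt 𝔓 h𝔓 => ?_⟩
  have hpr : 𝔓.IsPrime := h𝔓.1.1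
  exact ⟨FractionRing (A ⧸ 𝔓), inferInstance, _, frac_ker 𝔓,
    hB p hp hlt 𝔓 h𝔓 (FractionRing (A ⧸ 𝔓)) _ (frac_ker 𝔓) (frac_surj 𝔓)⟩

/-- From a point of `Spec A₃` above the generic point of `V(𝔓)` to this point. -/
theorem descend {A A₃ : Type u} [CommRing A] [CommRing A₃] (ι : A →+* A₃) {n : ℕ}
    {I : Ideal (MvPolynomial (Fin n) A)} (hI : IsHomog I) (𝔓 : Ideal A) [𝔓.IsPrime] {L : Type u} [Field L]
    (φ : A₃ →+* L) (hker : RingHom.ker (φ.comp ι) = 𝔓) (hopp : IsOppC (prC (bI φ (bI ι I)))) :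
    IsOppC (prC (bI ((algebraMap (A ⧸ 𝔓) (FractionRing (A ⧸ 𝔓))).comp (Ideal.Quotient.mk 𝔓)) I)) := by
  obtain ⟨ρ, hρ⟩ := exists_hom_frac 𝔓 (φ.comp ι) hker
  refine isOppC_of_ext (hI.map _) ρ ?_
  rw [bI_bI, hρ, ← bI_bI]
  exact hopp

/-- The conjugate filtration is opposite to the Hodge filtration at the generic points of `Spec A/p`. -/
theorem core_mov {k : Type u} [Field k] [CharZero k] (A : Subalgebra ℤ k) (hA : A.FG) {n : ℕ}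
    (I : Ideal (MvPolynomial (Fin n) A)) (hI : IsHomog I) (hs : IsSmoothProj (bI (algebraMap A k) I)) {N : ℕ}
    (hX : Symplectic (cov (prC (bI (algebraMap A k) I))) N)
    (hM : Moving (cov (prC (bI (algebraMap A k) I))) N) :
    ∃ p₀ : ℕ, ∀ p : ℕ, p₀ ≤ p → p.Prime → ∀ 𝔓 : Ideal A, 𝔓 ∈ (Ideal.span {(p : A)}).minimalPrimes →
      ∀ [𝔓.IsPrime], IsOppC (prC (bI ((algebraMap (A ⧸ 𝔓) (FractionRing (A ⧸ 𝔓))).comp (Ideal.Quotient.mk 𝔓)) I)) := by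
  have cz : ∀ A' : Subalgebra ℤ k, CharZero A' := fun A' =>
    ⟨fun a b h => by
      have h1 := congrArg (algebraMap A' k) h
      rw [map_natCast, map_natCast] at h1
      exact Nat.cast_injective h1⟩
  obtain ⟨A₃, h3, Δ, N₀, D, hfg, hΔ, hall⟩ := key_mov A hA I hI hs hX hM
  have hfA : Algebra.FiniteType ℤ A := (Subalgebra.fg_iff_finiteType A).1 hA
  have hf₃ : Algebra.FiniteType ℤ A₃ := (Subalgebra.fg_iff_finiteType A₃).1 hfg
  have hcA := cz A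
  have hc₃ := cz A₃
  obtain ⟨p₁, hover⟩ := exists_over A A₃ (Subalgebra.inclusion h3).toRingHom (Subalgebra.inclusion_injective h3)
  obtain ⟨B, hB⟩ := resL A₃
  refine ⟨p₁ + B 0 + B Δ + 1, fun p hp hprime 𝔓 h𝔓 _ => ?_⟩
  have hfact : Fact p.Prime := ⟨hprime⟩
  obtain ⟨𝔔, h𝔔, h𝔔c⟩ := hover p hprime (by omega) 𝔓 h𝔓
  obtain ⟨L, iL, φ, hker, hcp, hder, hne, Λ, iΛ, bb, hbb⟩ := hB p hprime (by omega) 𝔔 h𝔔
  choose δ hδ using fun l => hder (D l)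
  refine descend (Subalgebra.inclusion h3).toRingHom hI 𝔓 φ ?_
    (hall p L φ Λ bb hbb (hne Δ hΔ (by omega)) δ hδ)
  rw [← h𝔔c, ← hker]
  rfl

/-- Symplectic type with moving second cohomology: ordinary reduction. -/
theorem main_mov {k : Type u} [Field k] [CharZero k] (A : Subalgebra ℤ k) (hA : A.FG) {n : ℕ}
    (I : Ideal (MvPolynomial (Fin n) A)) (hI : Homogeneous I) (hs : SmoothProj (change I (algebraMap A k))) {N : ℕ}
    (hX : Symplectic (proj (change I (algebraMap A k))) N) (hM : Moving (proj (change I (algebraMap A k))) N)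
    (b : A) (hb : b ≠ 0) :
    ∃ p₀ : ℕ, ∀ p : ℕ, p₀ ≤ p → p.Prime →
      HasOrdinaryFibre I b p ∧ ∀ 𝔓 ∈ (Ideal.span {(p : A)}).minimalPrimes, ∃ f ∉ 𝔓, ∀ 𝔫 : Ideal A, 𝔫.IsMaximal →
        𝔓 ≤ 𝔫 → f ∉ 𝔫 →
          SmoothProj (change I (Ideal.Quotient.mk 𝔫)) ∧ (proj (change I (Ideal.Quotient.mk 𝔫))).Ordinary := by
  classical
  have hI' : IsHomog I := hI
  have hs' : IsSmoothProj (bI (algebraMap A k) I) := hs
  have hfA : Algebra.FiniteType ℤ A := (Subalgebra.fg_iff_finiteType A).1 hA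
  have hcA : CharZero A := ⟨fun a b h => by
      have h1 := congrArg (algebraMap A k) h
      rw [map_natCast, map_natCast] at h1
      exact Nat.cast_injective h1⟩
  have hpr : proj (change I (algebraMap A k)) = cov (prC (bI (algebraMap A k) I)) := proj_eq _
  rw [hpr] at hX hM
  obtain ⟨p₀, hp₀⟩ := core_mov A hA I hI' hs' hX hM
  obtain ⟨c, hc0, -, hdc⟩ := exists_hasDat hI' hI' (algebraMap A k) Subtype.val_injective hs' hs'
  obtain ⟨BA, hBA⟩ := exists_resB A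
  obtain ⟨L, iL, φ, B, hB, -⟩ := exists_resFields' A
  refine ⟨p₀ + BA 0 + BA c + B 0 + B b + 1, fun p hp hprime => ?_⟩
  have hfact : Fact p.Prime := ⟨hprime⟩
  have hop : ∀ 𝔓 ∈ (Ideal.span {(p : A)}).minimalPrimes, IsOpenOrd I 𝔓 := by
    intro 𝔓 h𝔓
    have hpr : 𝔓.IsPrime := h𝔓.1.1
    obtain ⟨hcK, -, hne, Λ, iΛ, bb, hbb⟩ := hBA p hprime (by omega) 𝔓 h𝔓 (FractionRing (A ⧸ 𝔓)) _ (frac_ker 𝔓)
      (frac_surj 𝔓)
    have hcφ := hne c hc0 (by omega)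
    exact open_of_opp (p := p) hI' hc0 hdc _ (frac_ker 𝔓) (frac_surj 𝔓) hbb hcφ (hp₀ p (by omega) hprime 𝔓 h𝔓)
  have hcp : CharP (L p) p := hB.char p hprime (by omega)
  have hkp : (RingHom.ker (φ p)).IsPrime := RingHom.ker_isPrime (φ p)
  have hle : Ideal.span {(p : A)} ≤ RingHom.ker (φ p) := by
    rw [Ideal.span_singleton_le_iff_mem, RingHom.mem_ker, map_natCast]
    exact CharP.cast_eq_zero (L p) p
  obtain ⟨𝔓, h𝔓, hle𝔓⟩ := Ideal.exists_minimalPrimes_le hle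
  have hpr𝔓 : 𝔓.IsPrime := h𝔓.1.1
  have hp𝔓 : (p : A) ∈ 𝔓 := h𝔓.1.2 (Ideal.mem_span_singleton_self _)
  have hb𝔓 : b ∉ 𝔓 := fun h => hB.ne p hprime (by omega) b hb (by omega) (hle𝔓 h)
  obtain ⟨f, hf, hall⟩ := hop 𝔓 h𝔓
  have hbf : b * f ∉ 𝔓 := by
    intro h
    rcases hpr𝔓.mem_or_mem h with h | h
    · exact hb𝔓 h
    · exact hf h
  obtain ⟨𝔫, h𝔫, hle'', hbf𝔫⟩ := exists_max_not_mem (p := p) 𝔓 hp𝔓 _ hbf
  have h1 := hall 𝔫 h𝔫 hle'' fun h => hbf𝔫 (Ideal.mul_mem_left _ _ h)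
  refine ⟨⟨𝔫, h𝔫, fun h => hbf𝔫 (Ideal.mul_mem_right _ _ h), hle'' hp𝔓, h1.1, (ordinary_proj_iff _).2 h1.2⟩,
    fun 𝔓 h𝔓 => ?_⟩
  obtain ⟨f, hf, hall⟩ := hop 𝔓 h𝔓
  refine ⟨f, hf, fun 𝔫 h𝔫 hle hf𝔫 => ?_⟩
  obtain ⟨h1, h2⟩ := hall 𝔫 h𝔫 hle hf𝔫
  exact ⟨h1, (ordinary_proj_iff _).2 h2⟩

end MPadcHK
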